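import Pool.Agent.LibMA34.Defs

namespace LibMA34

open scoped ContDiff

/-- `4 u_{1 1̄}`. -/
noncomputable def hA (u : (Fin 2 → ℂ) → ℝ) (z : Fin 2 → ℂ) : ℝ :=
  D2 u (ev 0) (ev 0) z + D2 u (iev 0) (iev 0) z
/-- `4 u_{2 2̄}`. -/
noncomputable def hB (u : (Fin 2 → ℂ) → ℝ) (z : Fin 2 → ℂ) : ℝ :=
  D2 u (ev 1) (ev 1) z + D2 u (iev 1) (iev 1) z
/-- `4 Re u_{1 2̄}`. -/
noncomputable def hC (u : (Fin 2 → ℂ) → ℝ) (z : Fin 2 → ℂ) : ℝ :=
  D2 u (ev 0) (ev 1) z + D2 u (iev 0) (iev 1) z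
/-- `4 Im u_{1 2̄}`. -/
noncomputable def hE (u : (Fin 2 → ℂ) → ℝ) (z : Fin 2 → ℂ) : ℝ :=
  D2 u (ev 0) (iev 1) z - D2 u (iev 0) (ev 1) z

/-- `D2 u` is the second Frechet derivative. -/
theorem D2_eq {n : ℕ} {u : (Fin n → ℂ) → ℝ} {z : Fin n → ℂ} (hu : ContDiffAt ℝ 2 u z)
    (a b : Fin n → ℂ) : D2 u a b z = fderiv ℝ (fderiv ℝ u) z a b := by
  have h1 : DifferentiableAt ℝ (fderiv ℝ u) z :=
    (hu.fderiv_right (m := 1) (by norm_num)).differentiableAt (by norm_num)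
  unfold D2
  rw [fderiv_clm_apply h1 (differentiableAt_const b)]
  simp

theorem D2_symm {n : ℕ} {u : (Fin n → ℂ) → ℝ} {z : Fin n → ℂ} (hu : ContDiffAt ℝ 2 u z)
    (a b : Fin n → ℂ) : D2 u a b z = D2 u b a z := by
  rw [D2_eq hu, D2_eq hu]
  exact (hu.isSymmSndFDerivAt (by simp)).eq a b

/-- `D2 u` is linear in the first slot. -/
theorem D2_add_smul {n : ℕ} (u : (Fin n → ℂ) → ℝ) (z : Fin n → ℂ)
    (a b c : Fin n → ℂ) (s t : ℝ) :
    D2 u (s • a + t • b) c z = s * D2 u a c z + t * D2 u b c z := by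
  unfold D2
  simp

theorem maDensity_eq {u : (Fin 2 → ℂ) → ℝ} {z : Fin 2 → ℂ} (hu : ContDiffAt ℝ 2 u z) :
    maDensity u z = (hA u z * hB u z - hC u z ^ 2 - hE u z ^ 2) / 16 := by
  unfold maDensity complexHessian hA hB hC hE
  rw [Matrix.det_fin_two]
  simp only [Matrix.of_apply]
  rw [D2_symm hu (ev 1) (ev 0), D2_symm hu (iev 1) (iev 0), D2_symm hu (ev 1) (iev 0),
    D2_symm hu (iev 1) (ev 0), D2_symm hu (iev 0) (ev 0), D2_symm hu (iev 1) (ev 1)]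
  simp only [Complex.sub_re, Complex.mul_re, Complex.mul_im, Complex.add_re, Complex.add_im,
    Complex.ofReal_re, Complex.ofReal_im, Complex.I_re, Complex.I_im]
  norm_num
  ring

end LibMA34
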