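import Mathlib

namespace LibMA34

open Metric

/-- A `C²` function with nonnegative Laplacian on a neighbourhood of the closed unit disc has the
submean value property there. Proof: `M(R) = ∫ h(R e^{iθ}) dθ` satisfies
`(R M')' = R ∫ Δh(R e^{iθ}) dθ ≥ 0` because `R² Δh = R² h_RR + R h_R + h_θθ` and `∫ h_θθ = 0`. -/
theorem submean_of_laplacian {h : ℂ → ℝ} {W : Set ℂ} (hW : IsOpen W) (hsub : closedBall 0 1 ⊆ W)
    (hh : ContDiffOn ℝ 2 h W)
    (hL : ∀ z ∈ W, 0 ≤ fderiv ℝ (fun y => fderiv ℝ h y 1) z 1 +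
      fderiv ℝ (fun y => fderiv ℝ h y Complex.I) z Complex.I) :
    h 0 ≤ Real.circleAverage h 0 1 := by
  set D : ℂ → ℂ →L[ℝ] ℝ := fderiv ℝ h with hD
  set E : ℂ → ℂ →L[ℝ] ℂ →L[ℝ] ℝ := fderiv ℝ D with hE
  have hDc : ContDiffOn ℝ 1 D W := hh.fderiv_of_isOpen hW (by norm_num)
  have hDc0 : ContinuousOn D W := hDc.continuousOn
  have hEc : ContinuousOn E W := hDc.continuousOn_fderiv_of_isOpen hW le_rfl
  have hhD : ∀ z ∈ W, HasFDerivAt h (D z) z := fun z hz =>
    ((hh.contDiffAt (hW.mem_nhds hz)).differentiableAt (by norm_num)).hasFDerivAt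
  have hDE : ∀ z ∈ W, HasFDerivAt D (E z) z := fun z hz =>
    ((hDc.contDiffAt (hW.mem_nhds hz)).differentiableAt (by norm_num)).hasFDerivAt
  have hLap : ∀ z ∈ W, 0 ≤ E z 1 1 + E z Complex.I Complex.I := by
    intro z hz
    have h1 := hL z hz
    have e1 : ∀ b : ℂ, fderiv ℝ (fun y => fderiv ℝ h y b) z b = E z b b := by
      intro b
      have : HasFDerivAt (fun y => D y b) ((E z).flip b) z := by
        have := (hDE z hz).clm_apply (hasFDerivAt_const b z)
        simpa using this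
      rw [← hD, this.fderiv]; rfl
    rw [e1, e1] at h1
    exact h1
  -- the point
  set e : ℝ → ℂ := fun θ => circleMap 0 1 θ with he
  have hen : ∀ θ, ‖e θ‖ = 1 := by intro θ; simp [he]
  have hec : Continuous e := continuous_circleMap 0 1
  have hed : ∀ θ, HasDerivAt e (Complex.I * e θ) θ := by
    intro θ
    have := hasDerivAt_circleMap 0 1 θ
    simpa [he, mul_comm] using this
  have hmem : ∀ s ∈ Set.Icc (0:ℝ) 1, ∀ θ, (s:ℂ) * e θ ∈ W := by
    intro s hs θ
    apply hsub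
    rw [mem_closedBall_zero_iff, norm_mul, hen, mul_one, Complex.norm_real, Real.norm_eq_abs,
      abs_of_nonneg hs.1]
    exact hs.2
  have hPc : Continuous (fun p : ℝ × ℝ => (p.1 : ℂ) * e p.2) := by fun_prop
  have hDP : ContinuousOn (fun p : ℝ × ℝ => D ((p.1 : ℂ) * e p.2)) (Set.Icc 0 1 ×ˢ Set.univ) :=
    hDc0.comp hPc.continuousOn fun p hp => hmem p.1 hp.1 p.2
  have hEP : ContinuousOn (fun p : ℝ × ℝ => E ((p.1 : ℂ) * e p.2)) (Set.Icc 0 1 ×ˢ Set.univ) :=
    hEc.comp hPc.continuousOn fun p hp => hmem p.1 hp.1 p.2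
  -- the four functions
  have hgc : ContinuousOn (fun p : ℝ × ℝ => D ((p.1 : ℂ) * e p.2) (e p.2))
      (Set.Icc 0 1 ×ˢ Set.univ) := hDP.clm_apply (by fun_prop)
  have hg2c : ContinuousOn (fun p : ℝ × ℝ => D ((p.1 : ℂ) * e p.2) (p.1 * e p.2))
      (Set.Icc 0 1 ×ˢ Set.univ) := hDP.clm_apply (by fun_prop)
  have hg3c : ContinuousOn (fun p : ℝ × ℝ => E ((p.1 : ℂ) * e p.2) (e p.2) (p.1 * e p.2) +
      D ((p.1 : ℂ) * e p.2) (e p.2)) (Set.Icc 0 1 ×ˢ Set.univ) :=
    ((hEP.clm_apply (by fun_prop)).clm_apply (by fun_prop)).add hgc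
  have hline : ∀ (s θ : ℝ), HasDerivAt (fun s : ℝ => (s : ℂ) * e θ) (e θ) s := by
    intro s θ
    simpa using (Complex.ofRealCLM.hasDerivAt (x := s)).mul_const (e θ)
  have hcirc : ∀ (s θ : ℝ), HasDerivAt (fun θ : ℝ => (s : ℂ) * e θ) (Complex.I * (s * e θ)) θ := by
    intro s θ
    exact ((hed θ).const_mul (s : ℂ)).congr_deriv (by ring)
  have hIoc : ∀ r ∈ Set.Icc (0:ℝ) 1, ∀ F : ℝ → ℝ → ℝ,
      ContinuousOn (Function.uncurry F) (Set.Icc 0 1 ×ˢ Set.univ) →
      ∫ s in (0:ℝ)..r, ∫ θ in (0:ℝ)..(2 * Real.pi), F s θ =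
        ∫ θ in (0:ℝ)..(2 * Real.pi), ∫ s in (0:ℝ)..r, F s θ := by
    intro r hr F hF
    apply MeasureTheory.intervalIntegral_intervalIntegral_swap
    have : MeasureTheory.IntegrableOn (Function.uncurry F)
        (Set.Icc (0:ℝ) r ×ˢ Set.Icc (0:ℝ) (2 * Real.pi)) := by
      apply ContinuousOn.integrableOn_compact (isCompact_Icc.prod isCompact_Icc)
      exact hF.mono (Set.prod_mono (Set.Icc_subset_Icc_right hr.2) (Set.subset_univ _))
    apply this.mono_set
    rw [Set.uIoc_of_le hr.1, Set.uIoc_of_le (by positivity)]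
    exact Set.prod_mono Set.Ioc_subset_Icc_self Set.Ioc_subset_Icc_self
  have hpt : ∀ (A : ℂ →L[ℝ] ℂ →L[ℝ] ℝ) (B : ℂ →L[ℝ] ℝ) (s θ : ℝ),
      s • (A (e θ) (s * e θ) + B (e θ)) + (A (Complex.I * (s * e θ)) (Complex.I * (s * e θ)) -
        B (s * e θ)) = s ^ 2 * (A 1 1 + A Complex.I Complex.I) := by
    intro A B s θ
    have hIe : Complex.I * e θ = (-Real.sin θ) • (1:ℂ) + (Real.cos θ) • Complex.I := by
      simp only [he, circleMap, Complex.exp_mul_I, Complex.real_smul]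
      push_cast
      linear_combination (Complex.sin θ) * Complex.I_sq
    have hee : e θ = (Real.cos θ) • (1:ℂ) + (Real.sin θ) • Complex.I := by
      simp only [he, circleMap, Complex.exp_mul_I, Complex.real_smul]
      push_cast
      ring
    have hI2 : Complex.I * ((s:ℂ) * e θ) = s • (Complex.I * e θ) := by
      rw [Complex.real_smul]; ring
    have hsm : (s:ℂ) * e θ = s • e θ := by rw [Complex.real_smul]
    rw [hI2, hIe, hsm, hee]
    simp only [map_add, map_smul, ContinuousLinearMap.add_apply, ContinuousLinearMap.smul_apply,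
      smul_eq_mul, ContinuousLinearMap.coe_smul', Pi.smul_apply]
    have hcs := Real.sin_sq_add_cos_sq θ
    linear_combination (s ^ 2 * (A 1 1 + A Complex.I Complex.I)) * hcs
  -- nonnegativity of the inner integral
  have hslice : ∀ s ∈ Set.Icc (0:ℝ) 1, ∀ F : ℝ × ℝ → ℝ,
      ContinuousOn F (Set.Icc 0 1 ×ˢ Set.univ) → Continuous (fun θ => F (s, θ)) := by
    intro s hs F hF
    rw [← continuousOn_univ]
    exact hF.comp (by fun_prop) fun θ _ => ⟨hs, trivial⟩
  have hEPs : ∀ s ∈ Set.Icc (0:ℝ) 1, Continuous (fun θ => E ((s : ℂ) * e θ)) := by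
    intro s hs
    rw [← continuousOn_univ]
    exact hEc.comp (by fun_prop) fun θ _ => hmem s hs θ
  have hDPs : ∀ s ∈ Set.Icc (0:ℝ) 1, Continuous (fun θ => D ((s : ℂ) * e θ)) := by
    intro s hs
    rw [← continuousOn_univ]
    exact hDc0.comp (by fun_prop) fun θ _ => hmem s hs θ
  have hinner : ∀ s ∈ Set.Icc (0:ℝ) 1, 0 < s →
      0 ≤ ∫ θ in (0:ℝ)..(2 * Real.pi), (E ((s : ℂ) * e θ) (e θ) (s * e θ) +
        D ((s : ℂ) * e θ) (e θ)) := by
    intro s hs hs0
    have hk : ∀ θ : ℝ, HasDerivAt (fun θ => D ((s : ℂ) * e θ) (Complex.I * (s * e θ)))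
        (E ((s : ℂ) * e θ) (Complex.I * (s * e θ)) (Complex.I * (s * e θ)) -
          D ((s : ℂ) * e θ) (s * e θ)) θ := by
      intro θ
      have h1 := (hDE _ (hmem s hs θ)).comp_hasDerivAt θ (hcirc s θ)
      have h2 := (hcirc s θ).const_mul Complex.I
      have h3 := h1.clm_apply h2
      refine h3.congr_deriv ?_
      have : Complex.I * (Complex.I * ((s:ℂ) * e θ)) = -((s:ℂ) * e θ) := by
        rw [← mul_assoc, Complex.I_mul_I]; ring
      rw [this, map_neg, ← sub_eq_add_neg]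
      rfl
    have hkc : Continuous (fun θ => E ((s : ℂ) * e θ) (Complex.I * (s * e θ))
        (Complex.I * (s * e θ)) - D ((s : ℂ) * e θ) (s * e θ)) :=
      (((hEPs s hs).clm_apply (by fun_prop)).clm_apply (by fun_prop)).sub
        ((hDPs s hs).clm_apply (by fun_prop))
    have hzero : ∫ θ in (0:ℝ)..(2 * Real.pi), (E ((s : ℂ) * e θ) (Complex.I * (s * e θ))
        (Complex.I * (s * e θ)) - D ((s : ℂ) * e θ) (s * e θ)) = 0 := by
      rw [intervalIntegral.integral_eq_sub_of_hasDerivAt (fun θ _ => hk θ)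
        (hkc.intervalIntegrable _ _)]
      have : e (2 * Real.pi) = e 0 := by
        simp [he, circleMap]
      rw [this, sub_self]
    have hc3 : Continuous (fun θ => E ((s : ℂ) * e θ) (e θ) (s * e θ) +
        D ((s : ℂ) * e θ) (e θ)) :=
      (((hEPs s hs).clm_apply (by fun_prop)).clm_apply (by fun_prop)).add
        ((hDPs s hs).clm_apply (by fun_prop))
    have hsum : s * ∫ θ in (0:ℝ)..(2 * Real.pi), (E ((s : ℂ) * e θ) (e θ) (s * e θ) +
        D ((s : ℂ) * e θ) (e θ)) = ∫ θ in (0:ℝ)..(2 * Real.pi),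
          s ^ 2 * (E ((s : ℂ) * e θ) 1 1 + E ((s : ℂ) * e θ) Complex.I Complex.I) := by
      have hadd := intervalIntegral.integral_add (μ := MeasureTheory.volume)
        ((hc3.const_smul s).intervalIntegrable 0 (2 * Real.pi))
        (hkc.intervalIntegrable 0 (2 * Real.pi))
      rw [hzero, add_zero] at hadd
      rw [← intervalIntegral.integral_const_mul]
      refine Eq.trans (Eq.symm hadd) ?_
      · apply intervalIntegral.integral_congr
        intro θ _
        simp only []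
        exact hpt _ _ _ _
    have hnn : 0 ≤ ∫ θ in (0:ℝ)..(2 * Real.pi),
          s ^ 2 * (E ((s : ℂ) * e θ) 1 1 + E ((s : ℂ) * e θ) Complex.I Complex.I) := by
      apply intervalIntegral.integral_nonneg (by positivity)
      intro θ _
      exact mul_nonneg (sq_nonneg _) (hLap _ (hmem s hs θ))
    rw [← hsum] at hnn
    exact nonneg_of_mul_nonneg_right hnn hs0
  -- B(r) ≥ 0
  have hB : ∀ r ∈ Set.Icc (0:ℝ) 1,
      0 ≤ ∫ θ in (0:ℝ)..(2 * Real.pi), D ((r : ℂ) * e θ) (r * e θ) := by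
    intro r hr
    have h1 : ∀ θ : ℝ, D ((r : ℂ) * e θ) (r * e θ) = ∫ s in (0:ℝ)..r,
        (E ((s : ℂ) * e θ) (e θ) (s * e θ) + D ((s : ℂ) * e θ) (e θ)) := by
      intro θ
      have hd : ∀ s ∈ Set.uIcc (0:ℝ) r, HasDerivAt (fun s : ℝ => D ((s : ℂ) * e θ) (s * e θ))
          (E ((s : ℂ) * e θ) (e θ) (s * e θ) + D ((s : ℂ) * e θ) (e θ)) s := by
        intro s hs
        rw [Set.uIcc_of_le hr.1] at hs
        have hs' : s ∈ Set.Icc (0:ℝ) 1 := ⟨hs.1, hs.2.trans hr.2⟩
        exact ((hDE _ (hmem s hs' θ)).comp_hasDerivAt s (hline s θ)).clm_apply (hline s θ)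
      rw [intervalIntegral.integral_eq_sub_of_hasDerivAt hd]
      · simp
      · apply ContinuousOn.intervalIntegrable
        rw [Set.uIcc_of_le hr.1]
        exact hg3c.comp (f := fun s : ℝ => (s, θ)) (by fun_prop)
          fun s hs => ⟨⟨hs.1, hs.2.trans hr.2⟩, trivial⟩
    simp_rw [h1]
    rw [← hIoc r hr (fun s θ => E ((s : ℂ) * e θ) (e θ) (s * e θ) + D ((s : ℂ) * e θ) (e θ)) hg3c]
    apply intervalIntegral.integral_nonneg_of_ae_restrict hr.1
    rw [Filter.EventuallyLE, MeasureTheory.ae_restrict_iff' measurableSet_Icc]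
    have hne : ∀ᵐ s : ℝ, s ≠ 0 := by
      rw [MeasureTheory.ae_iff]; simp
    filter_upwards [hne] with s hs0 hs
    exact hinner s ⟨hs.1, hs.2.trans hr.2⟩ (lt_of_le_of_ne hs.1 (Ne.symm hs0))
  -- conclusion
  have hfin : ∀ θ : ℝ, h (e θ) - h 0 = ∫ s in (0:ℝ)..1, D ((s : ℂ) * e θ) (e θ) := by
    intro θ
    have hd : ∀ s ∈ Set.uIcc (0:ℝ) 1, HasDerivAt (fun s : ℝ => h ((s : ℂ) * e θ))
        (D ((s : ℂ) * e θ) (e θ)) s := by
      intro s hs
      rw [Set.uIcc_of_le zero_le_one] at hs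
      exact (hhD _ (hmem s hs θ)).comp_hasDerivAt s (hline s θ)
    rw [intervalIntegral.integral_eq_sub_of_hasDerivAt hd]
    · simp
    · apply ContinuousOn.intervalIntegrable
      rw [Set.uIcc_of_le zero_le_one]
      exact hgc.comp (f := fun s : ℝ => (s, θ)) (by fun_prop) fun s hs => ⟨hs, trivial⟩
  have hhc : Continuous (fun θ => h (e θ)) := by
    rw [← continuousOn_univ]
    refine hh.continuousOn.comp hec.continuousOn fun θ _ => ?_
    have := hmem 1 ⟨zero_le_one, le_rfl⟩ θ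
    simpa using this
  have key : 0 ≤ ∫ θ in (0:ℝ)..(2 * Real.pi), (h (e θ) - h 0) := by
    simp_rw [hfin]
    rw [← hIoc 1 ⟨zero_le_one, le_rfl⟩ (fun s θ => D ((s : ℂ) * e θ) (e θ)) hgc]
    apply intervalIntegral.integral_nonneg_of_ae_restrict zero_le_one
    rw [Filter.EventuallyLE, MeasureTheory.ae_restrict_iff' measurableSet_Icc]
    have hne : ∀ᵐ s : ℝ, s ≠ 0 := by
      rw [MeasureTheory.ae_iff]; simp
    filter_upwards [hne] with s hs0 hs
    have hspos : 0 < s := lt_of_le_of_ne hs.1 (Ne.symm hs0)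
    have h2 := hB s hs
    have h3 : ∫ θ in (0:ℝ)..(2 * Real.pi), D ((s : ℂ) * e θ) (s * e θ) =
        s * ∫ θ in (0:ℝ)..(2 * Real.pi), D ((s : ℂ) * e θ) (e θ) := by
      rw [← intervalIntegral.integral_const_mul]
      apply intervalIntegral.integral_congr
      intro θ _
      simp only []
      have : (D ((s : ℂ) * e θ)) (s • (e θ)) = s • (D ((s : ℂ) * e θ)) (e θ) := map_smul _ _ _
      rw [Complex.real_smul, smul_eq_mul] at this
      exact this
    rw [h3] at h2
    exact nonneg_of_mul_nonneg_right h2 hspos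
  rw [intervalIntegral.integral_sub (hhc.intervalIntegrable _ _) (by simp),
    intervalIntegral.integral_const, sub_zero, smul_eq_mul] at key
  rw [Real.circleAverage, smul_eq_mul, inv_mul_eq_div, le_div_iff₀ (by positivity)]
  have : ∫ θ in (0:ℝ)..(2 * Real.pi), h (e θ) = ∫ θ in (0:ℝ)..(2 * Real.pi),
    h (circleMap 0 1 θ) := rfl
  rw [← this]
  linarith

end LibMA34
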