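import Pool.Agent.LibMA34.Defs
import Pool.Agent.LibMA34.SubLap

namespace LibMA34

open Filter Topology

namespace PshLeviAux

variable {n : ℕ}

theorem hasFDerivAt_line (a b : Fin n → ℂ) (z : ℂ) :
    HasFDerivAt (fun ζ : ℂ => a + ζ • b) ((ContinuousLinearMap.id ℝ ℂ).smulRight b) z :=
  ((hasFDerivAt_id z).smul_const b).const_add a

theorem continuous_line (a b : Fin n → ℂ) : Continuous (fun ζ : ℂ => a + ζ • b) := by
  fun_prop

theorem contDiff_line (a b : Fin n → ℂ) : ContDiff ℝ 2 (fun ζ : ℂ => a + ζ • b) := by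
  fun_prop

theorem fderiv_line {W : Set (Fin n → ℂ)} (hW : IsOpen W) {u : (Fin n → ℂ) → ℝ}
    (hu : ContDiffOn ℝ 2 u W) (a b : Fin n → ℂ) (c : ℂ) {z : ℂ} (hz : a + z • b ∈ W) :
    fderiv ℝ (fun ζ : ℂ => u (a + ζ • b)) z c = fderiv ℝ u (a + z • b) (c • b) := by
  have h1 : HasFDerivAt u (fderiv ℝ u (a + z • b)) (a + z • b) :=
    ((hu.contDiffAt (hW.mem_nhds hz)).differentiableAt (by norm_num)).hasFDerivAt
  have h2 : HasFDerivAt (fun ζ : ℂ => u (a + ζ • b))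
      ((fderiv ℝ u (a + z • b)).comp ((ContinuousLinearMap.id ℝ ℂ).smulRight b)) z :=
    HasFDerivAt.comp z h1 (hasFDerivAt_line a b z)
  rw [h2.fderiv]
  simp

theorem differentiableAt_dir {W : Set (Fin n → ℂ)} (hW : IsOpen W) {u : (Fin n → ℂ) → ℝ}
    (hu : ContDiffOn ℝ 2 u W) (b : Fin n → ℂ) {z : Fin n → ℂ} (hz : z ∈ W) :
    DifferentiableAt ℝ (fun p => fderiv ℝ u p b) z := by
  have h4 : ContDiffAt ℝ 1 (fderiv ℝ u) z :=
    (hu.contDiffAt (hW.mem_nhds hz)).fderiv_right (by norm_num)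
  exact (h4.differentiableAt (by norm_num)).clm_apply (differentiableAt_const _)

theorem D2_line {W : Set (Fin n → ℂ)} (hW : IsOpen W) {u : (Fin n → ℂ) → ℝ}
    (hu : ContDiffOn ℝ 2 u W) (a b : Fin n → ℂ) (c d : ℂ) {z : ℂ} (hz : a + z • b ∈ W) :
    fderiv ℝ (fun y => fderiv ℝ (fun ζ : ℂ => u (a + ζ • b)) y c) z d =
      D2 u (d • b) (c • b) (a + z • b) := by
  have hnhds : ∀ᶠ y in 𝓝 z, a + y • b ∈ W :=
    (continuous_line a b).continuousAt.eventually_mem (hW.mem_nhds hz)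
  have he : (fun y => fderiv ℝ (fun ζ : ℂ => u (a + ζ • b)) y c) =ᶠ[𝓝 z]
      fun y => (fun p => fderiv ℝ u p (c • b)) (a + y • b) := by
    filter_upwards [hnhds] with y hy
    exact fderiv_line hW hu a b c hy
  rw [he.fderiv_eq]
  have h3 := differentiableAt_dir hW hu (c • b) hz
  have h2 : HasFDerivAt (fun y : ℂ => (fun p => fderiv ℝ u p (c • b)) (a + y • b))
      ((fderiv ℝ (fun p => fderiv ℝ u p (c • b)) (a + z • b)).comp
        ((ContinuousLinearMap.id ℝ ℂ).smulRight b)) z :=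
    HasFDerivAt.comp (g := fun p => fderiv ℝ u p (c • b)) z h3.hasFDerivAt
      (hasFDerivAt_line a b z)
  rw [h2.fderiv, D2]
  simp

theorem continuousAt_D2 {W : Set (Fin n → ℂ)} (hW : IsOpen W) {u : (Fin n → ℂ) → ℝ}
    (hu : ContDiffOn ℝ 2 u W) (a b : Fin n → ℂ) {z : Fin n → ℂ} (hz : z ∈ W) :
    ContinuousAt (D2 u a b) z := by
  have h4 : ContDiffAt ℝ 1 (fderiv ℝ u) z :=
    (hu.contDiffAt (hW.mem_nhds hz)).fderiv_right (by norm_num)
  have h5 : ContDiffAt ℝ 1 (fun p => fderiv ℝ u p b) z := h4.clm_apply contDiffAt_const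
  have h6 : ContDiffAt ℝ 0 (fderiv ℝ (fun p => fderiv ℝ u p b)) z :=
    h5.fderiv_right (by norm_num)
  exact h6.continuousAt.clm_apply continuousAt_const

theorem D2_smul {W : Set (Fin n → ℂ)} (hW : IsOpen W) {u : (Fin n → ℂ) → ℝ}
    (hu : ContDiffOn ℝ 2 u W) (r : ℝ) (b : Fin n → ℂ) {z : Fin n → ℂ} (hz : z ∈ W) :
    D2 u (r • b) (r • b) z = r ^ 2 * D2 u b b z := by
  have h1 : (fun y => fderiv ℝ u y (r • b)) = fun y => r * fderiv ℝ u y b := by
    funext y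
    rw [map_smul, smul_eq_mul]
  have h2 := ((differentiableAt_dir hW hu b hz).hasFDerivAt.const_mul r).fderiv
  rw [D2, h1, h2, D2, map_smul]
  simp only [smul_apply, smul_eq_mul]
  ring

theorem lap_aux {W : Set ℂ} (hW : IsOpen W) {h : ℂ → ℝ} (hh : ContDiffOn ℝ 2 h W) (κ : ℝ)
    {z : ℂ} (hz : z ∈ W) (c : ℂ) :
    fderiv ℝ (fun y => fderiv ℝ (fun ζ => -h ζ - κ * ‖ζ‖ ^ 2) y c) z c =
      -(fderiv ℝ (fun y => fderiv ℝ h y c) z c) - 2 * κ * ‖c‖ ^ 2 := by
  have e1 : (fun y => fderiv ℝ (fun ζ => -h ζ - κ * ‖ζ‖ ^ 2) y c) =ᶠ[𝓝 z]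
      fun y => -(fderiv ℝ h y c) - κ * (2 * innerSL ℝ c y) := by
    filter_upwards [hW.mem_nhds hz] with y hy
    have h1 : HasFDerivAt h (fderiv ℝ h y) y :=
      ((hh.contDiffAt (hW.mem_nhds hy)).differentiableAt (by norm_num)).hasFDerivAt
    have h2 : HasFDerivAt (fun ζ : ℂ => ‖ζ‖ ^ 2) (2 • innerSL ℝ y) y :=
      (hasStrictFDerivAt_norm_sq y).hasFDerivAt
    have h3 := (h1.fun_neg.fun_sub (h2.const_mul κ)).fderiv
    rw [h3]
    simp only [sub_apply, neg_apply, smul_apply, innerSL_apply_apply, smul_eq_mul,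
      nsmul_eq_mul, real_inner_comm]
    norm_num
  rw [e1.fderiv_eq]
  have h4 : HasFDerivAt (fun y => fderiv ℝ h y c) (fderiv ℝ (fun y => fderiv ℝ h y c) z) z := by
    have h5 : ContDiffAt ℝ 1 (fderiv ℝ h) z :=
      (hh.contDiffAt (hW.mem_nhds hz)).fderiv_right (by norm_num)
    exact ((h5.differentiableAt (by norm_num)).clm_apply (differentiableAt_const _)).hasFDerivAt
  have h5 : HasFDerivAt (fun y => innerSL ℝ c y) (innerSL ℝ c) z := (innerSL ℝ c).hasFDerivAt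
  have h6 := (h4.fun_neg.fun_sub ((h5.const_mul 2).const_mul κ)).fderiv
  rw [h6]
  simp only [sub_apply, neg_apply, smul_apply, innerSL_apply_apply, smul_eq_mul,
    real_inner_self_eq_norm_sq]
  ring

end PshLeviAux

open PshLeviAux

/-- A `C²` plurisubharmonic function has nonnegative Levi form (apply `submean_of_laplacian` to
`-h - η |ζ|²` on a small disc if the Laplacian of `h(ζ) = u(z + ζ b)` is negative at `0`). -/
theorem levi_of_psh {n : ℕ} {W : Set (Fin n → ℂ)} (hW : IsOpen W) {u : (Fin n → ℂ) → ℝ}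
    (hu : ContDiffOn ℝ 2 u W) (hp : PshOn W u) {z : Fin n → ℂ} (hz : z ∈ W) (b : Fin n → ℂ) :
    0 ≤ D2 u b b z + D2 u (Complex.I • b) (Complex.I • b) z := by
  by_contra hcon
  rw [not_le] at hcon
  obtain ⟨q, hq⟩ : ∃ q : (Fin n → ℂ) → ℝ,
      q = fun p => D2 u b b p + D2 u (Complex.I • b) (Complex.I • b) p := ⟨_, rfl⟩
  have hqz : q z < 0 := by rw [hq]; exact hcon
  have hqc : ContinuousAt q z := by
    rw [hq]
    exact (continuousAt_D2 hW hu b b hz).add
      (continuousAt_D2 hW hu (Complex.I • b) (Complex.I • b) hz)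
  obtain ⟨δ, hδ⟩ : ∃ δ : ℝ, δ = -(q z) / 2 := ⟨_, rfl⟩
  have hδ0 : 0 < δ := by rw [hδ]; linarith
  -- a disc on which the Levi form is less than `-δ`
  have hev : ∀ᶠ p in 𝓝 z, p ∈ W ∧ q p < -δ := by
    have h9 : ∀ᶠ p in 𝓝 z, p ∈ W := hW.mem_nhds hz
    exact h9.and (hqc.eventually_lt_const (by rw [hδ]; linarith))
  have hev2 : ∀ᶠ ζ : ℂ in 𝓝 0, z + ζ • b ∈ W ∧ q (z + ζ • b) < -δ := by
    have hc : Tendsto (fun ζ : ℂ => z + ζ • b) (𝓝 0) (𝓝 z) := by
      have := (continuous_line z b).tendsto 0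
      simpa using this
    exact hc.eventually hev
  obtain ⟨ε, hε, hball⟩ := Metric.eventually_nhds_iff_ball.1 hev2
  obtain ⟨r, hr⟩ : ∃ r : ℝ, r = ε / 2 := ⟨_, rfl⟩
  have hr0 : 0 < r := by rw [hr]; linarith
  obtain ⟨h, hh⟩ : ∃ h : ℂ → ℝ, h = fun ζ : ℂ => u (z + ζ • (r • b)) := ⟨_, rfl⟩
  have hmem : ∀ ζ ∈ Metric.ball (0 : ℂ) 2, z + ζ • (r • b) ∈ W ∧ q (z + ζ • (r • b)) < -δ := by
    intro ζ hζ
    have h1 : ζ • (r • b) = ((r : ℂ) * ζ) • b := by
      rw [mul_comm, mul_smul]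
      rfl
    rw [h1]
    apply hball
    rw [mem_ball_zero_iff] at hζ ⊢
    rw [norm_mul, Complex.norm_real, Real.norm_of_nonneg hr0.le]
    calc r * ‖ζ‖ < r * 2 := mul_lt_mul_of_pos_left hζ hr0
      _ = ε := by rw [hr]; ring
  have hh2 : ContDiffOn ℝ 2 h (Metric.ball 0 2) := by
    rw [hh]
    exact hu.comp (contDiff_line z (r • b)).contDiffOn (fun ζ hζ => (hmem ζ hζ).1)
  obtain ⟨κ, hκ⟩ : ∃ κ : ℝ, κ = r ^ 2 * δ / 4 := ⟨_, rfl⟩
  have hκ0 : 0 < κ := by rw [hκ]; positivity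
  have hsub := submean_of_laplacian (h := fun ζ => -h ζ - κ * ‖ζ‖ ^ 2) (W := Metric.ball 0 2)
    Metric.isOpen_ball (Metric.closedBall_subset_ball (by norm_num))
    (hh2.neg.sub ((contDiff_norm_sq ℝ).contDiffOn.const_smul κ)) ?_
  · -- comparison of the averages
    have hci : CircleIntegrable h 0 1 := by
      apply ContinuousOn.circleIntegrable zero_le_one
      apply hh2.continuousOn.mono
      intro ζ hζ
      rw [mem_sphere_zero_iff_norm] at hζ
      rw [mem_ball_zero_iff, hζ]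
      norm_num
    have e1 : Real.circleAverage (fun ζ => -h ζ - κ * ‖ζ‖ ^ 2) 0 1 =
        -Real.circleAverage h 0 1 - κ := by
      have e2 : Real.circleAverage (fun ζ => -h ζ - κ * ‖ζ‖ ^ 2) 0 1 =
          Real.circleAverage (fun ζ => (-1 : ℝ) • h ζ - κ) 0 1 := by
        apply Real.circleAverage_congr_sphere
        intro ζ hζ
        rw [mem_sphere_zero_iff_norm, abs_one] at hζ
        simp only [hζ, smul_eq_mul]
        ring
      rw [e2, Real.circleAverage_fun_sub (f₁ := fun ζ => (-1 : ℝ) • h ζ) (f₂ := fun _ => κ)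
        (hci.const_smul) (circleIntegrable_const κ 0 1),
        Real.circleAverage_fun_smul, Real.circleAverage_const, smul_eq_mul]
      ring
    rw [e1] at hsub
    have hpsh := hp.2 z (r • b) (fun ζ hζ => (hmem ζ (by
      rw [mem_ball_zero_iff]; linarith)).1)
    have e3 : Real.circleAverage (fun ζ : ℂ => u (z + ζ • (r • b))) 0 1 =
        Real.circleAverage h 0 1 := by rw [hh]
    rw [e3] at hpsh
    have e4 : h 0 = u z := by rw [hh]; simp
    simp only [norm_zero, e4] at hsub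
    linarith
  · intro ζ hζ
    have hm := hmem ζ hζ
    rw [lap_aux Metric.isOpen_ball hh2 κ hζ 1, lap_aux Metric.isOpen_ball hh2 κ hζ Complex.I,
      norm_one, Complex.norm_I, hh, D2_line hW hu z (r • b) 1 1 hm.1,
      D2_line hW hu z (r • b) Complex.I Complex.I hm.1, one_smul, smul_comm Complex.I r b,
      D2_smul hW hu r b hm.1, D2_smul hW hu r (Complex.I • b) hm.1]
    have h7 := hm.2
    rw [hq] at h7
    have h8 := mul_lt_mul_of_pos_left h7 (pow_pos hr0 2)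
    rw [hκ]
    simp only at h8
    linarith

end LibMA34
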