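import Pool.Agent.LibMA34.NullLagA
import Pool.Agent.LibMA34.MAform
import Pool.Agent.LibMA34.PshLevi

namespace LibMA34

open MeasureTheory
open scoped ContDiff

open Filter Topology Manifold in
private theorem cln_cutoff {K W : Set (Fin 2 → ℂ)} (hK : IsCompact K) (hW : IsOpen W)
    (hKW : K ⊆ W) : ∃ χ : (Fin 2 → ℂ) → ℝ, ContDiff ℝ ∞ χ ∧ HasCompactSupport χ ∧
      tsupport χ ⊆ W ∧ (∀ z ∈ K, ∀ᶠ y in 𝓝 z, χ y = 1) ∧ ∀ z, 0 ≤ χ z ∧ χ z ≤ 1 := by
  obtain ⟨V, hV, hKV, hVW⟩ := exists_compact_between hK hW hKW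
  obtain ⟨f, hf1, hf0, hf⟩ := exists_contMDiffMap_one_nhds_of_subset_interior (n := (⊤ : ℕ∞))
    𝓘(ℝ, Fin 2 → ℂ) hK.isClosed hKV
  have hsupp : Function.support f ⊆ V := by
    intro x hx
    by_contra hxV
    exact hx (hf0 x hxV)
  have hts : tsupport f ⊆ V := closure_minimal hsupp hV.isClosed
  refine ⟨f, ?_, ?_, hts.trans hVW, ?_, fun z => hf z⟩
  · exact contMDiff_iff_contDiff.1 f.contMDiff
  · exact hV.of_isClosed_subset (isClosed_tsupport _) hts
  · intro z hz
    exact (eventually_nhdsSet_iff_forall.1 hf1) z hz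

open Filter Topology in
private theorem cln_D2_congr {u v : (Fin 2 → ℂ) → ℝ} {z : Fin 2 → ℂ} (h : u =ᶠ[𝓝 z] v)
    (a b : Fin 2 → ℂ) : D2 u a b z = D2 v a b z := by
  unfold D2
  have h1 : (fun y => fderiv ℝ u y b) =ᶠ[𝓝 z] fun y => fderiv ℝ v y b := by
    filter_upwards [h.fderiv (𝕜 := ℝ)] with y hy
    rw [hy]
  rw [h1.fderiv_eq]

private theorem cln_D2_cont {u : (Fin 2 → ℂ) → ℝ} (hu : ContDiff ℝ ∞ u) (a b : Fin 2 → ℂ) :
    Continuous (D2 u a b) := by
  unfold D2
  have h0 : ContDiff ℝ ∞ (fderiv ℝ u) := hu.fderiv_right (m := ∞) (by simp)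
  have h1 : ContDiff ℝ ∞ (fun y => fderiv ℝ u y b) := h0.clm_apply contDiff_const
  have h2 : ContDiff ℝ ∞ (fderiv ℝ (fun y => fderiv ℝ u y b)) :=
    h1.fderiv_right (m := ∞) (by simp)
  exact (h2.clm_apply contDiff_const).continuous

open Filter Topology in
/-- Chern-Levine-Nirenberg estimate for the Laplacian: for a compact `K` in the open set `W` there
are a compact `L` in `W` and a constant `C` such that `∫_K (hA w + hB w) ≤ C sup_L |w|` for all
smooth plurisubharmonic `w` on `W`. (Cut-off `χ = 1` on `K`, `∫ χ (hA w + hB w) =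
∫ w (hA χ + hB χ)`.) -/
theorem cln {W K : Set (Fin 2 → ℂ)} (hW : IsOpen W) (hK : IsCompact K) (hKW : K ⊆ W) :
    ∃ L : Set (Fin 2 → ℂ), IsCompact L ∧ L ⊆ W ∧ ∃ C : ℝ, 0 ≤ C ∧
      ∀ w : (Fin 2 → ℂ) → ℝ, ContDiffOn ℝ ∞ w W → PshOn W w → ∀ M : ℝ, (∀ z ∈ L, |w z| ≤ M) →
        ∫ z in K, (hA w z + hB w z) ≤ C * M := by
  obtain ⟨χ, hχ, hχc, hχs, hχ1, hχ01⟩ := cln_cutoff hK hW hKW
  obtain ⟨ψ, hψ, hψc, hψs, hψ1, hψ01⟩ := cln_cutoff hχc.isCompact hW hχs
  set T : (Fin 2 → ℂ) → ℝ := fun z => hA χ z + hB χ z with hT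
  have hTc : Continuous T := by
    have h1 := cln_D2_cont hχ
    unfold T hA hB
    exact ((h1 _ _).add (h1 _ _)).add ((h1 _ _).add (h1 _ _))
  have hTz : ∀ z ∉ tsupport χ, T z = 0 := by
    intro z hz
    have h0 : χ =ᶠ[𝓝 z] fun _ => (0:ℝ) := notMem_tsupport_iff_eventuallyEq.1 hz
    have h1 : ∀ a b, D2 χ a b z = 0 := by
      intro a b
      rw [cln_D2_congr h0]
      unfold D2
      simp
    simp only [hT, hA, hB, h1, add_zero]
  have hTcs : HasCompactSupport T := by
    refine hχc.of_isClosed_subset (isClosed_tsupport _) (closure_minimal ?_ (isClosed_tsupport _))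
    intro z hz
    by_contra h
    exact hz (hTz z h)
  refine ⟨tsupport χ, hχc, hχs, ∫ z, |T z|, integral_nonneg fun _ => abs_nonneg _,
    fun w hw hp M hM => ?_⟩
  -- the globally smooth function
  set g : (Fin 2 → ℂ) → ℝ := fun z => ψ z * w z with hg
  have hgs : ContDiff ℝ ∞ g := by
    rw [contDiff_iff_contDiffAt]
    intro z
    by_cases hz : z ∈ tsupport ψ
    · exact hψ.contDiffAt.mul (hw.contDiffAt (hW.mem_nhds (hψs hz)))
    · have h0 : ψ =ᶠ[𝓝 z] fun _ => (0:ℝ) := notMem_tsupport_iff_eventuallyEq.1 hz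
      have h1 : g =ᶠ[𝓝 z] fun _ => (0:ℝ) := by
        filter_upwards [h0] with y hy
        simp [hg, hy]
      exact contDiffAt_const.congr_of_eventuallyEq h1
  have hgw : ∀ z ∈ tsupport χ, g =ᶠ[𝓝 z] w := by
    intro z hz
    filter_upwards [hψ1 z hz] with y hy
    simp [hg, hy]
  have hD : ∀ z ∈ tsupport χ, hA g z + hB g z = hA w z + hB w z := by
    intro z hz
    simp only [hA, hB, cln_D2_congr (hgw z hz)]
  have hKL : K ⊆ tsupport χ := by
    intro z hz
    have : χ z = 1 := (hχ1 z hz).self_of_nhds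
    exact subset_tsupport _ (by rw [Function.mem_support, this]; norm_num)
  have hlevi : ∀ z ∈ tsupport χ, 0 ≤ hA g z + hB g z := by
    intro z hz
    rw [hD z hz]
    have hw2 : ContDiffOn ℝ 2 w W := hw.of_le (WithTop.coe_le_coe.2 le_top)
    have e0 : Complex.I • (ev 0 : Fin 2 → ℂ) = iev 0 := by
      unfold ev iev
      ext j
      simp [Pi.single_apply]
    have e1 : Complex.I • (ev 1 : Fin 2 → ℂ) = iev 1 := by
      unfold ev iev
      ext j
      simp [Pi.single_apply]
    have h0 := levi_of_psh hW hw2 hp (hχs hz) (ev 0)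
    have h1 := levi_of_psh hW hw2 hp (hχs hz) (ev 1)
    rw [e0] at h0
    rw [e1] at h1
    unfold hA hB
    linarith
  -- integrability
  have hint : ∀ a : Fin 2 → ℂ, Integrable (fun z => χ z * D2 g a a z) := fun a =>
    (hχ.continuous.mul (cln_D2_cont hgs a a)).integrable_of_hasCompactSupport
      (HasCompactSupport.mul_right hχc)
  have hsum : (fun z => χ z * (hA g z + hB g z)) = fun z =>
      (χ z * D2 g (ev 0) (ev 0) z + χ z * D2 g (iev 0) (iev 0) z) +
      (χ z * D2 g (ev 1) (ev 1) z + χ z * D2 g (iev 1) (iev 1) z) := by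
    funext z; unfold hA hB; ring
  have hint1 : Integrable (fun z => χ z * (hA g z + hB g z)) := by
    rw [hsum]
    exact ((hint _).add (hint _)).add ((hint _).add (hint _))
  have hDc : ∀ a : Fin 2 → ℂ, HasCompactSupport (D2 χ a a) := by
    intro a
    refine hχc.of_isClosed_subset (isClosed_tsupport _) (closure_minimal ?_ (isClosed_tsupport _))
    intro z hz
    by_contra h
    apply hz
    have h0 : χ =ᶠ[𝓝 z] fun _ => (0:ℝ) := notMem_tsupport_iff_eventuallyEq.1 h
    rw [cln_D2_congr h0]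
    unfold D2
    simp
  have hint' : ∀ a : Fin 2 → ℂ, Integrable (fun z => g z * D2 χ a a z) := fun a =>
    (hgs.continuous.mul (cln_D2_cont hχ a a)).integrable_of_hasCompactSupport
      (HasCompactSupport.mul_left (hDc a))
  have hgT : Integrable (fun z => g z * T z) :=
    (hgs.continuous.mul hTc).integrable_of_hasCompactSupport (HasCompactSupport.mul_left hTcs)
  have hparts : ∫ z, χ z * (hA g z + hB g z) = ∫ z, g z * T z := by
    have hsum' : (fun z => g z * T z) = fun z =>
      (g z * D2 χ (ev 0) (ev 0) z + g z * D2 χ (iev 0) (iev 0) z) +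
      (g z * D2 χ (ev 1) (ev 1) z + g z * D2 χ (iev 1) (iev 1) z) := by
      funext z; simp only [hT, hA, hB]; ring
    have key : ∀ a b : Fin 2 → ℂ, ∫ z, (χ z * D2 g a a z + χ z * D2 g b b z) =
        ∫ z, (g z * D2 χ a a z + g z * D2 χ b b z) := by
      intro a b
      rw [integral_add (hint a) (hint b), integral_add (hint' a) (hint' b),
        integral_D2 hχ hχc hgs, integral_D2 hχ hχc hgs]
    have i1 : ∀ a b : Fin 2 → ℂ, Integrable (fun z => χ z * D2 g a a z + χ z * D2 g b b z) :=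
      fun a b => (hint a).add (hint b)
    have i2 : ∀ a b : Fin 2 → ℂ, Integrable (fun z => g z * D2 χ a a z + g z * D2 χ b b z) :=
      fun a b => (hint' a).add (hint' b)
    rw [hsum, hsum', integral_add (i1 _ _) (i1 _ _), integral_add (i2 _ _) (i2 _ _), key, key]
  have hnn : ∀ z, 0 ≤ χ z * (hA g z + hB g z) := by
    intro z
    by_cases hz : z ∈ tsupport χ
    · exact mul_nonneg (hχ01 z).1 (hlevi z hz)
    · rw [image_eq_zero_of_notMem_tsupport hz, zero_mul]
  calc ∫ z in K, (hA w z + hB w z) = ∫ z in K, χ z * (hA g z + hB g z) := by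
        refine setIntegral_congr_fun hK.measurableSet fun z hz => ?_
        have h1 : χ z = 1 := (hχ1 z hz).self_of_nhds
        simp only [h1, one_mul]
        exact (hD z (hKL hz)).symm
    _ ≤ ∫ z, χ z * (hA g z + hB g z) :=
        setIntegral_le_integral hint1 (Eventually.of_forall hnn)
    _ = ∫ z, g z * T z := hparts
    _ ≤ ∫ z, |T z| * M := by
        have hTa : Integrable (fun z => |T z| * M) :=
          ((hTc.integrable_of_hasCompactSupport hTcs).abs).mul_const M
        refine integral_mono hgT hTa fun z => ?_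
        by_cases hz : z ∈ tsupport χ
        · have h1 : g z = w z := (hgw z hz).self_of_nhds
          have h2 : |g z| ≤ M := by rw [h1]; exact hM z hz
          calc g z * T z ≤ |g z * T z| := le_abs_self _
            _ = |T z| * |g z| := by rw [abs_mul, mul_comm]
            _ ≤ |T z| * M := mul_le_mul_of_nonneg_left h2 (abs_nonneg _)
        · simp [hTz z hz]
    _ = (∫ z, |T z|) * M := integral_mul_const _ _

end LibMA34
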