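import Pool.Agent.LibMA34.Loc

namespace LibMA34

private lemma lev {w : (Fin 2 → ℂ) → ℝ} {z : Fin 2 → ℂ} (hw : ContDiffAt ℝ 2 w z)
    (hL : ∀ b, 0 ≤ D2 w b b z + D2 w (Complex.I • b) (Complex.I • b) z) (s c e : ℝ) :
    0 ≤ s ^ 2 * hA w z + (c ^ 2 + e ^ 2) * hB w z + 2 * s * c * hC w z + 2 * s * e * hE w z := by
  have h := hL (s • ev 0 + (1 : ℝ) • (c • ev 1 + e • iev 1))
  have hb : Complex.I • (s • ev 0 + (1 : ℝ) • (c • ev 1 + e • iev 1) : Fin 2 → ℂ) = 
      s • iev 0 + (1 : ℝ) • (c • iev 1 + (-e) • ev 1) := by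
    funext i
    fin_cases i
    · simp [ev, iev]; ring
    · simp [ev, iev]
      linear_combination (e : ℂ) * Complex.I_mul_I
  rw [hb] at h
  have hl : ∀ a b c : Fin 2 → ℂ, ∀ s t : ℝ, D2 w (s • a + t • b) c z = s * D2 w a c z + t * D2 w b c z := 
    fun a b c s t => D2_add_smul w z a b c s t
  have hr : ∀ a b c : Fin 2 → ℂ, ∀ s t : ℝ, D2 w c (s • a + t • b) z = s * D2 w c a z + t * D2 w c b z := by
    intro a b c s t
    rw [D2_symm hw, hl, D2_symm hw a c, D2_symm hw b c]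
  simp only [hl, hr] at h
  have s1 := D2_symm hw (ev 1) (ev 0)
  have s2 := D2_symm hw (iev 1) (iev 0)
  have s3 := D2_symm hw (iev 1) (ev 0)
  have s4 := D2_symm hw (iev 1) (ev 1)
  have s5 := D2_symm hw (ev 1) (iev 0)
  unfold hA hB hC hE
  rw [s1, s2, s3, s4, s5] at h
  nlinarith [h]

/-- `|mix(φ,w)| ≤ 3 C (hA w + hB w)` at a point where the Levi form of `w` is nonnegative, with
`C` a bound for the second derivatives of `φ`. (From the Levi form on `s e₀ + (c + i e) e₁`: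
`hC² + hE² ≤ hA hB`, `hA, hB ≥ 0`.) -/
theorem abs_mix_le {φ w : (Fin 2 → ℂ) → ℝ} {z : Fin 2 → ℂ} {C : ℝ} (hw : ContDiffAt ℝ 2 w z)
    (hL : ∀ b, 0 ≤ D2 w b b z + D2 w (Complex.I • b) (Complex.I • b) z)
    (hA' : |hA φ z| ≤ C) (hB' : |hB φ z| ≤ C) (hC' : |hC φ z| ≤ C) (hE' : |hE φ z| ≤ C) :
    |mix φ w z| ≤ 3 * C * (hA w z + hB w z) := by
  have hq := lev hw hL
  set A := hA w z with hAd
  set B := hB w z with hBd
  set c := hC w z with hcd
  set e := hE w z with hed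
  have hA0 : 0 ≤ A := by have := hq 1 0 0; nlinarith
  have hB0 : 0 ≤ B := by have := hq 0 1 0; nlinarith
  have hC0 : 0 ≤ C := (abs_nonneg _).trans hA'
  -- the determinant
  have hdet : c ^ 2 + e ^ 2 ≤ A * B := by
    set M := c ^ 2 + e ^ 2 with hM
    have hM0 : 0 ≤ M := by positivity
    have h1 : ∀ s t : ℝ, 0 ≤ s ^ 2 * A + t ^ 2 * M * B - 2 * s * t * M := by
      intro s t
      have := hq s (-t * c) (-t * e)
      have e1 : (-t * c) ^ 2 + (-t * e) ^ 2 = t ^ 2 * M := by rw [hM]; ring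
      rw [e1] at this
      have e2 : 2 * s * (-t * c) * c + 2 * s * (-t * e) * e = - (2 * s * t * M) := by rw [hM]; ring
      linarith
    rcases eq_or_lt_of_le hM0 with h0 | h0
    · rw [← h0]; positivity
    · rcases eq_or_lt_of_le hA0 with hA1 | hA1
      · -- A = 0
        exfalso
        have h2 := h1 ((B + 1)) 1
        rw [← hA1] at h2
        nlinarith
      · have h2 := h1 M A
        have h3 : 0 ≤ A * M * (A * B - M) := by nlinarith
        have h4 : 0 < A * M := by positivity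
        have := nonneg_of_mul_nonneg_right h3 h4
        linarith
  have hsum : |c| + |e| ≤ A + B := by
    refine (pow_le_pow_iff_left₀ (by positivity) (by positivity) two_ne_zero).mp ?_
    have h1 := sq_abs c
    have h2 := sq_abs e
    nlinarith [sq_nonneg (|c| - |e|), sq_nonneg (A - B)]
  unfold mix
  rw [← hAd, ← hBd, ← hcd, ← hed]
  have t1 : |hA φ z * B| ≤ C * B := by rw [abs_mul, abs_of_nonneg hB0]; gcongr
  have t2 : |hB φ z * A| ≤ C * A := by rw [abs_mul, abs_of_nonneg hA0]; gcongr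
  have t3 : |2 * hC φ z * c| ≤ 2 * C * |c| := by rw [abs_mul, abs_mul, abs_of_pos (by norm_num : (0:ℝ) < 2)]; gcongr
  have t4 : |2 * hE φ z * e| ≤ 2 * C * |e| := by rw [abs_mul, abs_mul, abs_of_pos (by norm_num : (0:ℝ) < 2)]; gcongr
  have h5 : |hA φ z * B + hB φ z * A - 2 * hC φ z * c - 2 * hE φ z * e| ≤ C * B + C * A + 2 * C * |c| + 2 * C * |e| := by
    calc |hA φ z * B + hB φ z * A - 2 * hC φ z * c - 2 * hE φ z * e| 
        ≤ |hA φ z * B + hB φ z * A - 2 * hC φ z * c| + |2 * hE φ z * e| := abs_sub _ _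
      _ ≤ |hA φ z * B + hB φ z * A| + |2 * hC φ z * c| + |2 * hE φ z * e| := by gcongr; exact abs_sub _ _
      _ ≤ |hA φ z * B| + |hB φ z * A| + |2 * hC φ z * c| + |2 * hE φ z * e| := by gcongr; exact abs_add_le _ _
      _ ≤ _ := by gcongr
  have h6 : C * (|c| + |e|) ≤ C * (A + B) := by gcongr
  nlinarith

end LibMA34
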