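import Mathlib

/-! Definitions for the Dirichlet problem of the complex Monge-Ampere equation. -/

namespace LibMA34

open Complex Filter Topology MeasureTheory
open scoped ContDiff

/-- The second directional derivative of `u` at `z` in the real directions `a`, `b`. -/
noncomputable def D2 {n : ℕ} (u : (Fin n → ℂ) → ℝ) (a b : Fin n → ℂ) (z : Fin n → ℂ) : ℝ :=
  fderiv ℝ (fun y => fderiv ℝ u y b) z a

/-- The `j`-th coordinate vector of `ℂⁿ`. -/
def ev {n : ℕ} (j : Fin n) : Fin n → ℂ := Pi.single j 1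

/-- The `j`-th coordinate vector of `ℂⁿ` multiplied by `i`. -/
def iev {n : ℕ} (j : Fin n) : Fin n → ℂ := Pi.single j Complex.I

/-- The complex Hessian `(∂²u / ∂z_j ∂z̄_k)`, for `z_j = x_j + i y_j`:
`4 u_{j k̄} = u_{x_j x_k} + u_{y_j y_k} + i (u_{x_j y_k} - u_{y_j x_k})`. -/
noncomputable def complexHessian {n : ℕ} (u : (Fin n → ℂ) → ℝ) (z : Fin n → ℂ) :
    Matrix (Fin n) (Fin n) ℂ :=
  Matrix.of fun j k =>
    (1 / 4 : ℂ) * (((D2 u (ev j) (ev k) z + D2 u (iev j) (iev k) z : ℝ) : ℂ)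
      + Complex.I * ((D2 u (ev j) (iev k) z - D2 u (iev j) (ev k) z : ℝ) : ℂ))

/-- The Monge-Ampere density `det (∂²u / ∂z_j ∂z̄_k)` of a function of class `C²`. -/
noncomputable def maDensity {n : ℕ} (u : (Fin n → ℂ) → ℝ) (z : Fin n → ℂ) : ℝ :=
  (complexHessian u z).det.re

/-- Continuous plurisubharmonic functions on an open set `Ω`: continuous real-valued functions with
the submean value inequality on every closed complex disc contained in `Ω`. -/
def PshOn {n : ℕ} (Ω : Set (Fin n → ℂ)) (u : (Fin n → ℂ) → ℝ) : Prop :=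
  ContinuousOn u Ω ∧
    ∀ a b : Fin n → ℂ, (∀ ζ : ℂ, ‖ζ‖ ≤ 1 → a + ζ • b ∈ Ω) →
      u a ≤ Real.circleAverage (fun ζ : ℂ => u (a + ζ • b)) 0 1

/-- A set is hyperconvex if it has a negative continuous plurisubharmonic exhaustion function. -/
def IsHyperconvex {n : ℕ} (Ω : Set (Fin n → ℂ)) : Prop :=
  ∃ ρ : (Fin n → ℂ) → ℝ, PshOn Ω ρ ∧ (∀ z ∈ Ω, ρ z < 0) ∧
    ∀ c < 0, ∃ K : Set (Fin n → ℂ), IsCompact K ∧ K ⊆ Ω ∧ ∀ z ∈ Ω, ρ z < c → z ∈ K

/-- The functions `v j` are smooth and plurisubharmonic on the open set `W` and converge to `u`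
locally uniformly on `W`. -/
def SmoothPshApprox {n : ℕ} (W : Set (Fin n → ℂ)) (v : ℕ → (Fin n → ℂ) → ℝ)
    (u : (Fin n → ℂ) → ℝ) : Prop :=
  (∀ j, ContDiffOn ℝ ∞ (v j) W ∧ PshOn W (v j)) ∧ TendstoLocallyUniformlyOn v u atTop W

/-- The equation `(dd^c u)ⁿ = f dV` in the sense of Bedford and Taylor for a continuous
plurisubharmonic function `u`, normalised so that for `u` of class `C²` it reads
`det (∂²u / ∂z_j ∂z̄_k) = f`. The measure `(dd^c u)ⁿ` is the weak limit of the measures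
`det (∂²v_j / ∂z_j ∂z̄_k) dV`, for every sequence of smooth plurisubharmonic functions `v_j`
converging locally uniformly to `u`; such sequences exist on every relatively compact open set. -/
def HasMongeAmpere {n : ℕ} (Ω : Set (Fin n → ℂ)) (u f : (Fin n → ℂ) → ℝ) : Prop :=
  ∀ W : Set (Fin n → ℂ), IsOpen W → IsCompact (closure W) → closure W ⊆ Ω →
    (∃ v, SmoothPshApprox W v u) ∧
    ∀ v, SmoothPshApprox W v u →
      ∀ φ : (Fin n → ℂ) → ℝ, ContDiff ℝ ∞ φ → HasCompactSupport φ → tsupport φ ⊆ W →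
        Tendsto (fun j => ∫ z, φ z * maDensity (v j) z) atTop (𝓝 (∫ z, φ z * f z))

end LibMA34
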