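import Pool.Agent.LibMA34.UCont

namespace LibMA34

open Filter Topology

namespace DomAAux

theorem Ud_zero_eq (p : Fin 2 → ℂ) :
    Ud 0 p = Phi (‖p 0 * p 1‖ ^ 2) (Real.log ‖p 1‖) + Real.log ‖p 1‖ / 4 := by
  rw [Ud, add_zero]

theorem norm_pos_of_mem {p : Fin 2 → ℂ} (hp : p ∈ VV) : 0 < ‖p 1‖ :=
  norm_pos_iff.2 (log_of_mem_VV hp).2

theorem log_lt_of_Ud {p : Fin 2 → ℂ} (hp : p ∈ VV) {c : ℝ} (hc : Ud 0 p ≤ c) :
    Real.log ‖p 1‖ ≤ 4 * c := by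
  have h1 := Phi_nonneg' (sq_nonneg ‖p 0 * p 1‖) (log_of_mem_VV hp).1
  rw [Ud_zero_eq] at hc
  linarith

theorem norm_le_of {p : Fin 2 → ℂ} (hp : p ∈ VV) (h1 : ‖p 0 * p 1‖ ≤ 1)
    (h2 : Ud 0 p ≤ 1 / 16) : ‖p‖ ≤ Real.exp 1 := by
  have hpos := norm_pos_of_mem hp
  rw [pi_norm_le_iff_of_nonneg (Real.exp_pos _).le]
  intro i
  fin_cases i
  · -- the first coordinate
    have hw : Real.exp (-1 / 2) < ‖p 1‖ := hp
    rw [norm_mul] at h1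
    have h3 : ‖p 0‖ * Real.exp (-1 / 2) ≤ 1 :=
      (mul_le_mul_of_nonneg_left hw.le (norm_nonneg _)).trans h1
    have h4 : ‖p 0‖ ≤ Real.exp (1 / 2) := by
      have h5 : ‖p 0‖ = ‖p 0‖ * Real.exp (-1 / 2) * Real.exp (1 / 2) := by
        rw [mul_assoc, ← Real.exp_add]
        norm_num
      rw [h5]
      exact mul_le_of_le_one_left (Real.exp_pos _).le h3
    exact h4.trans (Real.exp_le_exp.2 (by norm_num))
  · have h3 := log_lt_of_Ud hp h2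
    have h4 : Real.log ‖p 1‖ ≤ 1 := by linarith
    exact (Real.log_le_iff_le_exp hpos).1 h4

theorem continuous_mul01 : Continuous (fun p : Fin 2 → ℂ => ‖p 0 * p 1‖) :=
  ((continuous_apply 0).mul (continuous_apply 1)).norm

end DomAAux

open DomAAux

theorem Om_isOpen : IsOpen Om := by
  have h1 : IsOpen (VV ∩ Ud 0 ⁻¹' Set.Iio (1 / 16)) :=
    (Ud_continuousOn le_rfl).isOpen_inter_preimage VV_isOpen isOpen_Iio
  have h2 : IsOpen {p : Fin 2 → ℂ | ‖p 0 * p 1‖ < 1} :=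
    isOpen_lt continuous_mul01 continuous_const
  have h3 : Om = (VV ∩ Ud 0 ⁻¹' Set.Iio (1 / 16)) ∩ {p : Fin 2 → ℂ | ‖p 0 * p 1‖ < 1} := by
    ext p
    constructor
    · rintro ⟨a, b, c⟩
      exact ⟨⟨a, c⟩, b⟩
    · rintro ⟨⟨a, c⟩, b⟩
      exact ⟨a, b, c⟩
  rw [h3]
  exact h1.inter h2

theorem Om_bounded : Bornology.IsBounded Om := by
  rw [isBounded_iff_forall_norm_le]
  exact ⟨Real.exp 1, fun p hp => norm_le_of hp.1 hp.2.1.le hp.2.2.le⟩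

/-- The sublevel sets of `U` in `Om` are relatively compact in `Om`. For `c < 1/16` the set
`{-13/28 ≤ log|w|, |zw| ≤ 1, U ≤ c}` is compact and contained in `Om`, because
`U ≥ -2x - 3/4 + x/4 ≥ 1/16` for `-1/2 < x ≤ -13/28` and `U ≥ 1 - 1/8` for `|zw| = 1`. -/
theorem Om_exhaust {c : ℝ} (hc : c < 1 / 16) :
    ∃ K : Set (Fin 2 → ℂ), IsCompact K ∧ K ⊆ Om ∧ ∀ p ∈ Om, Ud 0 p < c → p ∈ K := by
  have hK0 : IsClosed {p : Fin 2 → ℂ | Real.exp (-13 / 28) ≤ ‖p 1‖ ∧ ‖p 0 * p 1‖ ≤ 1} :=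
    (isClosed_le continuous_const (continuous_apply 1).norm).inter
      (isClosed_le continuous_mul01 continuous_const)
  have hVV : {p : Fin 2 → ℂ | Real.exp (-13 / 28) ≤ ‖p 1‖ ∧ ‖p 0 * p 1‖ ≤ 1} ⊆ VV := by
    rintro p ⟨h1, -⟩
    exact lt_of_lt_of_le (Real.exp_lt_exp.2 (by norm_num)) h1
  refine ⟨{p : Fin 2 → ℂ | Real.exp (-13 / 28) ≤ ‖p 1‖ ∧ ‖p 0 * p 1‖ ≤ 1} ∩
    Ud 0 ⁻¹' Set.Iic c, ?_, ?_, ?_⟩
  · apply Metric.isCompact_of_isClosed_isBounded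
    · exact ((Ud_continuousOn le_rfl).mono hVV).preimage_isClosed_of_isClosed hK0 isClosed_Iic
    · rw [isBounded_iff_forall_norm_le]
      refine ⟨Real.exp 1, fun p hp => norm_le_of (hVV hp.1) hp.1.2 ?_⟩
      have h3 : Ud 0 p ≤ c := hp.2
      linarith
  · rintro p ⟨⟨h1, h2⟩, h3⟩
    have hp : p ∈ VV := hVV ⟨h1, h2⟩
    have h3' : Ud 0 p ≤ c := h3
    refine ⟨hp, lt_of_le_of_ne h2 fun h4 => ?_, by linarith⟩
    rw [Ud_zero_eq, h4, one_pow] at h3'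
    have h5 := (log_of_mem_VV hp).1
    have h6 := one_le_Phi_one h5
    linarith
  · rintro p ⟨h1, h2, -⟩ h4
    refine ⟨⟨?_, h2.le⟩, h4.le⟩
    by_contra h5
    rw [not_le] at h5
    have hpos := norm_pos_of_mem h1
    have h6 : Real.log ‖p 1‖ < -13 / 28 := (Real.log_lt_iff_lt_exp hpos).2 h5
    have h7 := Phi_ge_lin' (sq_nonneg ‖p 0 * p 1‖) (log_of_mem_VV h1).1
    rw [Ud_zero_eq] at h4
    linarith

end LibMA34
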