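import Pool.Agent.LibMA34.UCont

namespace LibMA34

open Filter Topology

/-- the interval of admissible `x` on the axis `z = 0` -/
def domB_J : Set ℝ := {x | x ∈ Set.Ioi (-1 / 2 : ℝ) ∧ Phi 0 x + (1 / 4 : ℝ) * x < 1 / 16}

theorem domB_J_convex : Convex ℝ domB_J := by
  have h1 : ConvexOn ℝ (Set.Ioi (-1 / 2 : ℝ)) (fun x : ℝ => (1 / 4 : ℝ) * x) := by
    have := (convexOn_id (convex_Ioi (-1 / 2 : ℝ))).smul (by norm_num : (0 : ℝ) ≤ 1 / 4)
    exact this
  exact (Phi_zero_convexOn.add h1).convex_lt (1 / 16)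

/-- the axis `z = 0` -/
noncomputable def domB_f (q : ℝ × ℝ) : Fin 2 → ℂ := ![0, Complex.exp (q.1 + q.2 * Complex.I)]

theorem domB_f_continuous : Continuous domB_f := by
  unfold domB_f
  apply continuous_pi
  intro i
  fin_cases i
  · exact continuous_const
  · show Continuous fun q : ℝ × ℝ => Complex.exp (q.1 + q.2 * Complex.I)
    fun_prop

theorem domB_Ud_zero (w : ℂ) : Ud 0 ![0, w] = Phi 0 (Real.log ‖w‖) + Real.log ‖w‖ / 4 := by
  unfold Ud
  simp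

theorem domB_axis_mem {x θ : ℝ} (hx : x ∈ domB_J) : domB_f (x, θ) ∈ Om := by
  obtain ⟨h1, h2⟩ := hx
  have hn : ‖Complex.exp ((x : ℂ) + θ * Complex.I)‖ = Real.exp x := by
    rw [Complex.norm_exp]
    simp
  refine ⟨?_, ?_, ?_⟩
  · show Real.exp (-1 / 2) < ‖Complex.exp ((x : ℂ) + θ * Complex.I)‖
    rw [hn]
    exact Real.exp_lt_exp.2 h1
  · show ‖(0 : ℂ) * _‖ < 1
    rw [zero_mul, norm_zero]
    exact one_pos
  · unfold domB_f
    rw [domB_Ud_zero]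
    simp only
    rw [hn, Real.log_exp]
    linarith

theorem domB_log_mem {p : Fin 2 → ℂ} (hp : p ∈ Om) : Real.log ‖p 1‖ ∈ domB_J := by
  obtain ⟨h1, h2, h3⟩ := hp
  have h4 := (log_of_mem_VV h1).1
  refine ⟨h4, ?_⟩
  unfold Ud at h3
  rw [add_zero] at h3
  have h5 := Phi_zero_le (sq_nonneg ‖p 0 * p 1‖) h4
  linarith

theorem domB_axis_eq {w : ℂ} (hw : w ≠ 0) : domB_f (Real.log ‖w‖, w.arg) = ![0, w] := by
  unfold domB_f
  simp only
  rw [Complex.exp_add, ← Complex.ofReal_exp, Real.exp_log (norm_pos_iff.2 hw),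
    Complex.norm_mul_exp_arg_mul_I]

/-- `Om` is connected: `Phi` is nondecreasing in `ρ`, so every point `(z,w)` of `Om` is joined to
`(0,w)` inside `Om`; the set of `(0,w)` in `Om` is the image of an interval (convexity of
`x ↦ Phi 0 x + x/4`) times the circle. -/
theorem Om_isConnected : IsConnected Om := by
  have h0J : (0 : ℝ) ∈ domB_J := by
    refine ⟨?_, ?_⟩
    · show (-1 / 2 : ℝ) < 0
      norm_num
    · rw [Phi_zero_of_nonneg le_rfl]
      norm_num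
  have hC0 : IsPreconnected (domB_f '' (domB_J ×ˢ (Set.univ : Set ℝ))) :=
    ((domB_J_convex.prod convex_univ).isPreconnected).image _ domB_f_continuous.continuousOn
  have hC0sub : domB_f '' (domB_J ×ˢ (Set.univ : Set ℝ)) ⊆ Om := by
    rintro _ ⟨⟨x, θ⟩, ⟨hx, -⟩, rfl⟩
    exact domB_axis_mem hx
  have hbase : domB_f (0, 0) ∈ domB_f '' (domB_J ×ˢ (Set.univ : Set ℝ)) :=
    ⟨(0, 0), ⟨h0J, Set.mem_univ _⟩, rfl⟩
  refine ⟨⟨_, hC0sub hbase⟩, ?_⟩
  apply isPreconnected_of_forall (domB_f (0, 0))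
  intro y hy
  have hyV := hy.1
  have hx := domB_log_mem hy
  have hlog := (log_of_mem_VV hyV).1
  have hw0 := (log_of_mem_VV hyV).2
  set seg : ℝ → (Fin 2 → ℂ) := fun t => ![(t : ℂ) * y 0, y 1] with hseg
  have hsegc : Continuous seg := by
    apply continuous_pi
    intro i
    fin_cases i
    · show Continuous fun t : ℝ => (t : ℂ) * y 0
      fun_prop
    · show Continuous fun _ : ℝ => y 1
      exact continuous_const
  have hS : IsPreconnected (seg '' Set.Icc 0 1) :=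
    isPreconnected_Icc.image _ hsegc.continuousOn
  have hSsub : seg '' Set.Icc 0 1 ⊆ Om := by
    rintro _ ⟨t, ht, rfl⟩
    have hle : ‖(t : ℂ) * y 0 * y 1‖ ≤ ‖y 0 * y 1‖ := by
      rw [mul_assoc, norm_mul, Complex.norm_real, Real.norm_of_nonneg ht.1]
      exact mul_le_of_le_one_left (norm_nonneg _) ht.2
    refine ⟨hyV, ?_, ?_⟩
    · exact hle.trans_lt hy.2.1
    · have h1 := hy.2.2
      unfold Ud at h1 ⊢
      rw [add_zero] at h1 ⊢
      have h2 : Phi (‖(t : ℂ) * y 0 * y 1‖ ^ 2) (Real.log ‖y 1‖) ≤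
          Phi (‖y 0 * y 1‖ ^ 2) (Real.log ‖y 1‖) :=
        Phi_mono' (sq_nonneg _) (pow_le_pow_left₀ (norm_nonneg _) hle 2) hlog
      show Phi (‖(t : ℂ) * y 0 * y 1‖ ^ 2) (Real.log ‖y 1‖) + Real.log ‖y 1‖ / 4 < 1 / 16
      linarith
  refine ⟨seg '' Set.Icc 0 1 ∪ domB_f '' (domB_J ×ˢ (Set.univ : Set ℝ)),
    Set.union_subset hSsub hC0sub, Or.inr hbase, Or.inl ⟨1, ⟨zero_le_one, le_rfl⟩, ?_⟩, ?_⟩
  · funext i
    rw [hseg]
    fin_cases i <;> simp
  · have hm1 : (![0, y 1] : Fin 2 → ℂ) ∈ seg '' Set.Icc 0 1 :=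
      ⟨0, ⟨le_rfl, zero_le_one⟩, by rw [hseg]; simp⟩
    have hm2 : (![0, y 1] : Fin 2 → ℂ) ∈ domB_f '' (domB_J ×ˢ (Set.univ : Set ℝ)) :=
      ⟨(Real.log ‖y 1‖, (y 1).arg), ⟨hx, Set.mem_univ _⟩, domB_axis_eq hw0⟩
    exact IsPreconnected.union _ hm1 hm2 hS hC0

end LibMA34
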