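import Pool.Agent.LibMA34.Defs

/-! The concrete functions of the counterexample. -/

namespace LibMA34

/-- The function `G(ρ,k) = ρ e^k (k-1) - e^{-k} (k+1)`. -/
noncomputable def G (ρ k : ℝ) : ℝ :=
  ρ * Real.exp k * (k - 1) - Real.exp (-k) * (k + 1)

/-- The function `F(ρ,k) = (ρ² e^{2k} (2k-1) + e^{-2k} (2k+1) + 4ρ) / 4`. -/
noncomputable def F (ρ k : ℝ) : ℝ :=
  (ρ ^ 2 * Real.exp (2 * k) * (2 * k - 1) + Real.exp (-(2 * k)) * (2 * k + 1) + 4 * ρ) / 4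

open Classical in
/-- The positive solution `k` of `G(ρ,k) = 2x` (junk value `0` if there is none). -/
noncomputable def kap (ρ x : ℝ) : ℝ :=
  if h : ∃ k, 0 < k ∧ G ρ k = 2 * x then h.choose else 0

/-- The potential: `F(ρ, kap(ρ,x))` for `ρ > 0`, and the limit as `ρ → 0+` for `ρ = 0`. -/
noncomputable def Phi (ρ x : ℝ) : ℝ :=
  if 0 < ρ then F ρ (kap ρ x) else ⨅ n : ℕ, F (1 / ((n : ℝ) + 1)) (kap (1 / ((n : ℝ) + 1)) x)

/-- The functions `U^δ`. -/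
noncomputable def Ud (δ : ℝ) (p : Fin 2 → ℂ) : ℝ :=
  Phi (‖p 0 * p 1‖ ^ 2 + δ) (Real.log ‖p 1‖) + Real.log ‖p 1‖ / 4

/-- The open set `{|w| > e^{-1/2}}`. -/
def VV : Set (Fin 2 → ℂ) := {p | Real.exp (-1 / 2) < ‖p 1‖}

/-- The domain. -/
def Om : Set (Fin 2 → ℂ) := {p | p ∈ VV ∧ ‖p 0 * p 1‖ < 1 ∧ Ud 0 p < 1 / 16}

/-- The value of `k` at the point `p`. -/
noncomputable def kk (δ : ℝ) (p : Fin 2 → ℂ) : ℝ :=
  kap (‖p 0 * p 1‖ ^ 2 + δ) (Real.log ‖p 1‖)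

end LibMA34
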