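import Pool.Agent.LibMA34.Fun

namespace LibMA34

open Filter Topology

theorem hasDerivAt_G (ρ k : ℝ) :
    HasDerivAt (G ρ) (k * (ρ * Real.exp k + Real.exp (-k))) k := by
  have h1 : HasDerivAt (fun k : ℝ => ρ * Real.exp k * (k - 1))
      (ρ * Real.exp k * (k - 1) + ρ * Real.exp k * 1) k :=
    ((Real.hasDerivAt_exp k).const_mul ρ).mul ((hasDerivAt_id k).sub_const 1)
  have h2 : HasDerivAt (fun k : ℝ => Real.exp (-k) * (k + 1))
      (Real.exp (-k) * (-1) * (k + 1) + Real.exp (-k) * 1) k :=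
    ((hasDerivAt_neg k).exp).mul ((hasDerivAt_id k).add_const 1)
  have h3 := h1.sub h2
  have e : ρ * Real.exp k * (k - 1) + ρ * Real.exp k * 1 -
      (Real.exp (-k) * (-1) * (k + 1) + Real.exp (-k) * 1) =
      k * (ρ * Real.exp k + Real.exp (-k)) := by ring
  rw [e] at h3
  exact h3

theorem G_strictMonoOn {ρ : ℝ} (hρ : 0 < ρ) : StrictMonoOn (G ρ) (Set.Ici 0) := by
  apply strictMonoOn_of_deriv_pos (convex_Ici 0)
  · exact fun k _ => (hasDerivAt_G ρ k).continuousAt.continuousWithinAt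
  · intro k hk
    rw [interior_Ici] at hk
    rw [(hasDerivAt_G ρ k).deriv]
    have : 0 < k := hk
    positivity

theorem G_zero (ρ : ℝ) : G ρ 0 = -ρ - 1 := by
  simp [G]

theorem exists_kap {ρ x : ℝ} (hρ : 0 < ρ) (hx : -1 / 2 < x) : ∃ k, 0 < k ∧ G ρ k = 2 * x := by
  -- a large value
  have hcont : Continuous (G ρ) := continuous_iff_continuousAt.mpr fun k =>
    (hasDerivAt_G ρ k).continuousAt
  set K : ℝ := 2 + (2 * |x| + 2) / ρ with hK
  have hK2 : 2 ≤ K := by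
    have : 0 ≤ (2 * |x| + 2) / ρ := by positivity
    linarith
  have h1 : 2 * x ≤ G ρ K := by
    unfold G
    have e1 : 1 ≤ K - 1 := by linarith
    have e2 : K ≤ Real.exp K := by linarith [Real.add_one_le_exp K]
    have e3 : Real.exp (-K) * (K + 1) ≤ 1 := by
      have := Real.add_one_le_exp K
      rw [Real.exp_neg, inv_mul_le_iff₀ (Real.exp_pos K)]
      linarith
    have e4 : 2 * |x| + 2 ≤ ρ * K := by
      have : ρ * K = ρ * 2 + (2 * |x| + 2) := by
        rw [hK]; field_simp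
      rw [this]; nlinarith
    have e5 : ρ * K ≤ ρ * Real.exp K * (K - 1) := by
      have : ρ * K ≤ ρ * Real.exp K := mul_le_mul_of_nonneg_left e2 hρ.le
      have h' : 0 ≤ ρ * Real.exp K := by positivity
      nlinarith
    have := le_abs_self x
    linarith
  have h0 : G ρ 0 ≤ 2 * x := by rw [G_zero]; linarith
  obtain ⟨k, hk, hkx⟩ := intermediate_value_Icc (by linarith : (0 : ℝ) ≤ K) hcont.continuousOn
    ⟨h0, h1⟩
  refine ⟨k, lt_of_le_of_ne hk.1 ?_, hkx⟩
  rintro rfl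
  rw [G_zero] at hkx
  linarith

theorem kap_pos {ρ x : ℝ} (hρ : 0 < ρ) (hx : -1 / 2 < x) : 0 < kap ρ x := by
  have h := exists_kap hρ hx
  unfold kap
  rw [dif_pos h]
  exact h.choose_spec.1

theorem G_kap {ρ x : ℝ} (hρ : 0 < ρ) (hx : -1 / 2 < x) : G ρ (kap ρ x) = 2 * x := by
  have h := exists_kap hρ hx
  unfold kap
  rw [dif_pos h]
  exact h.choose_spec.2

theorem kap_eq {ρ x k : ℝ} (hρ : 0 < ρ) (hk : 0 < k) (h : G ρ k = 2 * x) : kap ρ x = k := by
  have h' : ∃ k, 0 < k ∧ G ρ k = 2 * x := ⟨k, hk, h⟩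
  unfold kap
  rw [dif_pos h']
  have h1 := h'.choose_spec
  exact (G_strictMonoOn hρ).injOn (Set.mem_Ici.mpr h1.1.le) (Set.mem_Ici.mpr hk.le)
    (h1.2.trans h.symm)

theorem Phi_pos_eq {ρ : ℝ} (hρ : 0 < ρ) (x : ℝ) : Phi ρ x = F ρ (kap ρ x) := by
  simp [Phi, hρ]

end LibMA34
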