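import Pool.Agent.LibMA34.KapSmooth

namespace LibMA34

open scoped Topology
open Filter

theorem differentiableAt_kap_curve {N X : ℝ → ℝ} {N' X' s : ℝ} (hN : HasDerivAt N N' s)
    (hX : HasDerivAt X X' s) (h1 : 0 < N s) (h2 : -1 / 2 < X s) :
    DifferentiableAt ℝ (fun t => kap (N t) (X t)) s := by
  have hk : DifferentiableAt ℝ (fun q : ℝ × ℝ => kap q.1 q.2) (N s, X s) :=
    (kap_contDiffAt h1 h2).differentiableAt (by simp)
  have hc : DifferentiableAt ℝ (fun t => (N t, X t)) s :=
    hN.differentiableAt.prodMk hX.differentiableAt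
  exact DifferentiableAt.comp (g := fun q : ℝ × ℝ => kap q.1 q.2) s hk hc

/-- Derivative of `kap` along a curve. -/
theorem hasDerivAt_kap {N X : ℝ → ℝ} {N' X' s : ℝ} (hN : HasDerivAt N N' s)
    (hX : HasDerivAt X X' s) (h1 : 0 < N s) (h2 : -1 / 2 < X s) :
    HasDerivAt (fun t => kap (N t) (X t))
      ((2 * X' - Real.exp (kap (N s) (X s)) * (kap (N s) (X s) - 1) * N') /
        (kap (N s) (X s) * (N s * Real.exp (kap (N s) (X s)) + Real.exp (-(kap (N s) (X s)))))) s := by
  have hd := (differentiableAt_kap_curve hN hX h1 h2).hasDerivAt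
  set K : ℝ → ℝ := fun t => kap (N t) (X t) with hK
  set K' := deriv K s with hK'
  have hev1 : ∀ᶠ t in 𝓝 s, 0 < N t := hN.continuousAt.eventually (lt_mem_nhds h1)
  have hev2 : ∀ᶠ t in 𝓝 s, -1 / 2 < X t := hX.continuousAt.eventually (lt_mem_nhds h2)
  have hev : (fun t => G (N t) (K t)) =ᶠ[𝓝 s] fun t => 2 * X t := by
    filter_upwards [hev1, hev2] with t ht1 ht2
    exact G_kap ht1 ht2
  have hd1 : HasDerivAt (fun t => G (N t) (K t))
      ((N' * Real.exp (K s) + N s * (Real.exp (K s) * K')) * (K s - 1) +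
        N s * Real.exp (K s) * K' -
        (Real.exp (-(K s)) * (-K') * (K s + 1) + Real.exp (-(K s)) * K')) s := by
    unfold G
    exact ((hN.mul hd.exp).mul (hd.sub_const 1)).sub (hd.neg.exp.mul (hd.add_const 1))
  have hd2 : HasDerivAt (fun t => G (N t) (K t)) (2 * X') s :=
    (hX.const_mul 2).congr_of_eventuallyEq hev
  have heq := hd1.unique hd2
  have hkpos : 0 < K s := kap_pos h1 h2
  have hden : 0 < K s * (N s * Real.exp (K s) + Real.exp (-(K s))) := by
    have := Real.exp_pos (K s)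
    have := Real.exp_pos (-(K s))
    positivity
  have hval : K' = (2 * X' - Real.exp (K s) * (K s - 1) * N') /
      (K s * (N s * Real.exp (K s) + Real.exp (-(K s)))) := by
    rw [eq_div_iff hden.ne']
    linear_combination heq
  rw [hval] at hd
  exact hd

/-- Derivative of `Phi` along a curve. -/
theorem hasDerivAt_Phi {N X : ℝ → ℝ} {N' X' s : ℝ} (hN : HasDerivAt N N' s)
    (hX : HasDerivAt X X' s) (h1 : 0 < N s) (h2 : -1 / 2 < X s) :
    HasDerivAt (fun t => Phi (N t) (X t))
      ((N s * Real.exp (2 * kap (N s) (X s)) / 2 + kap (N s) (X s)) * N' +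
        2 * (N s * Real.exp (kap (N s) (X s)) - Real.exp (-(kap (N s) (X s)))) * X') s := by
  have hd := hasDerivAt_kap hN hX h1 h2
  set K : ℝ → ℝ := fun t => kap (N t) (X t) with hK
  have hKs : kap (N s) (X s) = K s := rfl
  rw [hKs] at hd ⊢
  have hev1 : ∀ᶠ t in 𝓝 s, 0 < N t := hN.continuousAt.eventually (lt_mem_nhds h1)
  have hev : (fun t => Phi (N t) (X t)) =ᶠ[𝓝 s] fun t => F (N t) (K t) := by
    filter_upwards [hev1] with t ht1
    exact Phi_pos_eq ht1 (X t)
  have hkpos : 0 < K s := kap_pos h1 h2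
  set E := Real.exp (K s) with hE
  set E' := Real.exp (-(K s)) with hE'
  have hEE : E * E' = 1 := by rw [hE, hE', ← Real.exp_add]; simp
  have hE2 : Real.exp (2 * K s) = E ^ 2 := by
    rw [hE, ← Real.exp_nat_mul]; norm_num
  have hE2' : Real.exp (-(2 * K s)) = E' ^ 2 := by
    rw [hE', ← Real.exp_nat_mul]; congr 1; push_cast; ring
  have hEpos : 0 < E := Real.exp_pos _
  have hEpos' : 0 < E' := Real.exp_pos _
  have hden : 0 < K s * (N s * E + E') := by positivity
  set K' := (2 * X' - E * (K s - 1) * N') / (K s * (N s * E + E')) with hK'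
  have hKden : K' * (K s * (N s * E + E')) = 2 * X' - E * (K s - 1) * N' := by
    rw [hK', div_mul_cancel₀ _ hden.ne']
  have hdF : HasDerivAt (fun t => F (N t) (K t))
      (((2 * N s * N' * Real.exp (2 * K s) + N s ^ 2 * (Real.exp (2 * K s) * (2 * K'))) *
          (2 * K s - 1) + N s ^ 2 * Real.exp (2 * K s) * (2 * K') +
        (Real.exp (-(2 * K s)) * (-(2 * K')) * (2 * K s + 1) + Real.exp (-(2 * K s)) * (2 * K')) +
        4 * N') / 4) s := by
    unfold F
    have a1 : HasDerivAt (fun t => N t ^ 2) (2 * N s * N') s := by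
      have := hN.mul hN
      refine (this.congr_of_eventuallyEq (Eventually.of_forall fun t => ?_)).congr_deriv ?_
      · simp [sq]
      · ring
    have a2 := hd.const_mul 2
    have a3 := ((((a1.mul a2.exp).mul (a2.sub_const 1)).add
      (a2.neg.exp.mul (a2.add_const 1))).add (hN.const_mul 4)).div_const 4
    exact a3
  refine (hdF.congr_of_eventuallyEq hev).congr_deriv ?_
  rw [hE2, hE2']
  have e1 : (N s * E - E') * (2 * X' - E * (K s - 1) * N') =
      K' * K s * (N s ^ 2 * E ^ 2 - E' ^ 2) := by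
    rw [← hKden]; ring
  linear_combination (-1 : ℝ) * e1 + ((K s - 1) * N') * hEE

end LibMA34
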