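import Pool.Agent.LibMA34.KapA

namespace LibMA34

open scoped ContDiff Topology
open Filter

/-- The map `(ρ,k) ↦ (ρ, G(ρ,k)/2)`. -/
noncomputable def TG (q : ℝ × ℝ) : ℝ × ℝ := (q.1, G q.1 q.2 / 2)

theorem TG_contDiff : ContDiff ℝ ∞ TG := by
  unfold TG G
  refine ContDiff.prodMk contDiff_fst ?_
  refine ContDiff.div_const (ContDiff.sub ?_ ?_) 2
  · exact (contDiff_fst.mul contDiff_snd.exp).mul (contDiff_snd.sub contDiff_const)
  · exact (contDiff_snd.neg.exp).mul (contDiff_snd.add contDiff_const)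

/-- The derivative of `TG` as a linear equivalence. -/
noncomputable def TGe (a b : ℝ) (hb : b ≠ 0) : (ℝ × ℝ) ≃L[ℝ] (ℝ × ℝ) :=
  ContinuousLinearEquiv.equivOfInverse
    ((ContinuousLinearMap.fst ℝ ℝ ℝ).prod
      (a • ContinuousLinearMap.fst ℝ ℝ ℝ + b • ContinuousLinearMap.snd ℝ ℝ ℝ))
    ((ContinuousLinearMap.fst ℝ ℝ ℝ).prod
      ((-a / b) • ContinuousLinearMap.fst ℝ ℝ ℝ + (1 / b) • ContinuousLinearMap.snd ℝ ℝ ℝ))
    (by
      intro q
      ext
      · simp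
      · simp; field_simp; ring)
    (by
      intro q
      ext
      · simp
      · simp; field_simp; ring)

theorem TG_hasFDerivAt (ρ k : ℝ)
    (hb : k * (ρ * Real.exp k + Real.exp (-k)) / 2 ≠ 0) :
    HasFDerivAt TG
      ((TGe (Real.exp k * (k - 1) / 2) (k * (ρ * Real.exp k + Real.exp (-k)) / 2) hb :
        (ℝ × ℝ) ≃L[ℝ] (ℝ × ℝ)) : (ℝ × ℝ) →L[ℝ] (ℝ × ℝ)) (ρ, k) := by
  have h1 : HasFDerivAt (fun q : ℝ × ℝ => q.1) (ContinuousLinearMap.fst ℝ ℝ ℝ) (ρ, k) :=
    hasFDerivAt_fst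
  have h2 : HasFDerivAt (fun q : ℝ × ℝ => q.2) (ContinuousLinearMap.snd ℝ ℝ ℝ) (ρ, k) :=
    hasFDerivAt_snd
  have h3 := ((h1.mul h2.exp).mul (h2.sub_const 1)).sub (h2.neg.exp.mul (h2.add_const 1))
  have h4 : HasFDerivAt (fun q : ℝ × ℝ => G q.1 q.2 / 2)
      ((Real.exp k * (k - 1) / 2) • ContinuousLinearMap.fst ℝ ℝ ℝ +
        (k * (ρ * Real.exp k + Real.exp (-k)) / 2) • ContinuousLinearMap.snd ℝ ℝ ℝ) (ρ, k) := by
    have h5 := h3.mul_const (1 / 2 : ℝ)
    refine (h5.congr_fderiv ?_).congr_of_eventuallyEq ?_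
    · ext
      · simp; ring
      · simp; ring
    · refine Eventually.of_forall fun q => ?_
      simp [G]; ring
  exact h1.prodMk h4

/-- `kap` is smooth (inverse function theorem for `(ρ,k) ↦ (ρ, G(ρ,k)/2)`). -/
theorem kap_contDiffAt {ρ x : ℝ} (hρ : 0 < ρ) (hx : -1 / 2 < x) :
    ContDiffAt ℝ ∞ (fun q : ℝ × ℝ => kap q.1 q.2) (ρ, x) := by
  set k := kap ρ x with hk
  have hkpos : 0 < k := kap_pos hρ hx
  have hG : G ρ k = 2 * x := G_kap hρ hx
  have hb : k * (ρ * Real.exp k + Real.exp (-k)) / 2 ≠ 0 := by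
    have := Real.exp_pos k
    have := Real.exp_pos (-k)
    positivity
  have hc : ContDiffAt ℝ ∞ TG (ρ, k) := TG_contDiff.contDiffAt
  have hf' := TG_hasFDerivAt ρ k hb
  have hn : (∞ : WithTop ℕ∞) ≠ 0 := by simp
  have himg : TG (ρ, k) = (ρ, x) := by
    unfold TG; simp [hG]
  have hinv : ContDiffAt ℝ ∞ (hc.localInverse hf' hn) (ρ, x) := by
    have := hc.to_localInverse hf' hn
    rwa [himg] at this
  have hright : ∀ᶠ y in 𝓝 (ρ, x), TG (hc.localInverse hf' hn y) = y := by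
    have := (hc.hasStrictFDerivAt' hf' hn).eventually_right_inverse
    rw [himg] at this
    exact this
  have hval : hc.localInverse hf' hn (ρ, x) = (ρ, k) := by
    have := hc.localInverse_apply_image hf' hn
    rwa [himg] at this
  have hpos2 : ∀ᶠ y in 𝓝 (ρ, x), 0 < (hc.localInverse hf' hn y).2 := by
    have hcont : ContinuousAt (fun y => (hc.localInverse hf' hn y).2) (ρ, x) :=
      continuous_snd.continuousAt.comp hinv.continuousAt
    have : 0 < (hc.localInverse hf' hn (ρ, x)).2 := by rw [hval]; exact hkpos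
    exact hcont.eventually (lt_mem_nhds this)
  have hpos1 : ∀ᶠ y : ℝ × ℝ in 𝓝 (ρ, x), 0 < y.1 :=
    continuous_fst.continuousAt.eventually (lt_mem_nhds (show (0 : ℝ) < (ρ, x).1 from hρ))
  have hsnd : ContDiffAt ℝ ∞ (fun y => (hc.localInverse hf' hn y).2) (ρ, x) :=
    contDiff_snd.contDiffAt.comp _ hinv
  refine hsnd.congr_of_eventuallyEq ?_
  filter_upwards [hright, hpos1, hpos2] with y h1 h2 h3
  have e1 : (TG (hc.localInverse hf' hn y)).1 = y.1 := congrArg Prod.fst h1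
  have e2 : (TG (hc.localInverse hf' hn y)).2 = y.2 := congrArg Prod.snd h1
  have e1 : (hc.localInverse hf' hn y).1 = y.1 := e1
  have e2 : G (hc.localInverse hf' hn y).1 (hc.localInverse hf' hn y).2 / 2 = y.2 := e2
  rw [e1] at e2
  exact kap_eq h2 h3 (by linarith)

end LibMA34
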