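import Pool.Agent.LibMA34.NullLag
import Pool.Agent.LibMA34.MAform

namespace LibMA34

open MeasureTheory
open scoped ContDiff

/-- The polarised Monge-Ampere density (times 16): `hA hB - hC² - hE²` polarised. -/
noncomputable def mix (g w : (Fin 2 → ℂ) → ℝ) (z : Fin 2 → ℂ) : ℝ :=
  hA g z * hB w z + hB g z * hA w z - 2 * hC g z * hC w z - 2 * hE g z * hE w z

theorem loc_two_le : (2 : WithTop ℕ∞) ≤ ∞ := WithTop.coe_le_coe.2 (le_top : (2 : ℕ∞) ≤ ⊤)

/-- `mix` is a sum of minors -/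
theorem loc_mix_eq {g w : (Fin 2 → ℂ) → ℝ} {z : Fin 2 → ℂ} (hg : ContDiffAt ℝ 2 g z)
    (hw : ContDiffAt ℝ 2 w z) :
    mix g w z = mnr g w (ev 0) (ev 1) (ev 0) (ev 1) z +
      mnr g w (ev 0) (iev 1) (ev 0) (iev 1) z +
      mnr g w (iev 0) (ev 1) (iev 0) (ev 1) z +
      mnr g w (iev 0) (iev 1) (iev 0) (iev 1) z -
      2 * mnr g w (ev 0) (iev 0) (ev 1) (iev 1) z := by
  unfold mix mnr hA hB hC hE
  rw [D2_symm hg (ev 1) (ev 0), D2_symm hw (ev 1) (ev 0), D2_symm hg (iev 1) (ev 0),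
    D2_symm hw (iev 1) (ev 0), D2_symm hg (ev 1) (iev 0), D2_symm hw (ev 1) (iev 0),
    D2_symm hg (iev 1) (iev 0), D2_symm hw (iev 1) (iev 0)]
  ring

/-- the second derivatives are local -/
theorem loc_D2_congr {n : ℕ} {u v : (Fin n → ℂ) → ℝ} {z : Fin n → ℂ}
    (h : u =ᶠ[nhds z] v) (a b : Fin n → ℂ) : D2 u a b z = D2 v a b z := by
  unfold D2
  have h1 : (fun y => fderiv ℝ u y b) =ᶠ[nhds z] (fun y => fderiv ℝ v y b) := by
    filter_upwards [h.fderiv (𝕜 := ℝ)] with y hy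
    rw [hy]
  rw [h1.fderiv_eq]

theorem loc_mix_congr {g g' w w' : (Fin 2 → ℂ) → ℝ} {z : Fin 2 → ℂ}
    (h : g =ᶠ[nhds z] g') (h' : w =ᶠ[nhds z] w') : mix g w z = mix g' w' z := by
  unfold mix hA hB hC hE
  simp only [loc_D2_congr h, loc_D2_congr h']

theorem loc_D2_zero {n : ℕ} (a b z : Fin n → ℂ) : D2 (fun _ : Fin n → ℂ => (0 : ℝ)) a b z = 0 := by
  unfold D2
  simp

theorem loc_mix_zero (w : (Fin 2 → ℂ) → ℝ) (z : Fin 2 → ℂ) : mix (fun _ => 0) w z = 0 := by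
  unfold mix hA hB hC hE
  simp only [loc_D2_zero]
  ring

/-- a cut-off function -/
theorem loc_cutoff {n : ℕ} {K W : Set (Fin n → ℂ)} (hK : IsCompact K) (hW : IsOpen W)
    (hKW : K ⊆ W) : ∃ χ : (Fin n → ℂ) → ℝ, ContDiff ℝ ∞ χ ∧ HasCompactSupport χ ∧
      tsupport χ ⊆ W ∧ ∀ z ∈ K, χ =ᶠ[nhds z] fun _ => 1 := by
  obtain ⟨L, hL, hKL, hLW⟩ := exists_compact_between hK hW hKW
  obtain ⟨f, h1, h0, -⟩ := exists_contMDiffMap_one_nhds_of_subset_interior
    (modelWithCornersSelf ℝ (Fin n → ℂ)) (n := ⊤) hK.isClosed hKL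
  have hsupp : Function.support (f : (Fin n → ℂ) → ℝ) ⊆ L := by
    intro z hz
    by_contra h
    exact hz (h0 z h)
  have hts : tsupport (f : (Fin n → ℂ) → ℝ) ⊆ L := closure_minimal hsupp hL.isClosed
  refine ⟨f, ?_, ?_, hts.trans hLW, ?_⟩
  · exact f.contMDiff.contDiff
  · exact HasCompactSupport.of_support_subset_isCompact hL hsupp
  · intro z hz
    exact (Filter.Eventually.filter_mono (nhds_le_nhdsSet hz) h1)

/-- a product with a cut-off function is smooth -/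
theorem loc_smooth_mul {n : ℕ} {W : Set (Fin n → ℂ)} (hW : IsOpen W) {χ g : (Fin n → ℂ) → ℝ}
    (hχ : ContDiff ℝ ∞ χ) (hχW : tsupport χ ⊆ W) (hg : ContDiffOn ℝ ∞ g W) :
    ContDiff ℝ ∞ (fun z => χ z * g z) := by
  rw [contDiff_iff_contDiffAt]
  intro z
  by_cases hz : z ∈ tsupport χ
  · exact hχ.contDiffAt.mul (hg.contDiffAt (hW.mem_nhds (hχW hz)))
  · have h1 : (fun z => χ z * g z) =ᶠ[nhds z] fun _ => 0 := by
      have h2 : χ =ᶠ[nhds z] 0 := notMem_tsupport_iff_eventuallyEq.1 hz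
      filter_upwards [h2] with y hy
      rw [hy]
      simp
    exact contDiffAt_const.congr_of_eventuallyEq h1

/-- Localised integration by parts: `∫ φ mix(g,w) = ∫ g mix(φ,w)` for `g`, `w` smooth on the open
set `W` and `φ` a test function with support in `W`. (Multiply `g`, `w` by a cut-off function equal
to `1` near `tsupport φ` and use that `mix` is the sum of the minors `mnr` for the vectors
`(e₀,e₁;e₀,e₁)`, `(e₀,ie₁;e₀,ie₁)`, `(ie₀,e₁;ie₀,e₁)`, `(ie₀,ie₁;ie₀,ie₁)` and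
`-2 (e₀,ie₀;e₁,ie₁)`.) -/
theorem integral_mix {W : Set (Fin 2 → ℂ)} (hW : IsOpen W) {g w φ : (Fin 2 → ℂ) → ℝ}
    (hg : ContDiffOn ℝ ∞ g W) (hw : ContDiffOn ℝ ∞ w W) (hφ : ContDiff ℝ ∞ φ)
    (hφc : HasCompactSupport φ) (hφs : tsupport φ ⊆ W) :
    ∫ z, φ z * mix g w z = ∫ z, g z * mix φ w z := by
  obtain ⟨χ, hχ, hχc, hχW, hχ1⟩ := loc_cutoff hφc hW hφs
  have hG := loc_smooth_mul hW hχ hχW hg
  have hWW := loc_smooth_mul hW hχ hχW hw
  have hGc : HasCompactSupport (fun z => χ z * g z) := hχc.mul_right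
  set g' : (Fin 2 → ℂ) → ℝ := fun z => χ z * g z with hg'
  set w' : (Fin 2 → ℂ) → ℝ := fun z => χ z * w z with hw'
  have hgg : ∀ z ∈ tsupport φ, g =ᶠ[nhds z] g' := by
    intro z hz
    filter_upwards [hχ1 z hz] with y hy
    rw [hg']
    simp only [hy, one_mul]
  have hww : ∀ z ∈ tsupport φ, w =ᶠ[nhds z] w' := by
    intro z hz
    filter_upwards [hχ1 z hz] with y hy
    rw [hw']
    simp only [hy, one_mul]
  have e1 : (∫ z, φ z * mix g w z) = ∫ z, φ z * mix g' w' z := by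
    apply integral_congr_ae
    filter_upwards with z
    by_cases hz : z ∈ tsupport φ
    · rw [loc_mix_congr (hgg z hz) (hww z hz)]
    · rw [image_eq_zero_of_notMem_tsupport hz, zero_mul, zero_mul]
  have e2 : (∫ z, g z * mix φ w z) = ∫ z, g' z * mix φ w' z := by
    apply integral_congr_ae
    filter_upwards with z
    by_cases hz : z ∈ tsupport φ
    · rw [loc_mix_congr (Filter.EventuallyEq.refl _ φ) (hww z hz), (hgg z hz).eq_of_nhds]
    · have h2 : φ =ᶠ[nhds z] fun _ => 0 := notMem_tsupport_iff_eventuallyEq.1 hz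
      rw [loc_mix_congr h2 (Filter.EventuallyEq.refl _ w),
        loc_mix_congr h2 (Filter.EventuallyEq.refl _ w'), loc_mix_zero, loc_mix_zero, mul_zero,
        mul_zero]
  have hmnr : ∀ (u : (Fin 2 → ℂ) → ℝ), ContDiff ℝ ∞ u → ∀ a b c d : Fin 2 → ℂ,
      Continuous (mnr u w' a b c d) := by
    intro u hu a b c d
    have hc : ∀ v : (Fin 2 → ℂ) → ℝ, ContDiff ℝ ∞ v → ∀ p q : Fin 2 → ℂ,
        Continuous (fun z => D2 v p q z) := by
      intro v hv p q
      exact (nl_smooth (nl_smooth hv q) p).continuous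
    unfold mnr
    exact ((((hc u hu a c).mul (hc w' hWW b d)).add ((hc u hu b d).mul (hc w' hWW a c))).sub
      ((hc u hu a d).mul (hc w' hWW b c))).sub ((hc u hu b c).mul (hc w' hWW a d))
  have i1 : ∀ (a b c d : Fin 2 → ℂ), Integrable (fun z => φ z * mnr g' w' a b c d z) := by
    intro a b c d
    apply Continuous.integrable_of_hasCompactSupport
    · exact hφ.continuous.mul (hmnr g' hG a b c d)
    · exact hφc.mul_right
  have i2 : ∀ (a b c d : Fin 2 → ℂ), Integrable (fun z => g' z * mnr φ w' a b c d z) := by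
    intro a b c d
    apply Continuous.integrable_of_hasCompactSupport
    · exact hG.continuous.mul (hmnr φ hφ a b c d)
    · exact hGc.mul_right
  have key : ∀ a b c d : Fin 2 → ℂ,
      ∫ z, φ z * mnr g' w' a b c d z = ∫ z, g' z * mnr φ w' a b c d z :=
    fun a b c d => integral_mnr hφ hφc hG hGc hWW a b c d
  have hsum : ∀ F1 F2 F3 F4 F5 : (Fin 2 → ℂ) → ℝ, Integrable F1 → Integrable F2 →
      Integrable F3 → Integrable F4 → Integrable F5 →
      ∫ z, (F1 z + F2 z + F3 z + F4 z - 2 * F5 z) =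
        (∫ z, F1 z) + (∫ z, F2 z) + (∫ z, F3 z) + (∫ z, F4 z) - 2 * ∫ z, F5 z := by
    intro F1 F2 F3 F4 F5 h1 h2 h3 h4 h5
    have h12 : Integrable (fun z => F1 z + F2 z) := h1.add h2
    have h123 : Integrable (fun z => F1 z + F2 z + F3 z) := h12.add h3
    have h1234 : Integrable (fun z => F1 z + F2 z + F3 z + F4 z) := h123.add h4
    have h55 : Integrable (fun z => 2 * F5 z) := h5.const_mul 2
    rw [integral_sub h1234 h55, integral_add h123 h4, integral_add h12 h3, integral_add h1 h2,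
      integral_const_mul]
  have e3 : (∫ z, φ z * mix g' w' z) =
      (∫ z, φ z * mnr g' w' (ev 0) (ev 1) (ev 0) (ev 1) z) +
      (∫ z, φ z * mnr g' w' (ev 0) (iev 1) (ev 0) (iev 1) z) +
      (∫ z, φ z * mnr g' w' (iev 0) (ev 1) (iev 0) (ev 1) z) +
      (∫ z, φ z * mnr g' w' (iev 0) (iev 1) (iev 0) (iev 1) z) -
      2 * ∫ z, φ z * mnr g' w' (ev 0) (iev 0) (ev 1) (iev 1) z := by
    rw [← hsum _ _ _ _ _ (i1 _ _ _ _) (i1 _ _ _ _) (i1 _ _ _ _) (i1 _ _ _ _) (i1 _ _ _ _)]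
    apply integral_congr_ae
    filter_upwards with z
    rw [loc_mix_eq (hG.contDiffAt.of_le loc_two_le) (hWW.contDiffAt.of_le loc_two_le)]
    ring
  have e4 : (∫ z, g' z * mix φ w' z) =
      (∫ z, g' z * mnr φ w' (ev 0) (ev 1) (ev 0) (ev 1) z) +
      (∫ z, g' z * mnr φ w' (ev 0) (iev 1) (ev 0) (iev 1) z) +
      (∫ z, g' z * mnr φ w' (iev 0) (ev 1) (iev 0) (ev 1) z) +
      (∫ z, g' z * mnr φ w' (iev 0) (iev 1) (iev 0) (iev 1) z) -
      2 * ∫ z, g' z * mnr φ w' (ev 0) (iev 0) (ev 1) (iev 1) z := by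
    rw [← hsum _ _ _ _ _ (i2 _ _ _ _) (i2 _ _ _ _) (i2 _ _ _ _) (i2 _ _ _ _) (i2 _ _ _ _)]
    apply integral_congr_ae
    filter_upwards with z
    rw [loc_mix_eq (hφ.contDiffAt.of_le loc_two_le) (hWW.contDiffAt.of_le loc_two_le)]
    ring
  rw [e1, e2, e3, e4, key, key, key, key, key]

end LibMA34
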