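import Pool.Agent.LibMA34.Loc

namespace LibMA34

open MeasureTheory
open scoped ContDiff

private lemma D2_contOn {n : ℕ} {u : (Fin n → ℂ) → ℝ} {W : Set (Fin n → ℂ)} (hW : IsOpen W) (hu : ContDiffOn ℝ ∞ u W)
    (a b : Fin n → ℂ) : ContinuousOn (fun z => D2 u a b z) W := by
  have h1 : ContDiffOn ℝ 1 (fderiv ℝ u) W := hu.fderiv_of_isOpen hW (by norm_cast)
  have h2 : ContDiffOn ℝ 1 (fun y => fderiv ℝ u y b) W := h1.clm_apply contDiffOn_const
  have h3 : ContDiffOn ℝ 0 (fderiv ℝ (fun y => fderiv ℝ u y b)) W := h2.fderiv_of_isOpen hW (by norm_num)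
  exact (h3.continuousOn.clm_apply continuousOn_const)

private lemma ma_contOn {u : (Fin 2 → ℂ) → ℝ} {W : Set (Fin 2 → ℂ)} (hW : IsOpen W) (hu : ContDiffOn ℝ ∞ u W) :
    ContinuousOn (maDensity u) W := by
  have h : ContinuousOn (fun z => (hA u z * hB u z - hC u z ^ 2 - hE u z ^ 2) / 16) W := by
    unfold hA hB hC hE
    have := fun a b => D2_contOn hW hu a b
    have h1 := (this (ev 0) (ev 0)).add (this (iev 0) (iev 0))
    have h2 := (this (ev 1) (ev 1)).add (this (iev 1) (iev 1))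
    have h3 := (this (ev 0) (ev 1)).add (this (iev 0) (iev 1))
    have h4 := (this (ev 0) (iev 1)).sub (this (iev 0) (ev 1))
    exact (((h1.mul h2).sub (h3.pow 2)).sub (h4.pow 2)).div_const 16
  refine h.congr fun z hz => ?_
  exact maDensity_eq ((hu.contDiffAt (hW.mem_nhds hz)).of_le (by norm_cast))

private lemma mul_int {f φ : (Fin 2 → ℂ) → ℝ} {W : Set (Fin 2 → ℂ)} (hW : IsOpen W) (hf : ContinuousOn f W)
    (hφ : Continuous φ) (hφc : HasCompactSupport φ) (hφs : tsupport φ ⊆ W) : Integrable (fun z => φ z * f z) := by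
  have hc : Continuous (fun z => φ z * f z) := by
    rw [continuous_iff_continuousAt]
    intro z
    by_cases hz : z ∈ tsupport φ
    · exact hφ.continuousAt.mul (hf.continuousAt (hW.mem_nhds (hφs hz)))
    · have h1 : (fun z => φ z * f z) =ᶠ[nhds z] fun _ => 0 := by
        filter_upwards [(isClosed_tsupport φ).isOpen_compl.mem_nhds hz] with y hy
        rw [image_eq_zero_of_notMem_tsupport hy, zero_mul]
      exact (continuousAt_const).congr h1.symm
  exact hc.integrable_of_hasCompactSupport (hφc.mul_right)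

private lemma fd_diff {n : ℕ} {u : (Fin n → ℂ) → ℝ} {W : Set (Fin n → ℂ)} (hW : IsOpen W) (hu : ContDiffOn ℝ ∞ u W)
    (b : Fin n → ℂ) {z : Fin n → ℂ} (hz : z ∈ W) : DifferentiableAt ℝ (fun y => fderiv ℝ u y b) z := by
  have h1 : ContDiffOn ℝ 1 (fderiv ℝ u) W := hu.fderiv_of_isOpen hW (by norm_cast)
  have h2 : ContDiffOn ℝ 1 (fun y => fderiv ℝ u y b) W := h1.clm_apply contDiffOn_const
  exact (h2.contDiffAt (hW.mem_nhds hz)).differentiableAt (by norm_num)

private lemma D2_sub {n : ℕ} {u v : (Fin n → ℂ) → ℝ} {W : Set (Fin n → ℂ)} (hW : IsOpen W) (hu : ContDiffOn ℝ ∞ u W)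
    (hv : ContDiffOn ℝ ∞ v W) (a b : Fin n → ℂ) {z : Fin n → ℂ} (hz : z ∈ W) :
    D2 (fun y => u y - v y) a b z = D2 u a b z - D2 v a b z := by
  unfold D2
  have h : (fun y => fderiv ℝ (fun y => u y - v y) y b) =ᶠ[nhds z] fun y => fderiv ℝ u y b - fderiv ℝ v y b := by
    filter_upwards [hW.mem_nhds hz] with y hy
    have hu1 : DifferentiableAt ℝ u y := (hu.contDiffAt (hW.mem_nhds hy)).differentiableAt (by simp)
    have hv1 : DifferentiableAt ℝ v y := (hv.contDiffAt (hW.mem_nhds hy)).differentiableAt (by simp)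
    rw [fderiv_fun_sub hu1 hv1]; rfl
  rw [h.fderiv_eq, fderiv_fun_sub (fd_diff hW hu b hz) (fd_diff hW hv b hz)]
  rfl

private lemma D2_add {n : ℕ} {u v : (Fin n → ℂ) → ℝ} {W : Set (Fin n → ℂ)} (hW : IsOpen W) (hu : ContDiffOn ℝ ∞ u W)
    (hv : ContDiffOn ℝ ∞ v W) (a b : Fin n → ℂ) {z : Fin n → ℂ} (hz : z ∈ W) :
    D2 (fun y => u y + v y) a b z = D2 u a b z + D2 v a b z := by
  unfold D2
  have h : (fun y => fderiv ℝ (fun y => u y + v y) y b) =ᶠ[nhds z] fun y => fderiv ℝ u y b + fderiv ℝ v y b := by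
    filter_upwards [hW.mem_nhds hz] with y hy
    have hu1 : DifferentiableAt ℝ u y := (hu.contDiffAt (hW.mem_nhds hy)).differentiableAt (by simp)
    have hv1 : DifferentiableAt ℝ v y := (hv.contDiffAt (hW.mem_nhds hy)).differentiableAt (by simp)
    rw [fderiv_fun_add hu1 hv1]; rfl
  rw [h.fderiv_eq, fderiv_fun_add (fd_diff hW hu b hz) (fd_diff hW hv b hz)]
  rfl

/-- `16 (MA(u) - MA(v)) = mix(u - v, u + v) / 2`, integrated against a test function. -/
theorem integral_ma_sub {W : Set (Fin 2 → ℂ)} (hW : IsOpen W) {u v φ : (Fin 2 → ℂ) → ℝ}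
    (hu : ContDiffOn ℝ ∞ u W) (hv : ContDiffOn ℝ ∞ v W) (hφ : ContDiff ℝ ∞ φ)
    (hφc : HasCompactSupport φ) (hφs : tsupport φ ⊆ W) :
    (∫ z, φ z * maDensity u z) - ∫ z, φ z * maDensity v z =
      (1 / 32) * ∫ z, (u z - v z) * mix φ (fun y => u y + v y) z := by
  rw [← integral_sub (mul_int hW (ma_contOn hW hu) hφ.continuous hφc hφs) (mul_int hW (ma_contOn hW hv) hφ.continuous hφc hφs)]
  have h := integral_mix hW (g := fun y => u y - v y) (w := fun y => u y + v y) (hu.sub hv) (hu.add hv) hφ hφc hφs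
  rw [← h, ← integral_const_mul]
  refine integral_congr_ae (Filter.Eventually.of_forall fun z => ?_)
  simp only
  by_cases hz : z ∈ tsupport φ
  · have hzW := hφs hz
    rw [maDensity_eq ((hu.contDiffAt (hW.mem_nhds hzW)).of_le (by norm_cast)), maDensity_eq ((hv.contDiffAt (hW.mem_nhds hzW)).of_le (by norm_cast))]
    unfold mix hA hB hC hE
    simp only [D2_sub hW hu hv _ _ hzW, D2_add hW hu hv _ _ hzW]
    ring
  · rw [image_eq_zero_of_notMem_tsupport hz]; ring

end LibMA34
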