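import Pool.Agent.LibMA34.MAform

namespace LibMA34

theorem I_smul_ev {n : ℕ} (j : Fin n) : Complex.I • (ev j : Fin n → ℂ) = iev j := by
  unfold ev iev
  ext i
  by_cases h : i = j
  · subst h; simp
  · simp [h]

theorem I_smul_iev {n : ℕ} (j : Fin n) : Complex.I • (iev j : Fin n → ℂ) = - ev j := by
  unfold ev iev
  ext i
  by_cases h : i = j
  · subst h; simp
  · simp [h]

theorem D2_add_left {n : ℕ} (u : (Fin n → ℂ) → ℝ) (z a b c : Fin n → ℂ) :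
    D2 u (a + b) c z = D2 u a c z + D2 u b c z := by
  have := D2_add_smul u z a b c 1 1
  simpa using this

theorem D2_neg_left {n : ℕ} (u : (Fin n → ℂ) → ℝ) (z a c : Fin n → ℂ) :
    D2 u (-a) c z = - D2 u a c z := by
  have := D2_add_smul u z a 0 c (-1) 0
  simpa using this

theorem D2_add_add {n : ℕ} {u : (Fin n → ℂ) → ℝ} {z : Fin n → ℂ} (hu : ContDiffAt ℝ 2 u z)
    (a b : Fin n → ℂ) :
    D2 u (a + b) (a + b) z = D2 u a a z + 2 * D2 u a b z + D2 u b b z := by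
  rw [D2_add_left, D2_symm hu a (a + b), D2_symm hu b (a + b), D2_add_left, D2_add_left,
    D2_symm hu b a]
  ring

/-- If the Levi form is `P |α·b|² + Q |β·b|²`, then the determinant is
`P Q |α₀ β₁ - α₁ β₀|²`. (Take `b = e₀, e₁, e₀ + e₁, e₀ + i e₁`.) -/
theorem maDensity_of_levi {u : (Fin 2 → ℂ) → ℝ} {z : Fin 2 → ℂ} (hu : ContDiffAt ℝ 2 u z)
    {P Q : ℝ} {α β : Fin 2 → ℂ}
    (h : ∀ b : Fin 2 → ℂ, D2 u b b z + D2 u (Complex.I • b) (Complex.I • b) z =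
      4 * (P * ‖α 0 * b 0 + α 1 * b 1‖ ^ 2 + Q * ‖β 0 * b 0 + β 1 * b 1‖ ^ 2)) :
    maDensity u z = P * Q * ‖α 0 * β 1 - α 1 * β 0‖ ^ 2 := by
  rw [maDensity_eq hu]
  have e0 : (ev 0 : Fin 2 → ℂ) 0 = 1 := by simp [ev]
  have e1 : (ev 0 : Fin 2 → ℂ) 1 = 0 := by simp [ev]
  have e2 : (ev 1 : Fin 2 → ℂ) 0 = 0 := by simp [ev]
  have e3 : (ev 1 : Fin 2 → ℂ) 1 = 1 := by simp [ev]
  have e4 : (iev 1 : Fin 2 → ℂ) 0 = 0 := by simp [iev]
  have e5 : (iev 1 : Fin 2 → ℂ) 1 = Complex.I := by simp [iev]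
  have hAe : hA u z = 4 * (P * ‖α 0‖ ^ 2 + Q * ‖β 0‖ ^ 2) := by
    have := h (ev 0)
    rw [I_smul_ev, e0, e1] at this
    simp only [mul_one, mul_zero, add_zero] at this
    exact this
  have hBe : hB u z = 4 * (P * ‖α 1‖ ^ 2 + Q * ‖β 1‖ ^ 2) := by
    have := h (ev 1)
    rw [I_smul_ev, e2, e3] at this
    simp only [mul_one, mul_zero, zero_add] at this
    exact this
  have hCe : hA u z + hB u z + 2 * hC u z =
      4 * (P * ‖α 0 + α 1‖ ^ 2 + Q * ‖β 0 + β 1‖ ^ 2) := by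
    have := h (ev 0 + ev 1)
    rw [smul_add, I_smul_ev, I_smul_ev, D2_add_add hu, D2_add_add hu] at this
    simp only [Pi.add_apply, e0, e1, e2, e3, mul_one, add_zero, zero_add] at this
    rw [← this]
    unfold hA hB hC
    ring
  have hEe : hA u z + hB u z + 2 * hE u z =
      4 * (P * ‖α 0 + α 1 * Complex.I‖ ^ 2 + Q * ‖β 0 + β 1 * Complex.I‖ ^ 2) := by
    have := h (ev 0 + iev 1)
    rw [smul_add, I_smul_ev, I_smul_iev, D2_add_add hu, D2_add_add hu] at this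
    simp only [Pi.add_apply, e0, e1, e4, e5, mul_one, add_zero, zero_add] at this
    rw [← this]
    rw [D2_neg_left, D2_symm hu (iev 0) (-ev 1), D2_neg_left, D2_symm hu (ev 1) (-ev 1),
      D2_neg_left, D2_symm hu (ev 1) (iev 0)]
    unfold hA hB hE
    ring
  have hCe' : hC u z = 2 * (P * ‖α 0 + α 1‖ ^ 2 + Q * ‖β 0 + β 1‖ ^ 2) -
      2 * (P * ‖α 0‖ ^ 2 + Q * ‖β 0‖ ^ 2) - 2 * (P * ‖α 1‖ ^ 2 + Q * ‖β 1‖ ^ 2) := by
    linarith
  have hEe' : hE u z = 2 * (P * ‖α 0 + α 1 * Complex.I‖ ^ 2 + Q * ‖β 0 + β 1 * Complex.I‖ ^ 2) -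
      2 * (P * ‖α 0‖ ^ 2 + Q * ‖β 0‖ ^ 2) - 2 * (P * ‖α 1‖ ^ 2 + Q * ‖β 1‖ ^ 2) := by
    linarith
  rw [hAe, hBe, hCe', hEe']
  simp only [Complex.sq_norm, Complex.normSq_apply, Complex.add_re, Complex.add_im,
    Complex.sub_re, Complex.sub_im, Complex.mul_re, Complex.mul_im, Complex.I_re, Complex.I_im,
    mul_zero, mul_one, zero_sub, add_zero, zero_add]
  ring

end LibMA34
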