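import Pool.Agent.LibMA34.KapA

namespace LibMA34

/-- Logarithmic lower bound: for `0 < x ≤ 1/2` one has `k > 1`, `ρ e^k (k-1) ≥ 2x`, so
`Phi ≥ x² (2k-1)/(k-1)² ≥ 2x²/k`, and `k ≤ max 2 (log (2/ρ))`. -/
theorem Phi_lower {ρ x : ℝ} (hρ : 0 < ρ) (hρ1 : ρ ≤ 2 * Real.exp (-2)) (hx : 0 < x)
    (hx1 : x ≤ 1 / 2) : 2 * x ^ 2 / Real.log (2 / ρ) ≤ Phi ρ x := by
  have hx' : -1 / 2 < x := by linarith
  have hG := G_kap hρ hx'
  have hk := kap_pos hρ hx'
  rw [Phi_pos_eq hρ]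
  set k := kap ρ x
  unfold G at hG
  unfold F
  set a := ρ * Real.exp k with ha
  have ha0 : 0 < a := by positivity
  have e1 : ρ ^ 2 * Real.exp (2 * k) = a ^ 2 := by
    rw [ha, mul_pow, ← Real.exp_nat_mul]; norm_num
  have hb0 : 0 < Real.exp (-k) * (k + 1) := by positivity
  have hb1 : Real.exp (-k) * (k + 1) ≤ 1 := by
    rw [Real.exp_neg, inv_mul_le_iff₀ (Real.exp_pos k), mul_one]
    exact Real.add_one_le_exp k
  have hk1 : 1 < k := by
    by_contra hcon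
    have : a * (k - 1) ≤ 0 := mul_nonpos_of_nonneg_of_nonpos ha0.le (by linarith)
    linarith
  have ha1 : 2 * x ≤ a * (k - 1) := by linarith
  -- the logarithm
  have hlog2 : 2 ≤ Real.log (2 / ρ) := by
    rw [Real.le_log_iff_exp_le (by positivity), le_div_iff₀ hρ]
    have : Real.exp 2 * (2 * Real.exp (-2)) = 2 := by
      rw [mul_left_comm, ← Real.exp_add]; simp
    calc Real.exp 2 * ρ ≤ Real.exp 2 * (2 * Real.exp (-2)) := by gcongr
      _ = 2 := this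
  have hklog : k ≤ Real.log (2 / ρ) := by
    rcases le_or_gt k 2 with h | h
    · linarith
    · rw [Real.le_log_iff_exp_le (by positivity), le_div_iff₀ hρ]
      have h1 : a * (k - 1) ≤ 2 := by linarith
      have h2 : a ≤ 2 := by nlinarith
      calc Real.exp k * ρ = a := by rw [ha]; ring
        _ ≤ 2 := h2
  have h1 : 2 * x ^ 2 / Real.log (2 / ρ) ≤ 2 * x ^ 2 / k := by gcongr
  refine h1.trans ?_
  rw [e1, div_le_iff₀ hk]
  have h2 : (2 * x) ^ 2 ≤ (a * (k - 1)) ^ 2 := by gcongr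
  have h3 : 0 ≤ Real.exp (-(2 * k)) * (2 * k + 1) := by positivity
  have h4 : 8 * x ^ 2 ≤ a ^ 2 * (2 * k - 1) * k := by
    have h5 : 2 * (k - 1) ^ 2 ≤ (2 * k - 1) * k := by nlinarith
    calc 8 * x ^ 2 = 2 * (2 * x) ^ 2 := by ring
      _ ≤ 2 * (a * (k - 1)) ^ 2 := by linarith
      _ = a ^ 2 * (2 * (k - 1) ^ 2) := by ring
      _ ≤ a ^ 2 * ((2 * k - 1) * k) := by gcongr
      _ = _ := by ring
  nlinarith [mul_nonneg h3 hk.le, mul_pos hρ hk]

end LibMA34
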