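import Pool.Agent.LibMA34.KapSmooth

namespace LibMA34

open Filter Topology
open scoped ContDiff

theorem VV_isOpen : IsOpen VV := by
  have : Continuous fun p : Fin 2 → ℂ => ‖p 1‖ := (continuous_apply 1).norm
  exact isOpen_lt continuous_const this

theorem log_of_mem_VV {p : Fin 2 → ℂ} (hp : p ∈ VV) : -1 / 2 < Real.log ‖p 1‖ ∧ p 1 ≠ 0 := by
  have h : Real.exp (-1 / 2) < ‖p 1‖ := hp
  have h0 : 0 < ‖p 1‖ := lt_trans (Real.exp_pos _) h
  exact ⟨(Real.lt_log_iff_exp_lt h0).2 h, norm_pos_iff.1 h0⟩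

/-- `U^δ` is smooth on `VV` for `δ > 0`. -/
theorem Ud_contDiffOn {δ : ℝ} (hδ : 0 < δ) : ContDiffOn ℝ ∞ (Ud δ) VV := by
  intro p hp
  refine ContDiffAt.contDiffWithinAt ?_
  obtain ⟨hx, h1⟩ := log_of_mem_VV hp
  have hN : ContDiff ℝ ∞ fun p : Fin 2 → ℂ => ‖p 0 * p 1‖ ^ 2 + δ := by
    refine ContDiff.add ?_ contDiff_const
    refine ContDiff.norm_sq ℝ ?_
    exact (contDiff_apply ℝ ℂ (0 : Fin 2)).mul (contDiff_apply ℝ ℂ (1 : Fin 2))
  have hX : ContDiffAt ℝ ∞ (fun p : Fin 2 → ℂ => Real.log ‖p 1‖) p := by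
    refine ContDiffAt.log ?_ (norm_ne_zero_iff.2 h1)
    exact ((contDiff_apply ℝ ℂ (1 : Fin 2)).contDiffAt).norm ℝ h1
  have hpos : ∀ p : Fin 2 → ℂ, 0 < ‖p 0 * p 1‖ ^ 2 + δ := fun p => by positivity
  have hk : ContDiffAt ℝ ∞ (fun p : Fin 2 → ℂ =>
      kap (‖p 0 * p 1‖ ^ 2 + δ) (Real.log ‖p 1‖)) p := by
    exact (kap_contDiffAt (hpos p) hx).comp p (hN.contDiffAt.prodMk hX)
  have hU : Ud δ = fun p : Fin 2 → ℂ =>
      F (‖p 0 * p 1‖ ^ 2 + δ) (kap (‖p 0 * p 1‖ ^ 2 + δ) (Real.log ‖p 1‖)) +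
        Real.log ‖p 1‖ / 4 := by
    funext p
    unfold Ud
    rw [Phi_pos_eq (hpos p)]
  rw [hU]
  refine ContDiffAt.add ?_ (hX.div_const 4)
  unfold F
  have hNa := hN.contDiffAt (x := p)
  refine ContDiffAt.div_const ?_ 4
  refine ContDiffAt.add (ContDiffAt.add ?_ ?_) ?_
  · exact ((hNa.pow 2).mul (contDiffAt_const.mul hk).exp).mul
      ((contDiffAt_const.mul hk).sub contDiffAt_const)
  · exact ((contDiffAt_const.mul hk).neg.exp).mul
      ((contDiffAt_const.mul hk).add contDiffAt_const)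
  · exact contDiffAt_const.mul hNa

end LibMA34
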