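import Pool.Agent.LibMA34.PhiCont1
import Pool.Agent.LibMA34.PhiLower
import Pool.Agent.LibMA34.USmooth

namespace LibMA34

open Filter Topology in
theorem NonSmAux_lim {w α : ℝ} (hw : 0 < w) (hα : 0 < α) (C : ℝ) :
    Tendsto (fun t : ℝ => C * t ^ α * Real.log (2 / (t * w) ^ 2)) (𝓝[>] 0) (𝓝 0) := by
  have h1 : Tendsto (fun t : ℝ => t ^ α) (𝓝[>] 0) (𝓝 0) := by
    have h := (Real.continuousAt_rpow_const 0 α (Or.inr hα.le)).tendsto
    rw [Real.zero_rpow hα.ne'] at h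
    exact h.mono_left nhdsWithin_le_nhds
  have h2 : Tendsto (fun t : ℝ => Real.log t * t ^ α) (𝓝[>] 0) (𝓝 0) :=
    tendsto_log_mul_rpow_nhdsGT_zero hα
  have h3 : Tendsto (fun t : ℝ => C * Real.log (2 / w ^ 2) * t ^ α - 2 * C * (Real.log t * t ^ α))
      (𝓝[>] 0) (𝓝 (C * Real.log (2 / w ^ 2) * 0 - 2 * C * 0)) :=
    (h1.const_mul _).sub (h2.const_mul _)
  rw [mul_zero, mul_zero, sub_zero] at h3
  refine h3.congr' ?_
  filter_upwards [self_mem_nhdsWithin] with t ht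
  have ht' : (0 : ℝ) < t := ht
  have h4 : Real.log (2 / (t * w) ^ 2) = Real.log (2 / w ^ 2) - 2 * Real.log t := by
    rw [Real.log_div (by norm_num) (by positivity), Real.log_div (by norm_num) (by positivity),
      Real.log_pow, Real.log_pow, Real.log_mul ht'.ne' hw.ne']
    push_cast
    ring
  rw [h4]
  ring

open Filter Topology in
/-- `U` is not Hölder continuous at the points `(0,w)`, `1 < |w| ≤ e^{1/2}`: there
`U(z,w) - U(0,w) = Phi(|zw|², log|w|) ≥ 2 x² / log(2/|zw|²)`. -/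
theorem not_hoelder {w : ℂ} (hw : 1 < ‖w‖) (hw1 : ‖w‖ ≤ Real.exp (1 / 2)) {α : ℝ} (hα : 0 < α)
    (C : ℝ) {r : ℝ} (hr : 0 < r) :
    ∃ z : ℂ, ‖z‖ < r ∧ C * ‖z‖ ^ α < |Ud 0 ![z, w] - Ud 0 ![0, w]| := by
  have hw0 : 0 < ‖w‖ := lt_trans one_pos hw
  have hx : 0 < Real.log ‖w‖ := Real.log_pos hw
  have hx1 : Real.log ‖w‖ ≤ 1 / 2 := (Real.log_le_iff_le_exp hw0).2 hw1
  have e1 : ∀ᶠ t : ℝ in 𝓝[>] 0, C * t ^ α * Real.log (2 / (t * ‖w‖) ^ 2) <
      2 * Real.log ‖w‖ ^ 2 :=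
    (NonSmAux_lim hw0 hα C).eventually_lt_const (by positivity)
  have e2 : ∀ᶠ t : ℝ in 𝓝[>] 0, (t * ‖w‖) ^ 2 < 2 * Real.exp (-2) := by
    have h : Tendsto (fun t : ℝ => (t * ‖w‖) ^ 2) (𝓝[>] 0) (𝓝 0) := by
      have h0 : Continuous (fun t : ℝ => (t * ‖w‖) ^ 2) := by fun_prop
      have h1 := h0.tendsto 0
      rw [zero_mul, zero_pow (by norm_num)] at h1
      exact h1.mono_left nhdsWithin_le_nhds
    exact h.eventually_lt_const (by positivity)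
  have e3 : ∀ᶠ t : ℝ in 𝓝[>] 0, t < r := (eventually_lt_nhds hr).filter_mono nhdsWithin_le_nhds
  have e4 : ∀ᶠ t : ℝ in 𝓝[>] (0 : ℝ), 0 < t := self_mem_nhdsWithin
  obtain ⟨t, ht1, ht2, ht3, ht4⟩ := (e1.and (e2.and (e3.and e4))).exists
  have hnt : ‖(t : ℂ)‖ = t := by rw [Complex.norm_real, Real.norm_of_nonneg ht4.le]
  refine ⟨t, by rwa [hnt], ?_⟩
  have hU0 : Ud 0 ![0, w] = Real.log ‖w‖ / 4 := by
    rw [Ud]
    simp only [Matrix.cons_val_zero, Matrix.cons_val_one, zero_mul, norm_zero,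
      ne_eq, OfNat.ofNat_ne_zero, not_false_eq_true, zero_pow, add_zero]
    rw [Phi_zero_of_nonneg hx.le, zero_add]
  have hUt : Ud 0 ![(t : ℂ), w] = Phi ((t * ‖w‖) ^ 2) (Real.log ‖w‖) + Real.log ‖w‖ / 4 := by
    rw [Ud]
    simp only [Matrix.cons_val_zero, Matrix.cons_val_one, norm_mul, hnt,
      add_zero]
  have hρ : 0 < (t * ‖w‖) ^ 2 := by positivity
  have hlow := Phi_lower hρ ht2.le hx hx1
  have hlog : 0 < Real.log (2 / (t * ‖w‖) ^ 2) := by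
    apply Real.log_pos
    rw [one_lt_div hρ]
    have h5 : Real.exp (-2) < 1 := by
      rw [Real.exp_lt_one_iff]; norm_num
    linarith
  rw [hU0, hUt, add_sub_cancel_right, hnt]
  have hlow2 : C * t ^ α < 2 * Real.log ‖w‖ ^ 2 / Real.log (2 / (t * ‖w‖) ^ 2) :=
    (lt_div_iff₀ hlog).2 ht1
  exact lt_of_lt_of_le (hlow2.trans_le hlow) (le_abs_self _)

theorem mem_Om {w : ℂ} (hw : 1 < ‖w‖) (hw1 : ‖w‖ < Real.exp (1 / 4)) : ![0, w] ∈ Om := by
  have hw0 : 0 < ‖w‖ := lt_trans one_pos hw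
  have hx : 0 < Real.log ‖w‖ := Real.log_pos hw
  have hx1 : Real.log ‖w‖ < 1 / 4 := (Real.log_lt_iff_lt_exp hw0).2 hw1
  refine ⟨?_, ?_, ?_⟩
  · change Real.exp (-1 / 2) < ‖w‖
    have h5 : Real.exp (-1 / 2) < 1 := by
      rw [Real.exp_lt_one_iff]; norm_num
    linarith
  · simp
  · rw [Ud]
    simp only [Matrix.cons_val_zero, Matrix.cons_val_one, zero_mul, norm_zero,
      ne_eq, OfNat.ofNat_ne_zero, not_false_eq_true, zero_pow, add_zero]
    rw [Phi_zero_of_nonneg hx.le, zero_add]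
    linarith

end LibMA34
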