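import Pool.Agent.LibMA34.NullLagA

namespace LibMA34

open MeasureTheory
open scoped ContDiff

/-- The polarised `2 × 2` minor of the Hessian, rows `a, b`, columns `c, d`. -/
noncomputable def mnr {n : ℕ} (g w : (Fin n → ℂ) → ℝ) (a b c d : Fin n → ℂ) (z : Fin n → ℂ) : ℝ :=
  D2 g a c z * D2 w b d z + D2 g b d z * D2 w a c z - D2 g a d z * D2 w b c z -
    D2 g b c z * D2 w a d z

/-- directional derivative as a function -/
noncomputable def nlD {n : ℕ} (a : Fin n → ℂ) (u : (Fin n → ℂ) → ℝ) : (Fin n → ℂ) → ℝ :=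
  fun z => fderiv ℝ u z a

theorem nl_D2 {n : ℕ} (u : (Fin n → ℂ) → ℝ) (a b z : Fin n → ℂ) :
    D2 u a b z = nlD a (nlD b u) z := rfl

theorem nl_smooth {n : ℕ} {u : (Fin n → ℂ) → ℝ} (hu : ContDiff ℝ ∞ u) (a : Fin n → ℂ) :
    ContDiff ℝ ∞ (nlD a u) := by
  unfold nlD
  exact (hu.fderiv_right (m := ∞) (by simp)).clm_apply contDiff_const

theorem nl_comm {n : ℕ} {u : (Fin n → ℂ) → ℝ} (hu : ContDiff ℝ ∞ u) (a b : Fin n → ℂ) :
    nlD a (nlD b u) = nlD b (nlD a u) := by
  funext z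
  have hd : DifferentiableAt ℝ (fderiv ℝ u) z :=
    ((hu.fderiv_right (m := ∞) (by simp)).differentiable (by simp)) z
  have h1 : ∀ c d : Fin n → ℂ, nlD c (nlD d u) z = fderiv ℝ (fderiv ℝ u) z c d := by
    intro c d
    unfold nlD
    rw [fderiv_clm_apply hd (differentiableAt_const d)]
    simp
  have hsym : IsSymmSndFDerivAt ℝ u z := by
    apply hu.contDiffAt.isSymmSndFDerivAt
    simp only [minSmoothness_of_isRCLikeNormedField]
    exact WithTop.coe_le_coe.2 (le_top : (2 : ℕ∞) ≤ ⊤)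
  rw [h1, h1]
  exact hsym a b

theorem nl_mul {n : ℕ} {u v : (Fin n → ℂ) → ℝ} (hu : ContDiff ℝ ∞ u) (hv : ContDiff ℝ ∞ v)
    (a z : Fin n → ℂ) :
    nlD a (fun y => u y * v y) z = nlD a u z * v z + u z * nlD a v z := by
  unfold nlD
  rw [fderiv_fun_mul ((hu.differentiable (by simp)) z) ((hv.differentiable (by simp)) z)]
  simp only [add_apply, smul_apply, smul_eq_mul]
  ring

theorem nl_mul2 {n : ℕ} {u v : (Fin n → ℂ) → ℝ} (hu : ContDiff ℝ ∞ u) (hv : ContDiff ℝ ∞ v)
    (a b z : Fin n → ℂ) :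
    nlD b (nlD a (fun y => u y * v y)) z =
      nlD b (nlD a u) z * v z + nlD a u z * nlD b v z + nlD b u z * nlD a v z +
        u z * nlD b (nlD a v) z := by
  have e : nlD a (fun y => u y * v y) = fun y => nlD a u y * v y + u y * nlD a v y := by
    funext y
    exact nl_mul hu hv a y
  have h1 : ContDiff ℝ ∞ (fun y => nlD a u y * v y) := (nl_smooth hu a).mul hv
  have h2 : ContDiff ℝ ∞ (fun y => u y * nlD a v y) := hu.mul (nl_smooth hv a)
  have h3 : nlD b (fun y => nlD a u y * v y + u y * nlD a v y) z =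
      nlD b (fun y => nlD a u y * v y) z + nlD b (fun y => u y * nlD a v y) z := by
    unfold nlD at h1 h2 ⊢
    rw [fderiv_fun_add ((h1.differentiable (by simp)) z) ((h2.differentiable (by simp)) z)]
    rfl
  rw [e, h3, nl_mul (nl_smooth hu a) hv, nl_mul hu (nl_smooth hv a)]
  ring

theorem nl_int4 {n : ℕ} {f1 f2 f3 f4 : (Fin n → ℂ) → ℝ} (h1 : Integrable f1) (h2 : Integrable f2)
    (h3 : Integrable f3) (h4 : Integrable f4) :
    ∫ z, (((f1 z + f2 z) - f3 z) - f4 z) = ((∫ z, f1 z) + (∫ z, f2 z) - ∫ z, f3 z) - ∫ z, f4 z := by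
  have h12 : Integrable (fun z => f1 z + f2 z) := h1.add h2
  have h123 : Integrable (fun z => f1 z + f2 z - f3 z) := h12.sub h3
  rw [integral_sub h123 h4, integral_sub h12 h3, integral_add h1 h2]

/-- Two integrations by parts: `∫ φ mnr(g,w) = ∫ g mnr(φ,w)` for smooth functions with compact
support. -/
theorem integral_mnr {n : ℕ} {φ g w : (Fin n → ℂ) → ℝ} (hφ : ContDiff ℝ ∞ φ)
    (hφc : HasCompactSupport φ) (hg : ContDiff ℝ ∞ g) (hgc : HasCompactSupport g)
    (hw : ContDiff ℝ ∞ w) (a b c d : Fin n → ℂ) :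
    ∫ z, φ z * mnr g w a b c d z = ∫ z, g z * mnr φ w a b c d z := by
  have hW : ∀ p q : Fin n → ℂ, ContDiff ℝ ∞ (nlD p (nlD q w)) :=
    fun p q => nl_smooth (nl_smooth hw q) p
  have hG : ∀ p q : Fin n → ℂ, ContDiff ℝ ∞ (nlD p (nlD q g)) :=
    fun p q => nl_smooth (nl_smooth hg q) p
  have hψ : ∀ p q : Fin n → ℂ, ContDiff ℝ ∞ (fun z => φ z * nlD p (nlD q w) z) :=
    fun p q => hφ.mul (hW p q)
  have hψc : ∀ p q : Fin n → ℂ, HasCompactSupport (fun z => φ z * nlD p (nlD q w) z) :=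
    fun p q => hφc.mul_right
  -- one term
  have key : ∀ p q r s : Fin n → ℂ,
      ∫ z, (φ z * nlD p (nlD q w) z) * nlD r (nlD s g) z =
        ∫ z, g z * nlD s (nlD r (fun y => φ y * nlD p (nlD q w) y)) z := by
    intro p q r s
    exact integral_D2 (hψ p q) (hψc p q) hg r s
  have i1 : ∀ p q r s : Fin n → ℂ,
      Integrable (fun z => (φ z * nlD p (nlD q w) z) * nlD r (nlD s g) z) := by
    intro p q r s
    apply Continuous.integrable_of_hasCompactSupport
    · exact (hψ p q).continuous.mul (hG r s).continuous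
    · exact (hψc p q).mul_right
  have i2 : ∀ p q r s : Fin n → ℂ,
      Integrable (fun z => g z * nlD s (nlD r (fun y => φ y * nlD p (nlD q w) y)) z) := by
    intro p q r s
    apply Continuous.integrable_of_hasCompactSupport
    · exact hg.continuous.mul (nl_smooth (nl_smooth (hψ p q) r) s).continuous
    · exact hgc.mul_right
  have e1 : (∫ z, φ z * mnr g w a b c d z) =
      ∫ z, ((((φ z * nlD b (nlD d w) z) * nlD a (nlD c g) z) +
        ((φ z * nlD a (nlD c w) z) * nlD b (nlD d g) z)) -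
        ((φ z * nlD b (nlD c w) z) * nlD a (nlD d g) z)) -
        ((φ z * nlD a (nlD d w) z) * nlD b (nlD c g) z) := by
    apply integral_congr_ae
    filter_upwards with z
    unfold mnr
    simp only [nl_D2]
    ring
  have e2 : (∫ z, g z * mnr φ w a b c d z) =
      ∫ z, (((g z * nlD c (nlD a (fun y => φ y * nlD b (nlD d w) y)) z) +
        (g z * nlD d (nlD b (fun y => φ y * nlD a (nlD c w) y)) z)) -
        (g z * nlD d (nlD a (fun y => φ y * nlD b (nlD c w) y)) z)) -
        (g z * nlD c (nlD b (fun y => φ y * nlD a (nlD d w) y)) z) := by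
    apply integral_congr_ae
    filter_upwards with z
    rw [nl_mul2 hφ (hW b d), nl_mul2 hφ (hW a c), nl_mul2 hφ (hW b c), nl_mul2 hφ (hW a d)]
    unfold mnr
    simp only [nl_D2]
    -- symmetries
    have s1 : nlD c (nlD a φ) = nlD a (nlD c φ) := nl_comm hφ c a
    have s2 : nlD d (nlD b φ) = nlD b (nlD d φ) := nl_comm hφ d b
    have s3 : nlD d (nlD a φ) = nlD a (nlD d φ) := nl_comm hφ d a
    have s4 : nlD c (nlD b φ) = nlD b (nlD c φ) := nl_comm hφ c b
    have t1 : nlD c (nlD b (nlD d w)) = nlD d (nlD b (nlD c w)) := by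
      rw [nl_comm hw b d, nl_comm (nl_smooth hw b) c d, nl_comm hw c b]
    have t2 : nlD a (nlD b (nlD d w)) = nlD b (nlD a (nlD d w)) :=
      nl_comm (nl_smooth hw d) a b
    have t3 : nlD d (nlD a (nlD c w)) = nlD c (nlD a (nlD d w)) := by
      rw [nl_comm hw a c, nl_comm (nl_smooth hw a) d c, nl_comm hw d a]
    have t4 : nlD b (nlD a (nlD c w)) = nlD a (nlD b (nlD c w)) :=
      nl_comm (nl_smooth hw c) b a
    have q1 : nlD c (nlD a (nlD b (nlD d w))) = nlD c (nlD b (nlD a (nlD d w))) := by rw [t2]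
    have q2 : nlD d (nlD b (nlD a (nlD c w))) = nlD d (nlD a (nlD b (nlD c w))) := by rw [t4]
    rw [s1, s2, s3, s4, t1, t2, t3, t4]
    ring
  rw [e1, e2, nl_int4 (i1 b d a c) (i1 a c b d) (i1 b c a d) (i1 a d b c),
    nl_int4 (i2 b d a c) (i2 a c b d) (i2 b c a d) (i2 a d b c), key, key, key, key]

end LibMA34
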