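import Pool.Agent.LibMA34.Defs

namespace LibMA34

open MeasureTheory
open scoped ContDiff

namespace NullLagAAux

variable {n : ℕ}

theorem contDiff_dir {g : (Fin n → ℂ) → ℝ} (hg : ContDiff ℝ ∞ g) (a : Fin n → ℂ) :
    ContDiff ℝ ∞ (fun z => fderiv ℝ g z a) :=
  (hg.fderiv_right (by norm_num)).clm_apply contDiff_const

theorem compSupp_dir {φ : (Fin n → ℂ) → ℝ} (hφc : HasCompactSupport φ) (a : Fin n → ℂ) :
    HasCompactSupport (fun z => fderiv ℝ φ z a) :=
  hφc.fderiv_apply ℝ a

end NullLagAAux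

open NullLagAAux

/-- One integration by parts. -/
theorem integral_D1 {n : ℕ} {φ g : (Fin n → ℂ) → ℝ} (hφ : ContDiff ℝ ∞ φ)
    (hφc : HasCompactSupport φ) (hg : ContDiff ℝ ∞ g) (a : Fin n → ℂ) :
    ∫ z, φ z * fderiv ℝ g z a = - ∫ z, fderiv ℝ φ z a * g z := by
  apply integral_mul_fderiv_eq_neg_fderiv_mul_of_integrable
  · exact ((contDiff_dir hφ a).continuous.mul hg.continuous).integrable_of_hasCompactSupport
      ((compSupp_dir hφc a).mul_right)
  · exact (hφ.continuous.mul (contDiff_dir hg a).continuous).integrable_of_hasCompactSupport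
      (hφc.mul_right)
  · exact (hφ.continuous.mul hg.continuous).integrable_of_hasCompactSupport (hφc.mul_right)
  · exact fun x _ => hφ.differentiable (by norm_num) x
  · exact fun x _ => hg.differentiable (by norm_num) x

/-- Two integrations by parts for one second derivative. -/
theorem integral_D2 {n : ℕ} {φ g : (Fin n → ℂ) → ℝ} (hφ : ContDiff ℝ ∞ φ)
    (hφc : HasCompactSupport φ) (hg : ContDiff ℝ ∞ g) (a b : Fin n → ℂ) :
    ∫ z, φ z * D2 g a b z = ∫ z, g z * D2 φ b a z := by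
  have h1 : ∫ z, φ z * D2 g a b z = - ∫ z, fderiv ℝ φ z a * fderiv ℝ g z b :=
    integral_D1 hφ hφc (contDiff_dir hg b) a
  have h2 : ∫ z, fderiv ℝ φ z a * fderiv ℝ g z b = - ∫ z, D2 φ b a z * g z :=
    integral_D1 (contDiff_dir hφ a) (compSupp_dir hφc a) hg b
  rw [h1, h2, neg_neg]
  congr 1
  funext z
  ring

end LibMA34
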