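import Pool.Agent.LibMA34.PhiCont1

namespace LibMA34

open Filter Topology

/-- Joint continuity. For `ρ > 0` from `kap_contDiffAt`. At `ρ = 0`: `Phi` is nondecreasing in
`ρ ≥ 0`, continuous in `x` for every fixed `ρ ≥ 0` (convexity) and right-continuous in `ρ`
at `0`. -/
theorem Phi_continuousOn :
    ContinuousOn (fun q : ℝ × ℝ => Phi q.1 q.2) {q | 0 ≤ q.1 ∧ -1 / 2 < q.2} := by
  rintro ⟨ρ0, x0⟩ ⟨hρ0, hx0⟩
  simp only at hρ0 hx0
  rcases hρ0.eq_or_lt with rfl | hρ0
  · have hc0 : ContinuousAt (fun x => Phi 0 x) x0 :=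
      (Phi_zero_convexOn.continuousOn isOpen_Ioi).continuousAt (Ioi_mem_nhds hx0)
    have hsnd : Tendsto (fun q : ℝ × ℝ => q.2)
        (𝓝[{q : ℝ × ℝ | 0 ≤ q.1 ∧ -1 / 2 < q.2}] (0, x0)) (𝓝 x0) :=
      (continuous_snd.tendsto (0, x0)).mono_left nhdsWithin_le_nhds
    have hfst : Tendsto (fun q : ℝ × ℝ => q.1)
        (𝓝[{q : ℝ × ℝ | 0 ≤ q.1 ∧ -1 / 2 < q.2}] (0, x0)) (𝓝 0) :=
      (continuous_fst.tendsto (0, x0)).mono_left nhdsWithin_le_nhds
    unfold ContinuousWithinAt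
    rw [tendsto_order]
    constructor
    · intro a ha
      have h1 := (hc0.tendsto.comp hsnd).eventually_const_lt ha
      filter_upwards [h1, self_mem_nhdsWithin] with q h2 h3
      exact lt_of_lt_of_le h2 (Phi_zero_le h3.1 h3.2)
    · intro a ha
      have h1 := (Phi_zero_tendsto hx0).eventually_lt_const ha
      obtain ⟨ρ1, h2, h3⟩ := (h1.and self_mem_nhdsWithin).exists
      have hρ1 : 0 < ρ1 := h3
      have hc1 : ContinuousAt (fun x => Phi ρ1 x) x0 :=
        ((Phi_convexOn hρ1).continuousOn isOpen_Ioi).continuousAt (Ioi_mem_nhds hx0)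
      have h4 := (hc1.tendsto.comp hsnd).eventually_lt_const h2
      have h5 := hfst.eventually_lt_const hρ1
      filter_upwards [h4, h5, self_mem_nhdsWithin] with q h6 h7 h8
      exact lt_of_le_of_lt (Phi_mono' h8.1 h7.le h8.2) h6
  · apply ContinuousAt.continuousWithinAt
    have h1 : ContinuousAt (fun q : ℝ × ℝ => kap q.1 q.2) (ρ0, x0) :=
      (kap_contDiffAt hρ0 hx0).continuousAt
    have hF : Continuous (fun q : ℝ × ℝ => F q.1 q.2) := by unfold F; fun_prop
    have h2 : ContinuousAt ((fun q : ℝ × ℝ => F q.1 q.2) ∘ (fun q : ℝ × ℝ => (q.1, kap q.1 q.2)))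
        (ρ0, x0) := ContinuousAt.comp hF.continuousAt (continuousAt_fst.prodMk h1)
    refine h2.congr ?_
    filter_upwards [(continuous_fst.tendsto ((ρ0, x0) : ℝ × ℝ)).eventually_const_lt hρ0] with q hq
    exact (Phi_pos_eq hq q.2).symm

end LibMA34
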