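import Pool.Agent.LibMA34.KapA

namespace LibMA34

private lemma philow_F (ρ k : ℝ) :
    HasDerivAt (F ρ) (k * (ρ ^ 2 * Real.exp (2 * k) - Real.exp (-(2 * k)))) k := by
  have e1 : HasDerivAt (fun k : ℝ => Real.exp (2 * k)) (Real.exp (2 * k) * 2) k := by
    have := (((hasDerivAt_id k).const_mul 2)).exp
    simpa using this
  have e2 : HasDerivAt (fun k : ℝ => Real.exp (-(2 * k))) (Real.exp (-(2 * k)) * (-2)) k := by
    have := (((hasDerivAt_id k).const_mul 2).neg).exp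
    simpa using this
  have l1 : HasDerivAt (fun k : ℝ => 2 * k - 1) 2 k := by
    simpa using ((hasDerivAt_id k).const_mul 2).sub_const 1
  have l2 : HasDerivAt (fun k : ℝ => 2 * k + 1) 2 k := by
    simpa using ((hasDerivAt_id k).const_mul 2).add_const 1
  have h := ((((e1.const_mul (ρ ^ 2)).mul l1).add (e2.mul l2)).add_const (4 * ρ)).div_const 4
  refine (h.congr_deriv ?_)
  ring

private lemma philow_exp (k : ℝ) : Real.exp (2 * k) = Real.exp k * Real.exp k ∧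
    Real.exp (-(2 * k)) = Real.exp (-k) * Real.exp (-k) ∧ Real.exp k * Real.exp (-k) = 1 := by
  refine ⟨by rw [← Real.exp_add]; congr 1; ring, by rw [← Real.exp_add]; congr 1; ring, ?_⟩
  rw [← Real.exp_add]; simp

/-- For `k ≥ 0`: `F(ρ,k) ≥ (ρ-1) G(ρ,k) + 3(ρ²-1)/4 + ρ` (equality at `k = 0`, derivative in `k`
of the difference is `k (ρ e^k + e^{-k}) (ρ e^k - e^{-k} - (ρ - 1)) ≥ 0`). -/
theorem F_ge {ρ k : ℝ} (hρ : 0 ≤ ρ) (hk : 0 ≤ k) :
    (ρ - 1) * G ρ k + 3 * (ρ ^ 2 - 1) / 4 + ρ ≤ F ρ k := by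
  set D : ℝ → ℝ := fun k => F ρ k - (ρ - 1) * G ρ k with hD
  have hder : ∀ k, HasDerivAt D (k * (ρ ^ 2 * Real.exp (2 * k) - Real.exp (-(2 * k))) -
      (ρ - 1) * (k * (ρ * Real.exp k + Real.exp (-k)))) k := fun k =>
    (philow_F ρ k).sub ((hasDerivAt_G ρ k).const_mul (ρ - 1))
  have hmono : MonotoneOn D (Set.Ici 0) := by
    apply monotoneOn_of_deriv_nonneg (convex_Ici 0)
    · exact fun k _ => (hder k).continuousAt.continuousWithinAt
    · exact fun k _ => (hder k).differentiableAt.differentiableWithinAt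
    · intro k hk
      rw [interior_Ici, Set.mem_Ioi] at hk
      rw [(hder k).deriv]
      obtain ⟨h1, h2, h3⟩ := philow_exp k
      have h4 : k * (ρ ^ 2 * Real.exp (2 * k) - Real.exp (-(2 * k))) -
          (ρ - 1) * (k * (ρ * Real.exp k + Real.exp (-k))) =
          k * (ρ * Real.exp k + Real.exp (-k)) *
            (ρ * (Real.exp k - 1) + (1 - Real.exp (-k))) := by
        rw [h1, h2]; ring
      rw [h4]
      have h5 : 0 ≤ Real.exp k - 1 := by
        have := Real.one_le_exp hk.le; linarith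
      have h6 : 0 ≤ 1 - Real.exp (-k) := by
        have : Real.exp (-k) ≤ 1 := Real.exp_le_one_iff.2 (by linarith)
        linarith
      positivity
  have h0 : D 0 ≤ D k := hmono (Set.mem_Ici.2 le_rfl) (Set.mem_Ici.2 hk) hk
  have h1 : D 0 = 3 * (ρ ^ 2 - 1) / 4 + ρ := by
    rw [hD]
    unfold F G
    simp
    ring
  rw [h1, hD] at h0
  simp only at h0
  linarith

theorem Phi_ge_lin {ρ x : ℝ} (hρ : 0 < ρ) (hx : -1 / 2 < x) : -2 * x - 3 / 4 ≤ Phi ρ x := by
  rw [Phi_pos_eq hρ]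
  have h := F_ge hρ.le (kap_pos hρ hx).le
  rw [G_kap hρ hx] at h
  nlinarith [sq_nonneg ρ]

theorem Phi_nonneg {ρ x : ℝ} (hρ : 0 < ρ) (hρ1 : ρ ≤ 1) (hx : -1 / 2 < x) : 0 ≤ Phi ρ x := by
  rw [Phi_pos_eq hρ]
  have hk := kap_pos hρ hx
  set k := kap ρ x
  obtain ⟨h1, h2, h3⟩ := philow_exp k
  unfold F
  have hb : 0 ≤ Real.exp (-(2 * k)) * (2 * k + 1) := by positivity
  rcases le_or_gt (1 / 2) k with h | h
  · have ha : 0 ≤ ρ ^ 2 * Real.exp (2 * k) * (2 * k - 1) := by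
      have : 0 ≤ 2 * k - 1 := by linarith
      positivity
    positivity
  · have h4 : Real.exp (2 * k) ≤ 4 := by
      have h5 : Real.exp (2 * k) ≤ Real.exp 1 := Real.exp_le_exp.2 (by linarith)
      have h6 := Real.exp_one_lt_d9
      linarith
    have h5 : 0 < Real.exp (2 * k) := Real.exp_pos _
    have h6 : ρ ^ 2 * Real.exp (2 * k) * (1 - 2 * k) ≤ 4 * ρ := by
      have h7 : ρ ^ 2 ≤ ρ := by nlinarith
      have h8 : ρ ^ 2 * Real.exp (2 * k) ≤ ρ * 4 := by
        calc ρ ^ 2 * Real.exp (2 * k) ≤ ρ * Real.exp (2 * k) := by gcongr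
          _ ≤ ρ * 4 := by gcongr
      have h9 : 0 ≤ ρ ^ 2 * Real.exp (2 * k) := by positivity
      nlinarith
    linarith

theorem one_le_Phi_one {x : ℝ} (hx : -1 / 2 < x) : 1 ≤ Phi 1 x := by
  rw [Phi_pos_eq one_pos]
  have h := F_ge (ρ := 1) zero_le_one (kap_pos one_pos hx).le
  linarith

end LibMA34
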