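import Pool.Agent.LibMA34.KapA

namespace LibMA34

open Filter Topology

private lemma phizero_exp_le {y : ℝ} (hy : 0 < y) : Real.exp (-y) * (y + 1) ≤ 2 / y := by
  have h1 := Real.quadratic_le_exp_of_nonneg hy.le
  rw [Real.exp_neg, le_div_iff₀ hy, inv_mul_eq_div, div_mul_eq_mul_div,
    div_le_iff₀ (Real.exp_pos y)]
  nlinarith

private lemma phizero_exp_one {y : ℝ} (hy : 0 ≤ y) : Real.exp (-y) * (y + 1) ≤ 1 := by
  rw [Real.exp_neg, inv_mul_le_iff₀ (Real.exp_pos y), mul_one]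
  exact Real.add_one_le_exp y

private lemma phizero_kap {x : ℝ} (hx : 0 ≤ x) :
    Tendsto (fun ρ => kap ρ x) (𝓝[>] 0) atTop := by
  rw [tendsto_atTop]
  intro K0
  set K := max K0 1 with hK
  have hK1 : 1 ≤ K := le_max_right _ _
  have hlim : Tendsto (fun ρ : ℝ => G ρ K) (𝓝[>] 0) (𝓝 (G 0 K)) := by
    apply Tendsto.mono_left _ nhdsWithin_le_nhds
    have : Continuous (fun ρ : ℝ => G ρ K) := by unfold G; fun_prop
    exact this.tendsto 0
  have hneg : G 0 K < 2 * x := by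
    unfold G
    have : 0 < Real.exp (-K) * (K + 1) := by positivity
    linarith
  filter_upwards [hlim.eventually_lt_const hneg, self_mem_nhdsWithin] with ρ h1 h2
  have hρ : 0 < ρ := h2
  have hx' : -1 / 2 < x := by linarith
  have h3 := G_kap hρ hx'
  have h4 : K < kap ρ x := by
    by_contra hcon
    have h5 := (G_strictMonoOn hρ).monotoneOn (Set.mem_Ici.2 (kap_pos hρ hx').le)
      (Set.mem_Ici.2 (by linarith)) (not_lt.1 hcon)
    linarith
  linarith [le_max_left K0 1]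

/-- For `x ≥ 0`, `Phi(ρ,x) → 0` as `ρ → 0+`: `k → ∞`, `ρ e^k (k-1) = 2x + e^{-k}(k+1)` is bounded,
and `4 Phi = a²(2k-1) + b²(2k+1) + 4ab` with `a = ρ e^k`, `b = e^{-k}`. -/
theorem Phi_tendsto_zero {x : ℝ} (hx : 0 ≤ x) :
    Tendsto (fun ρ => Phi ρ x) (𝓝[>] 0) (𝓝 0) := by
  have hk := phizero_kap hx
  have hup : Tendsto (fun ρ : ℝ => ((8 * (2 * x + 1) ^ 2 + 1) / kap ρ x + 4 * ρ) / 4) (𝓝[>] 0)
      (𝓝 0) := by
    have h1 : Tendsto (fun ρ : ℝ => (8 * (2 * x + 1) ^ 2 + 1) / kap ρ x) (𝓝[>] 0) (𝓝 0) :=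
      hk.const_div_atTop _
    have h2 : Tendsto (fun ρ : ℝ => 4 * ρ) (𝓝[>] 0) (𝓝 0) := by
      apply Tendsto.mono_left _ nhdsWithin_le_nhds
      have : Continuous (fun ρ : ℝ => 4 * ρ) := by fun_prop
      simpa using this.tendsto 0
    simpa using (h1.add h2).div_const 4
  refine tendsto_of_tendsto_of_tendsto_of_le_of_le' tendsto_const_nhds hup ?_ ?_
  · filter_upwards [hk.eventually_ge_atTop 2, self_mem_nhdsWithin] with ρ h1 h2
    have hρ : 0 < ρ := h2
    rw [Phi_pos_eq hρ]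
    unfold F
    have : 0 ≤ 2 * kap ρ x - 1 := by linarith
    have : 0 ≤ 2 * kap ρ x + 1 := by linarith
    positivity
  · filter_upwards [hk.eventually_ge_atTop 2, self_mem_nhdsWithin] with ρ h1 h2
    have hρ : 0 < ρ := h2
    have hx' : -1 / 2 < x := by linarith
    have hG := G_kap hρ hx'
    rw [Phi_pos_eq hρ]
    set k := kap ρ x
    unfold G at hG
    unfold F
    have hk0 : 0 < k := by linarith
    set a := ρ * Real.exp k with ha
    have ha0 : 0 < a := by positivity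
    have e1 : ρ ^ 2 * Real.exp (2 * k) = a ^ 2 := by
      rw [ha, mul_pow, ← Real.exp_nat_mul]; norm_num
    have hb := phizero_exp_one hk0.le
    have ha1 : a * (k - 1) ≤ 2 * x + 1 := by
      have : ρ * Real.exp k * (k - 1) = 2 * x + Real.exp (-k) * (k + 1) := by linarith
      rw [this]; linarith
    have ha2 : a * k ≤ 2 * (2 * x + 1) := by nlinarith
    have h3 : a ^ 2 * (2 * k - 1) ≤ 8 * (2 * x + 1) ^ 2 / k := by
      rw [le_div_iff₀ hk0]
      have h4 : (a * k) ^ 2 ≤ (2 * (2 * x + 1)) ^ 2 := by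
        have : 0 ≤ a * k := by positivity
        gcongr
      nlinarith [sq_nonneg a]
    have h5 : Real.exp (-(2 * k)) * (2 * k + 1) ≤ 1 / k := by
      refine (phizero_exp_le (y := 2 * k) (by linarith)).trans (le_of_eq ?_)
      field_simp
    rw [e1]
    have h6 : (8 * (2 * x + 1) ^ 2 + 1) / k = 8 * (2 * x + 1) ^ 2 / k + 1 / k := by ring
    rw [h6]
    linarith

end LibMA34
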