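import Pool.Agent.LibMA34.PhiMono
import Pool.Agent.LibMA34.PhiLow
import Pool.Agent.LibMA34.PhiZero

namespace LibMA34

open Filter Topology

private lemma phicont_pos (n : ℕ) : (0 : ℝ) < 1 / ((n : ℝ) + 1) := by positivity

private lemma phicont_le_one (n : ℕ) : 1 / ((n : ℝ) + 1) ≤ 1 := by
  rw [div_le_one (by positivity)]
  have : (0 : ℝ) ≤ n := Nat.cast_nonneg n
  linarith

private lemma phicont_zero (x : ℝ) : Phi 0 x = ⨅ n : ℕ, Phi (1 / ((n : ℝ) + 1)) x := by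
  have h : ∀ n : ℕ, Phi (1 / ((n : ℝ) + 1)) x =
      F (1 / ((n : ℝ) + 1)) (kap (1 / ((n : ℝ) + 1)) x) := fun n => Phi_pos_eq (phicont_pos n) x
  simp_rw [h]
  unfold Phi
  rw [if_neg (lt_irrefl 0)]

private lemma phicont_bdd {x : ℝ} (hx : -1 / 2 < x) :
    BddBelow (Set.range fun n : ℕ => Phi (1 / ((n : ℝ) + 1)) x) :=
  ⟨-2 * x - 3 / 4, by rintro _ ⟨n, rfl⟩; exact Phi_ge_lin (phicont_pos n) hx⟩

private lemma phicont_zero_le {ρ x : ℝ} (hρ : 0 < ρ) (hx : -1 / 2 < x) : Phi 0 x ≤ Phi ρ x := by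
  obtain ⟨n, hn⟩ := exists_nat_one_div_lt hρ
  rw [phicont_zero]
  exact (ciInf_le (phicont_bdd hx) n).trans (Phi_mono (phicont_pos n) hn.le hx)

theorem Phi_zero_tendsto {x : ℝ} (hx : -1 / 2 < x) :
    Tendsto (fun ρ => Phi ρ x) (𝓝[>] 0) (𝓝 (Phi 0 x)) := by
  rw [tendsto_order]
  constructor
  · intro a ha
    filter_upwards [self_mem_nhdsWithin] with ρ hρ
    exact lt_of_lt_of_le ha (phicont_zero_le hρ hx)
  · intro a ha
    rw [phicont_zero] at ha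
    obtain ⟨n, hn⟩ := exists_lt_of_ciInf_lt ha
    filter_upwards [Ioc_mem_nhdsGT (phicont_pos n)] with ρ hρ
    exact lt_of_le_of_lt (Phi_mono hρ.1 hρ.2 hx) hn

theorem Phi_zero_le {ρ x : ℝ} (hρ : 0 ≤ ρ) (hx : -1 / 2 < x) : Phi 0 x ≤ Phi ρ x := by
  rcases hρ.eq_or_lt with rfl | h
  · exact le_rfl
  · exact phicont_zero_le h hx

theorem Phi_mono' {ρ ρ' x : ℝ} (hρ : 0 ≤ ρ) (h : ρ ≤ ρ') (hx : -1 / 2 < x) :
    Phi ρ x ≤ Phi ρ' x := by
  rcases hρ.eq_or_lt with rfl | h1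
  · exact Phi_zero_le h hx
  · exact Phi_mono h1 h hx

theorem Phi_ge_lin' {ρ x : ℝ} (hρ : 0 ≤ ρ) (hx : -1 / 2 < x) : -2 * x - 3 / 4 ≤ Phi ρ x := by
  refine le_trans ?_ (Phi_zero_le hρ hx)
  rw [phicont_zero]
  exact le_ciInf fun n => Phi_ge_lin (phicont_pos n) hx

theorem Phi_nonneg' {ρ x : ℝ} (hρ : 0 ≤ ρ) (hx : -1 / 2 < x) : 0 ≤ Phi ρ x := by
  refine le_trans ?_ (Phi_zero_le hρ hx)
  rw [phicont_zero]
  exact le_ciInf fun n => Phi_nonneg (phicont_pos n) (phicont_le_one n) hx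

theorem Phi_zero_of_nonneg {x : ℝ} (hx : 0 ≤ x) : Phi 0 x = 0 :=
  tendsto_nhds_unique (Phi_zero_tendsto (by linarith)) (Phi_tendsto_zero hx)

theorem Phi_zero_convexOn : ConvexOn ℝ (Set.Ioi (-1 / 2)) (fun x => Phi 0 x) := by
  refine ⟨convex_Ioi _, fun x hx y hy a b ha hb hab => ?_⟩
  have hxy : -1 / 2 < a • x + b • y := (convex_Ioi (-1 / 2 : ℝ)) hx hy ha hb hab
  refine le_of_tendsto_of_tendsto (Phi_zero_tendsto hxy)
    (((Phi_zero_tendsto hx).const_smul a).add ((Phi_zero_tendsto hy).const_smul b)) ?_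
  filter_upwards [self_mem_nhdsWithin] with ρ hρ
  exact (Phi_convexOn hρ).2 hx hy ha hb hab

end LibMA34
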