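import Pool.Agent.LibMA34.KapDer

namespace LibMA34

open Set

/-- `Phi` is nondecreasing in `ρ > 0` (its derivative is `ρ e^{2k}/2 + k > 0`). -/
theorem Phi_mono {ρ ρ' x : ℝ} (hρ : 0 < ρ) (h : ρ ≤ ρ') (hx : -1 / 2 < x) :
    Phi ρ x ≤ Phi ρ' x := by
  have hder : ∀ r ∈ Ioi (0 : ℝ), HasDerivAt (fun t => Phi t x)
      ((r * Real.exp (2 * kap r x) / 2 + kap r x) * 1 +
        2 * (r * Real.exp (kap r x) - Real.exp (-(kap r x))) * 0) r := by
    intro r hr
    exact hasDerivAt_Phi (N := fun t => t) (X := fun _ => x) (hasDerivAt_id r)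
      (hasDerivAt_const r x) hr hx
  have hmono : MonotoneOn (fun t => Phi t x) (Ioi (0 : ℝ)) := by
    apply monotoneOn_of_deriv_nonneg (convex_Ioi 0)
    · intro r hr
      exact (hder r hr).continuousAt.continuousWithinAt
    · intro r hr
      rw [interior_Ioi] at hr
      exact (hder r hr).differentiableAt.differentiableWithinAt
    · intro r hr
      rw [interior_Ioi] at hr
      rw [(hder r hr).deriv]
      have := kap_pos hr hx
      have := Real.exp_pos (2 * kap r x)
      have hr' : (0 : ℝ) < r := hr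
      nlinarith [mul_pos hr' this]
  exact hmono hρ (lt_of_lt_of_le hρ h) h

theorem kap_mono_x {ρ x y : ℝ} (hρ : 0 < ρ) (hx : -1 / 2 < x) (hxy : x ≤ y) :
    kap ρ x ≤ kap ρ y := by
  by_contra hcon
  push Not at hcon
  have hy : -1 / 2 < y := lt_of_lt_of_le hx hxy
  have := G_strictMonoOn hρ (mem_Ici.mpr (kap_pos hρ hy).le) (mem_Ici.mpr (kap_pos hρ hx).le) hcon
  rw [G_kap hρ hx, G_kap hρ hy] at this
  linarith

/-- `Phi` is convex in `x` (its derivative in `x` is `2 (ρ e^k - e^{-k})` and `k` increases). -/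
theorem Phi_convexOn {ρ : ℝ} (hρ : 0 < ρ) :
    ConvexOn ℝ (Set.Ioi (-1 / 2)) (fun x => Phi ρ x) := by
  have hder : ∀ x ∈ Ioi (-1 / 2 : ℝ), HasDerivAt (fun t => Phi ρ t)
      ((ρ * Real.exp (2 * kap ρ x) / 2 + kap ρ x) * 0 +
        2 * (ρ * Real.exp (kap ρ x) - Real.exp (-(kap ρ x))) * 1) x := by
    intro x hx
    exact hasDerivAt_Phi (N := fun _ => ρ) (X := fun t => t) (hasDerivAt_const x ρ)
      (hasDerivAt_id x) hρ hx
  apply MonotoneOn.convexOn_of_deriv (convex_Ioi _)
  · intro x hx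
    exact (hder x hx).continuousAt.continuousWithinAt
  · intro x hx
    rw [interior_Ioi] at hx
    exact (hder x hx).differentiableAt.differentiableWithinAt
  · intro x hx y hy hxy
    rw [interior_Ioi] at hx hy
    rw [(hder x hx).deriv, (hder y hy).deriv]
    have hk := kap_mono_x hρ hx hxy
    have h1 : Real.exp (kap ρ x) ≤ Real.exp (kap ρ y) := Real.exp_le_exp.mpr hk
    have h2 : Real.exp (-(kap ρ y)) ≤ Real.exp (-(kap ρ x)) := Real.exp_le_exp.mpr (by linarith)
    nlinarith [mul_le_mul_of_nonneg_left h1 hρ.le]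

end LibMA34
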