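import Pool.Agent.LibMA34.Defs

namespace LibMA34

open Filter Topology

theorem pl_circleIntegrable {n : ℕ} {W : Set (Fin n → ℂ)} {u : (Fin n → ℂ) → ℝ}
    (hu : ContinuousOn u W) {a b : Fin n → ℂ} (hab : ∀ ζ : ℂ, ‖ζ‖ ≤ 1 → a + ζ • b ∈ W) :
    CircleIntegrable (fun ζ : ℂ => u (a + ζ • b)) 0 1 := by
  apply ContinuousOn.circleIntegrable zero_le_one
  apply hu.comp
  · exact (continuous_const.add (continuous_id.smul continuous_const)).continuousOn
  · intro ζ hζ
    apply hab
    rw [mem_sphere_zero_iff_norm] at hζ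
    exact hζ.le

/-- A locally uniform limit of plurisubharmonic functions is plurisubharmonic. -/
theorem psh_of_tendsto {n : ℕ} {W : Set (Fin n → ℂ)} {v : ℕ → (Fin n → ℂ) → ℝ}
    {u : (Fin n → ℂ) → ℝ} (hv : ∀ j, PshOn W (v j)) (h : TendstoLocallyUniformlyOn v u atTop W) :
    PshOn W u := by
  have hcont : ContinuousOn u W := h.continuousOn (Filter.Eventually.frequently
    (Filter.Eventually.of_forall fun j => (hv j).1))
  refine ⟨hcont, fun a b hab => ?_⟩
  have hK : IsCompact ((fun ζ : ℂ => a + ζ • b) '' Metric.closedBall 0 1) :=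
    (isCompact_closedBall (0 : ℂ) 1).image
      (continuous_const.add (continuous_id.smul continuous_const))
  have hKW : ((fun ζ : ℂ => a + ζ • b) '' Metric.closedBall 0 1) ⊆ W := by
    rintro _ ⟨ζ, hζ, rfl⟩
    exact hab ζ (by simpa using hζ)
  have hunif : TendstoUniformlyOn v u atTop ((fun ζ : ℂ => a + ζ • b) '' Metric.closedBall 0 1) :=
    (tendstoLocallyUniformlyOn_iff_tendstoUniformlyOn_of_compact hK).1 (h.mono hKW)
  have hint := pl_circleIntegrable hcont hab
  apply le_of_forall_pos_le_add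
  intro ε hε
  have hev := (Metric.tendstoUniformlyOn_iff.1 hunif) (ε / 2) (by positivity)
  obtain ⟨j, hj⟩ := hev.exists
  have ha : a ∈ ((fun ζ : ℂ => a + ζ • b) '' Metric.closedBall 0 1) :=
    ⟨0, by simp, by simp⟩
  have h1 := hj a ha
  rw [Real.dist_eq, abs_lt] at h1
  have h2 := (hv j).2 a b hab
  have h3 : Real.circleAverage (fun ζ : ℂ => v j (a + ζ • b)) 0 1 ≤
      Real.circleAverage (fun ζ : ℂ => u (a + ζ • b) + ε / 2) 0 1 := by
    apply Real.circleAverage_mono (pl_circleIntegrable (hv j).1 hab)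
    · exact hint.add (circleIntegrable_const _ _ _)
    · intro ζ hζ
      have h4 : ζ ∈ Metric.closedBall (0 : ℂ) 1 := by
        rw [mem_sphere_zero_iff_norm, abs_one] at hζ
        simp [hζ]
      have h5 := hj (a + ζ • b) ⟨ζ, h4, rfl⟩
      rw [Real.dist_eq, abs_lt] at h5
      linarith [h5.1]
  have h6 : Real.circleAverage (fun ζ : ℂ => u (a + ζ • b) + ε / 2) 0 1 =
      Real.circleAverage (fun ζ : ℂ => u (a + ζ • b)) 0 1 + ε / 2 := by
    have := Real.circleAverage_add hint (circleIntegrable_const (ε / 2) (0 : ℂ) 1)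
    rw [Real.circleAverage_const] at this
    exact this
  rw [h6] at h3
  linarith [h1.2]

theorem psh_sub_const {n : ℕ} {W : Set (Fin n → ℂ)} {u : (Fin n → ℂ) → ℝ} (hu : PshOn W u)
    (c : ℝ) : PshOn W (fun z => u z - c) := by
  refine ⟨hu.1.sub continuousOn_const, fun a b hab => ?_⟩
  have hint := pl_circleIntegrable hu.1 hab
  have h6 : Real.circleAverage (fun ζ : ℂ => u (a + ζ • b) - c) 0 1 =
      Real.circleAverage (fun ζ : ℂ => u (a + ζ • b)) 0 1 - c := by
    have := Real.circleAverage_sub hint (circleIntegrable_const c (0 : ℂ) 1)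
    rw [Real.circleAverage_const] at this
    exact this
  show u a - c ≤ Real.circleAverage (fun ζ : ℂ => u (a + ζ • b) - c) 0 1
  rw [h6]
  linarith [hu.2 a b hab]

theorem psh_mono {n : ℕ} {W W' : Set (Fin n → ℂ)} (h : W' ⊆ W) {u : (Fin n → ℂ) → ℝ}
    (hu : PshOn W u) : PshOn W' u :=
  ⟨hu.1.mono h, fun a b hab => hu.2 a b fun ζ hζ => h (hab ζ hζ)⟩

end LibMA34
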