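import Pool.Agent.LibMA34.Cln
import Pool.Agent.LibMA34.ClnA
import Pool.Agent.LibMA34.LocMA

namespace LibMA34

open MeasureTheory Filter Topology
open scoped ContDiff

theorem continuous_D2 {n : ℕ} {φ : (Fin n → ℂ) → ℝ} (hφ : ContDiff ℝ ∞ φ) (a b : Fin n → ℂ) :
    Continuous (D2 φ a b) := by
  have h1 : ContDiff ℝ ∞ (fun y => fderiv ℝ φ y b) :=
    (hφ.fderiv_right (m := ∞) (by simp)).clm_apply contDiff_const
  exact (h1.continuous_fderiv (by simp)).clm_apply continuous_const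

theorem D2_eq_zero_of_notMem {n : ℕ} {φ : (Fin n → ℂ) → ℝ} {z : Fin n → ℂ} (hz : z ∉ tsupport φ)
    (a b : Fin n → ℂ) : D2 φ a b z = 0 := by
  unfold D2
  have h1 : (fun y => fderiv ℝ φ y b) =ᶠ[𝓝 z] fun _ => 0 := by
    have : (tsupport φ)ᶜ ∈ 𝓝 z := (isClosed_tsupport φ).isOpen_compl.mem_nhds hz
    filter_upwards [this] with y hy
    have h2 : φ =ᶠ[𝓝 y] fun _ => 0 := by
      have : (tsupport φ)ᶜ ∈ 𝓝 y := (isClosed_tsupport φ).isOpen_compl.mem_nhds hy
      filter_upwards [this] with x hx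
      exact image_eq_zero_of_notMem_tsupport hx
    rw [h2.fderiv_eq]; simp
  rw [h1.fderiv_eq]; simp

/-- Two sequences of smooth plurisubharmonic functions with the same locally uniform limit have the
same limit of Monge-Ampere measures. -/
theorem stability {W : Set (Fin 2 → ℂ)} (hW : IsOpen W) {v v' : ℕ → (Fin 2 → ℂ) → ℝ}
    {u : (Fin 2 → ℂ) → ℝ} (hv : SmoothPshApprox W v u) (hv' : SmoothPshApprox W v' u)
    {φ : (Fin 2 → ℂ) → ℝ} (hφ : ContDiff ℝ ∞ φ) (hφc : HasCompactSupport φ)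
    (hφs : tsupport φ ⊆ W) :
    Tendsto (fun j => (∫ z, φ z * maDensity (v j) z) - ∫ z, φ z * maDensity (v' j) z) atTop
      (𝓝 0) := by
  set K := tsupport φ with hKdef
  have hK : IsCompact K := hφc
  obtain ⟨L, hL, hLW, C, hCnn, hcln⟩ := cln hW hK hφs
  -- bound for the second derivatives of φ
  obtain ⟨C1, hC1⟩ : ∃ C1, ∀ z ∈ K, |hA φ z| ≤ C1 ∧ |hB φ z| ≤ C1 ∧ |hC φ z| ≤ C1 ∧ |hE φ z| ≤ C1 := by
    have cA : Continuous (hA φ) := (continuous_D2 hφ _ _).add (continuous_D2 hφ _ _)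
    have cB : Continuous (hB φ) := (continuous_D2 hφ _ _).add (continuous_D2 hφ _ _)
    have cC : Continuous (hC φ) := (continuous_D2 hφ _ _).add (continuous_D2 hφ _ _)
    have cE : Continuous (hE φ) := (continuous_D2 hφ _ _).sub (continuous_D2 hφ _ _)
    obtain ⟨M, hM⟩ := (hK.image (((cA.abs.add cB.abs).add cC.abs).add cE.abs)).bddAbove
    refine ⟨M, fun z hz => ?_⟩
    have h := hM ⟨z, hz, rfl⟩
    simp only [Pi.add_apply] at h
    have h1 := abs_nonneg (hA φ z)
    have h2 := abs_nonneg (hB φ z)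
    have h3 := abs_nonneg (hC φ z)
    have h4 := abs_nonneg (hE φ z)
    refine ⟨?_, ?_, ?_, ?_⟩ <;> linarith
  have hC1' : ∀ z ∈ K, 0 ≤ C1 := fun z hz => (abs_nonneg _).trans (hC1 z hz).1
  -- bound for the functions on L
  have hucont : ContinuousOn u W := hv.2.continuousOn
    (Frequently.of_forall fun j => (hv.1 j).2.1)
  obtain ⟨M0, hM0⟩ : ∃ M0, ∀ z ∈ L, |u z| ≤ M0 := by
    obtain ⟨M, hM⟩ := (hL.image_of_continuousOn (hucont.mono hLW).abs).bddAbove
    exact ⟨M, fun z hz => hM ⟨z, hz, rfl⟩⟩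
  have hUL : ∀ w : ℕ → (Fin 2 → ℂ) → ℝ, TendstoLocallyUniformlyOn w u atTop W →
      ∀ S : Set (Fin 2 → ℂ), IsCompact S → S ⊆ W → ∀ ε > 0, ∀ᶠ j in atTop, ∀ z ∈ S,
        |u z - w j z| < ε := by
    intro w hw S hS hSW ε hε
    have h1 := (tendstoLocallyUniformlyOn_iff_forall_isCompact hW).mp hw S hSW hS
    rw [Metric.tendstoUniformlyOn_iff] at h1
    filter_upwards [h1 ε hε] with j hj z hz
    have := hj z hz
    rwa [Real.dist_eq] at this
  -- the main estimate
  set B : ℝ := 3 * |C1| * (C * (2 * |M0| + 2)) with hB'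
  have hBnn : 0 ≤ B := by positivity
  rw [Metric.tendsto_nhds]
  intro ε hε
  have hη : 0 < ε / (B + 1) := by positivity
  filter_upwards [hUL v hv.2 L hL hLW 1 one_pos, hUL v' hv'.2 L hL hLW 1 one_pos,
    hUL v hv.2 K hK hφs (ε / (B + 1) / 2) (by positivity),
    hUL v' hv'.2 K hK hφs (ε / (B + 1) / 2) (by positivity)] with j h1 h2 h3 h4
  rw [Real.dist_eq, sub_zero, integral_ma_sub hW (hv.1 j).1 (hv'.1 j).1 hφ hφc hφs]
  set w : (Fin 2 → ℂ) → ℝ := fun y => v j y + v' j y with hw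
  have hwS : ContDiffOn ℝ ∞ w W := (hv.1 j).1.add (hv'.1 j).1
  have hwP : PshOn W w := by
    refine ⟨(hv.1 j).2.1.add (hv'.1 j).2.1, fun a b hab => ?_⟩
    have hci : ∀ f : (Fin 2 → ℂ) → ℝ, ContinuousOn f W →
        CircleIntegrable (fun ζ : ℂ => f (a + ζ • b)) 0 1 := by
      intro f hf
      apply ContinuousOn.circleIntegrable zero_le_one
      refine hf.comp (by fun_prop) ?_
      intro ζ hζ
      apply hab
      rw [mem_sphere_zero_iff_norm] at hζ
      exact hζ.le
    have h5 := (hv.1 j).2.2 a b hab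
    have h6 := (hv'.1 j).2.2 a b hab
    have h7 := Real.circleAverage_add (hci _ (hv.1 j).2.1) (hci _ (hv'.1 j).2.1)
    have h8 : (fun ζ : ℂ => w (a + ζ • b)) =
        (fun ζ : ℂ => v j (a + ζ • b)) + (fun ζ : ℂ => v' j (a + ζ • b)) := rfl
    rw [h8, h7]
    exact add_le_add h5 h6
  have hwL : ∀ z ∈ L, |w z| ≤ 2 * |M0| + 2 := by
    intro z hz
    have e1 := h1 z hz
    have e2 := h2 z hz
    have e3 := (hM0 z hz).trans (le_abs_self M0)
    rw [abs_lt] at e1 e2
    rw [abs_le] at e3 ⊢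
    simp only [hw]
    constructor <;> linarith
  have hcl := hcln w hwS hwP (2 * |M0| + 2) hwL
  -- integrability of hA w + hB w on K
  have hD2c : ∀ a b, ContinuousOn (D2 w a b) W := by
    intro a b
    have e1 : ContDiffOn ℝ ∞ (fun y => fderiv ℝ w y b) W :=
      (hwS.fderiv_of_isOpen hW (m := ∞) (by simp)).clm_apply contDiffOn_const
    exact (e1.continuousOn_fderiv_of_isOpen hW (by simp)).clm_apply continuousOn_const
  have hABc : ContinuousOn (fun z => hA w z + hB w z) K :=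
    (((hD2c _ _).add (hD2c _ _)).add ((hD2c _ _).add (hD2c _ _))).mono hφs
  have hABi : IntegrableOn (fun z => hA w z + hB w z) K := hABc.integrableOn_compact hK
  -- pointwise bound
  have hpt : ∀ z, ‖(v j z - v' j z) * mix φ w z‖ ≤
      K.indicator (fun z => (ε / (B + 1)) * (3 * |C1|) * (hA w z + hB w z)) z := by
    intro z
    by_cases hz : z ∈ K
    · rw [Set.indicator_of_mem hz, Real.norm_eq_abs, abs_mul]
      have e1 := h3 z hz
      have e2 := h4 z hz
      have e3 : |v j z - v' j z| ≤ ε / (B + 1) := by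
        rw [abs_lt] at e1 e2
        rw [abs_le]; constructor <;> linarith
      have hLv : ∀ b, 0 ≤ D2 w b b z + D2 w (Complex.I • b) (Complex.I • b) z := fun b =>
        levi_of_psh hW (hwS.of_le (WithTop.coe_le_coe.mpr le_top)) hwP (hφs hz) b
      have hwAt : ContDiffAt ℝ 2 w z :=
        (hwS.contDiffAt (hW.mem_nhds (hφs hz))).of_le (WithTop.coe_le_coe.mpr le_top)
      obtain ⟨b1, b2, b3, b4⟩ := hC1 z hz
      have e4 := abs_mix_le hwAt hLv b1 b2 b3 b4
      have e5 : |C1| = C1 := abs_of_nonneg (hC1' z hz)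
      rw [e5]
      calc |v j z - v' j z| * |mix φ w z| ≤ ε / (B + 1) * (3 * C1 * (hA w z + hB w z)) :=
            mul_le_mul e3 e4 (abs_nonneg _) (by positivity)
        _ = _ := by ring
    · rw [Set.indicator_of_notMem hz]
      have : mix φ w z = 0 := by
        unfold mix hA hB hC hE
        simp only [D2_eq_zero_of_notMem hz]
        ring
      rw [this]; simp
  have hint : Integrable (K.indicator
      (fun z => (ε / (B + 1)) * (3 * |C1|) * (hA w z + hB w z))) := by
    rw [integrable_indicator_iff hK.measurableSet]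
    exact hABi.const_mul _
  have hbound : ‖∫ z, (v j z - v' j z) * mix φ w z‖ ≤
      (ε / (B + 1)) * (3 * |C1|) * (C * (2 * |M0| + 2)) := by
    refine (norm_integral_le_of_norm_le hint (Eventually.of_forall hpt)).trans ?_
    rw [integral_indicator hK.measurableSet, integral_const_mul]
    exact mul_le_mul_of_nonneg_left hcl (by positivity)
  rw [Real.norm_eq_abs] at hbound
  rw [abs_mul, abs_of_pos (by norm_num : (0 : ℝ) < 1 / 32)]
  have e6 : (ε / (B + 1)) * (3 * |C1|) * (C * (2 * |M0| + 2)) = ε * (B / (B + 1)) := by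
    rw [hB']; ring
  have e7 : B / (B + 1) < 1 := by
    rw [div_lt_one (by positivity)]; linarith
  rw [e6] at hbound
  have e8 : ε * (B / (B + 1)) < ε := by nlinarith
  nlinarith [abs_nonneg (∫ z, (v j z - v' j z) * mix φ w z)]

end LibMA34
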