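import Pool.Agent.LibMA34.Defs
import Pool.Agent.LibMA34.SubLap

namespace LibMA34

open Filter Topology

namespace SubPshAux

variable {n : ℕ}

theorem hasFDerivAt_line (a b : Fin n → ℂ) (z : ℂ) :
    HasFDerivAt (fun ζ : ℂ => a + ζ • b) ((ContinuousLinearMap.id ℝ ℂ).smulRight b) z :=
  ((hasFDerivAt_id z).smul_const b).const_add a

theorem continuous_line (a b : Fin n → ℂ) : Continuous (fun ζ : ℂ => a + ζ • b) := by
  fun_prop

theorem contDiff_line (a b : Fin n → ℂ) : ContDiff ℝ 2 (fun ζ : ℂ => a + ζ • b) := by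
  fun_prop

theorem fderiv_line {W : Set (Fin n → ℂ)} (hW : IsOpen W) {u : (Fin n → ℂ) → ℝ}
    (hu : ContDiffOn ℝ 2 u W) (a b : Fin n → ℂ) (c : ℂ) {z : ℂ} (hz : a + z • b ∈ W) :
    fderiv ℝ (fun ζ : ℂ => u (a + ζ • b)) z c = fderiv ℝ u (a + z • b) (c • b) := by
  have h1 : HasFDerivAt u (fderiv ℝ u (a + z • b)) (a + z • b) :=
    ((hu.contDiffAt (hW.mem_nhds hz)).differentiableAt (by norm_num)).hasFDerivAt
  have h2 : HasFDerivAt (fun ζ : ℂ => u (a + ζ • b))
      ((fderiv ℝ u (a + z • b)).comp ((ContinuousLinearMap.id ℝ ℂ).smulRight b)) z :=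
    HasFDerivAt.comp z h1 (hasFDerivAt_line a b z)
  rw [h2.fderiv]
  simp

theorem D2_line {W : Set (Fin n → ℂ)} (hW : IsOpen W) {u : (Fin n → ℂ) → ℝ}
    (hu : ContDiffOn ℝ 2 u W) (a b : Fin n → ℂ) (c d : ℂ) {z : ℂ} (hz : a + z • b ∈ W) :
    fderiv ℝ (fun y => fderiv ℝ (fun ζ : ℂ => u (a + ζ • b)) y c) z d =
      D2 u (d • b) (c • b) (a + z • b) := by
  have hnhds : ∀ᶠ y in 𝓝 z, a + y • b ∈ W :=
    (continuous_line a b).continuousAt.eventually_mem (hW.mem_nhds hz)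
  have he : (fun y => fderiv ℝ (fun ζ : ℂ => u (a + ζ • b)) y c) =ᶠ[𝓝 z]
      fun y => (fun p => fderiv ℝ u p (c • b)) (a + y • b) := by
    filter_upwards [hnhds] with y hy
    exact fderiv_line hW hu a b c hy
  rw [he.fderiv_eq]
  have h3 : DifferentiableAt ℝ (fun p => fderiv ℝ u p (c • b)) (a + z • b) := by
    have h4 : ContDiffAt ℝ 1 (fderiv ℝ u) (a + z • b) :=
      (hu.contDiffAt (hW.mem_nhds hz)).fderiv_right (by norm_num)
    exact (h4.differentiableAt (by norm_num)).clm_apply (differentiableAt_const _)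
  have h2 : HasFDerivAt (fun y : ℂ => (fun p => fderiv ℝ u p (c • b)) (a + y • b))
      ((fderiv ℝ (fun p => fderiv ℝ u p (c • b)) (a + z • b)).comp
        ((ContinuousLinearMap.id ℝ ℂ).smulRight b)) z :=
    HasFDerivAt.comp (g := fun p => fderiv ℝ u p (c • b)) z h3.hasFDerivAt
      (hasFDerivAt_line a b z)
  rw [h2.fderiv, D2]
  simp

end SubPshAux

open SubPshAux

/-- A `C²` function with nonnegative Levi form is plurisubharmonic. -/
theorem psh_of_levi {n : ℕ} {W : Set (Fin n → ℂ)} (hW : IsOpen W) {u : (Fin n → ℂ) → ℝ}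
    (hu : ContDiffOn ℝ 2 u W)
    (hL : ∀ z ∈ W, ∀ b, 0 ≤ D2 u b b z + D2 u (Complex.I • b) (Complex.I • b) z) : PshOn W u := by
  refine ⟨hu.continuousOn, fun a b hab => ?_⟩
  have h := submean_of_laplacian (h := fun ζ : ℂ => u (a + ζ • b))
    (W := (fun ζ : ℂ => a + ζ • b) ⁻¹' W) (hW.preimage (continuous_line a b))
    (fun ζ hζ => hab ζ (mem_closedBall_zero_iff.1 hζ))
    (hu.comp (contDiff_line a b).contDiffOn (Set.mapsTo_preimage _ _)) ?_
  · simpa using h
  · intro z hz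
    rw [D2_line hW hu a b 1 1 hz, D2_line hW hu a b Complex.I Complex.I hz, one_smul]
    exact hL _ hz b

end LibMA34
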