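import Pool.Agent.LibMA34.PhiCont
import Pool.Agent.LibMA34.USmooth

namespace LibMA34

open Filter Topology

theorem continuousOn_log_w : ContinuousOn (fun p : Fin 2 → ℂ => Real.log ‖p 1‖) VV := by
  apply ContinuousOn.log
  · exact (continuous_norm.comp (continuous_apply 1)).continuousOn
  · intro p hp
    exact norm_ne_zero_iff.mpr (log_of_mem_VV hp).2

theorem Ud_continuousOn {δ : ℝ} (hδ : 0 ≤ δ) : ContinuousOn (Ud δ) VV := by
  unfold Ud
  refine ContinuousOn.add ?_ (continuousOn_log_w.div_const 4)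
  have h1 : ContinuousOn (fun p : Fin 2 → ℂ => (‖p 0 * p 1‖ ^ 2 + δ, Real.log ‖p 1‖)) VV := by
    refine ContinuousOn.prodMk ?_ continuousOn_log_w
    exact Continuous.continuousOn (by fun_prop)
  exact Phi_continuousOn.comp h1 fun p hp => ⟨by positivity, (log_of_mem_VV hp).1⟩

end LibMA34
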