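import Pool.Agent.LibMA34.ULevi
import Pool.Agent.LibMA34.MAlevi

namespace LibMA34

open scoped ComplexConjugate

theorem Ud_ma {δ : ℝ} (hδ : 0 < δ) {p : Fin 2 → ℂ} (hp : p ∈ VV) :
    maDensity (Ud δ) p = 1 + δ * Real.exp (2 * kk δ p) / (2 * kk δ p) := by
  obtain ⟨hlog, hp1⟩ := log_of_mem_VV hp
  have hk : 0 < kk δ p := kap_pos (by positivity) hlog
  have hu : ContDiffAt ℝ 2 (Ud δ) p :=
    ((Ud_contDiffOn hδ).contDiffAt (VV_isOpen.mem_nhds hp)).of_le (WithTop.coe_le_coe.mpr le_top)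
  have h := maDensity_of_levi hu (P := kk δ p + δ * Real.exp (2 * kk δ p) / 2) (Q := 1 / kk δ p)
    (α := ![p 1, p 0])
    (β := ![(Real.exp (kk δ p) : ℂ) * conj (p 0 * p 1) * p 1,
      1 / p 1 + (Real.exp (kk δ p) : ℂ) * conj (p 0 * p 1) * p 0]) ?_
  · rw [h]
    have h1 : (![p 1, p 0] : Fin 2 → ℂ) 0 * (![(Real.exp (kk δ p) : ℂ) * conj (p 0 * p 1) * p 1,
      1 / p 1 + (Real.exp (kk δ p) : ℂ) * conj (p 0 * p 1) * p 0] : Fin 2 → ℂ) 1 -
      (![p 1, p 0] : Fin 2 → ℂ) 1 * (![(Real.exp (kk δ p) : ℂ) * conj (p 0 * p 1) * p 1,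
      1 / p 1 + (Real.exp (kk δ p) : ℂ) * conj (p 0 * p 1) * p 0] : Fin 2 → ℂ) 0 = 1 := by
      simp only [Matrix.cons_val_zero, Matrix.cons_val_one]
      field_simp
      ring
    rw [h1, norm_one]
    field_simp
  · intro b
    rw [Ud_levi hδ hp b]
    simp only [Matrix.cons_val_zero, Matrix.cons_val_one]
    have e1 : b 1 / p 1 + (Real.exp (kk δ p) : ℂ) * conj (p 0 * p 1) * (p 1 * b 0 + p 0 * b 1) =
        (Real.exp (kk δ p) : ℂ) * conj (p 0 * p 1) * p 1 * b 0 +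
          (1 / p 1 + (Real.exp (kk δ p) : ℂ) * conj (p 0 * p 1) * p 0) * b 1 := by ring
    rw [e1]

end LibMA34
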