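import Pool.Agent.LibMA34.UCont

namespace LibMA34

open Filter Topology

/-- Dini's theorem: `U^{1/(n+1)}` decreases to `U^0`, so the convergence is locally uniform. -/
theorem Ud_tendsto :
    TendstoLocallyUniformlyOn (fun n : ℕ => Ud (1 / ((n : ℝ) + 1))) (Ud 0) atTop VV := by
  refine Antitone.tendstoLocallyUniformlyOn_of_forall_tendsto (fun n => Ud_continuousOn ?_) ?_
    (Ud_continuousOn le_rfl) ?_
  · positivity
  · intro p hp n m hnm
    have hx := (log_of_mem_VV hp).1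
    have h1 : (1 : ℝ) / ((m : ℝ) + 1) ≤ 1 / ((n : ℝ) + 1) := by
      apply one_div_le_one_div_of_le (by positivity)
      have : (n : ℝ) ≤ m := by exact_mod_cast hnm
      linarith
    have h2 : (0 : ℝ) ≤ ‖p 0 * p 1‖ ^ 2 + 1 / ((m : ℝ) + 1) := by positivity
    have h3 := Phi_mono' h2 (add_le_add_right h1 (‖p 0 * p 1‖ ^ 2)) hx
    simp only [Ud]
    linarith
  · intro p hp
    have hx := (log_of_mem_VV hp).1
    have h0 : ((‖p 0 * p 1‖ ^ 2 + 0, Real.log ‖p 1‖) : ℝ × ℝ) ∈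
        {q : ℝ × ℝ | 0 ≤ q.1 ∧ -1 / 2 < q.2} := by
      refine ⟨?_, hx⟩
      show (0 : ℝ) ≤ ‖p 0 * p 1‖ ^ 2 + 0
      positivity
    have hc := Phi_continuousOn _ h0
    have ht : Tendsto (fun n : ℕ => ((‖p 0 * p 1‖ ^ 2 + 1 / ((n : ℝ) + 1), Real.log ‖p 1‖) : ℝ × ℝ))
        atTop (𝓝[{q : ℝ × ℝ | 0 ≤ q.1 ∧ -1 / 2 < q.2}] (‖p 0 * p 1‖ ^ 2 + 0, Real.log ‖p 1‖)) := by
      refine tendsto_nhdsWithin_iff.2 ⟨?_, ?_⟩
      · refine Tendsto.prodMk_nhds ?_ tendsto_const_nhds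
        exact tendsto_const_nhds.add tendsto_one_div_add_atTop_nhds_zero_nat
      · refine Eventually.of_forall fun n => ⟨?_, hx⟩
        show (0 : ℝ) ≤ ‖p 0 * p 1‖ ^ 2 + 1 / ((n : ℝ) + 1)
        positivity
    have h1 := (Tendsto.comp hc ht).add_const (Real.log ‖p 1‖ / 4)
    exact h1

end LibMA34
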