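import Pool.Agent.LibMA34.KapA
import Pool.Agent.LibMA34.USmooth

namespace LibMA34

open Filter Topology MeasureTheory

theorem uerr_integrable_f1 : Integrable (fun z : ℂ => 1 / (‖z‖ ^ 2 + 1) ^ 2) := by
  have h := integrable_rpow_neg_one_add_norm_sq (E := ℂ) (μ := volume) (r := 4)
    (by rw [Complex.finrank_real_complex]; norm_num)
  refine h.congr (Filter.Eventually.of_forall fun z => ?_)
  simp only []
  rw [show (-4 / 2 : ℝ) = ((-2 : ℤ) : ℝ) by norm_num, Real.rpow_intCast, zpow_neg, one_div,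
    add_comm]
  norm_cast

theorem uerr_fdelta_eq {δ : ℝ} (hδ : 0 < δ) : (fun z : ℂ => δ / (‖z‖ ^ 2 + δ) ^ 2) =
    fun z : ℂ => δ⁻¹ * (fun z : ℂ => 1 / (‖z‖ ^ 2 + 1) ^ 2) ((Real.sqrt δ)⁻¹ • z) := by
  funext z
  simp only [norm_smul, norm_inv, Real.norm_eq_abs, abs_of_nonneg (Real.sqrt_nonneg δ), mul_pow,
    inv_pow, Real.sq_sqrt hδ.le]
  have h1 : 0 < ‖z‖ ^ 2 + δ := by positivity
  have h2 : δ⁻¹ * ‖z‖ ^ 2 + 1 = (‖z‖ ^ 2 + δ) / δ := by field_simp
  rw [h2]
  field_simp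

theorem uerr_integrable_fdelta {δ : ℝ} (hδ : 0 < δ) :
    Integrable (fun z : ℂ => δ / (‖z‖ ^ 2 + δ) ^ 2) := by
  rw [uerr_fdelta_eq hδ]
  have hne : (Real.sqrt δ)⁻¹ ≠ 0 := by positivity
  exact ((integrable_comp_smul_iff volume (fun z : ℂ => 1 / (‖z‖ ^ 2 + 1) ^ 2) hne).2
    uerr_integrable_f1).const_mul _

theorem uerr_integral_fdelta {δ : ℝ} (hδ : 0 < δ) :
    ∫ z : ℂ, δ / (‖z‖ ^ 2 + δ) ^ 2 = ∫ z : ℂ, 1 / (‖z‖ ^ 2 + 1) ^ 2 := by
  have h := Measure.integral_comp_inv_smul_of_nonneg (volume : Measure ℂ)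
    (fun z : ℂ => 1 / (‖z‖ ^ 2 + 1) ^ 2) (Real.sqrt_nonneg δ)
  rw [uerr_fdelta_eq hδ, integral_const_mul, h,
    Complex.finrank_real_complex, Real.sq_sqrt hδ.le, smul_eq_mul, ← mul_assoc,
    inv_mul_cancel₀ hδ.ne', one_mul]

/-- The product function and its integral. -/
theorem uerr_prod (R : ℝ) {δ : ℝ} (hδ : 0 < δ) :
    Integrable (fun p : Fin 2 → ℂ => δ / (‖p 0‖ ^ 2 + δ) ^ 2 *
      (Metric.closedBall (0 : ℂ) R).indicator (fun _ => (1 : ℝ)) (p 1)) ∧
    ∫ p : Fin 2 → ℂ, δ / (‖p 0‖ ^ 2 + δ) ^ 2 *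
      (Metric.closedBall (0 : ℂ) R).indicator (fun _ => (1 : ℝ)) (p 1) =
      (∫ z : ℂ, 1 / (‖z‖ ^ 2 + 1) ^ 2) * volume.real (Metric.closedBall (0 : ℂ) R) := by
  set f : Fin 2 → ℂ → ℝ := ![fun z : ℂ => δ / (‖z‖ ^ 2 + δ) ^ 2,
    (Metric.closedBall (0 : ℂ) R).indicator (fun _ => (1 : ℝ))] with hf
  have hind : Integrable ((Metric.closedBall (0 : ℂ) R).indicator (fun _ => (1 : ℝ))) := by
    rw [integrable_indicator_iff measurableSet_closedBall]
    exact integrableOn_const (measure_closedBall_lt_top).ne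
  have e : (fun p : Fin 2 → ℂ => δ / (‖p 0‖ ^ 2 + δ) ^ 2 *
      (Metric.closedBall (0 : ℂ) R).indicator (fun _ => (1 : ℝ)) (p 1)) =
      fun p => ∏ i, f i (p i) := by
    funext p
    rw [Fin.prod_univ_two]
    rfl
  constructor
  · rw [e]
    apply Integrable.fintype_prod_dep
    intro i
    fin_cases i
    · exact uerr_integrable_fdelta hδ
    · exact hind
  · rw [e, integral_fintype_prod_volume_eq_prod, Fin.prod_univ_two]
    have e0 : ∫ x : ℂ, f 0 x = ∫ z : ℂ, 1 / (‖z‖ ^ 2 + 1) ^ 2 := uerr_integral_fdelta hδ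
    have e1 : ∫ x : ℂ, f 1 x = volume.real (Metric.closedBall (0 : ℂ) R) := by
      have : f 1 = (Metric.closedBall (0 : ℂ) R).indicator (fun _ => (1 : ℝ)) := rfl
      rw [this, integral_indicator_const _ measurableSet_closedBall]
      simp
    rw [e0, e1]

/-- Lower bound for `k`. -/
theorem uerr_kap_lower {ρ x x0 : ℝ} (hρ : 0 < ρ) (hx0 : -1 / 2 < x0) (hx : x0 ≤ x) :
    min 1 (Real.sqrt (1 + 2 * x0)) ≤ kap ρ x := by
  have hx' : -1 / 2 < x := hx0.trans_le hx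
  have hk := kap_pos hρ hx'
  have hG := G_kap hρ hx'
  set k := kap ρ x
  by_contra hcon
  push Not at hcon
  have h1 : k < 1 := hcon.trans_le (min_le_left _ _)
  have h2 : k < Real.sqrt (1 + 2 * x0) := hcon.trans_le (min_le_right _ _)
  have h3 : ρ * Real.exp k * (k - 1) ≤ 0 := by
    apply mul_nonpos_of_nonneg_of_nonpos (by positivity) (by linarith)
  have h4 : 1 - k ≤ Real.exp (-k) := by have := Real.add_one_le_exp (-k); linarith
  have h5 : (1 - k) * (k + 1) ≤ Real.exp (-k) * (k + 1) :=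
    mul_le_mul_of_nonneg_right h4 (by linarith)
  have h6 : k ^ 2 < 1 + 2 * x0 := by
    have := Real.lt_sqrt hk.le |>.1 h2
    exact this
  unfold G at hG
  nlinarith

/-- Upper bound for `δ e^{2k}/(2k)`. -/
theorem uerr_pointwise {ρ x x0 x1 M δ : ℝ} (hρ : 0 < ρ) (hδ : 0 < δ) (hx0 : -1 / 2 < x0)
    (hx : x0 ≤ x) (hx1 : x ≤ x1) (hM : 2 ≤ M) :
    δ * Real.exp (2 * kap ρ x) / (2 * kap ρ x) ≤
      δ * (Real.exp (2 * M) / (2 * min 1 (Real.sqrt (1 + 2 * x0)))) +
        (2 * x1 + 1) ^ 2 / (M - 1) ^ 2 * (δ / ρ ^ 2) := by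
  have hx' : -1 / 2 < x := hx0.trans_le hx
  have hk := kap_pos hρ hx'
  have hG := G_kap hρ hx'
  have hlow := uerr_kap_lower hρ hx0 hx
  set k := kap ρ x
  have hk0 : 0 < min 1 (Real.sqrt (1 + 2 * x0)) :=
    lt_min one_pos (Real.sqrt_pos.2 (by linarith))
  rcases le_total k M with h | h
  · have h1 : δ * Real.exp (2 * k) / (2 * k) ≤
        δ * Real.exp (2 * M) / (2 * min 1 (Real.sqrt (1 + 2 * x0))) := by
      apply div_le_div₀ (by positivity) _ (by positivity) (by linarith)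
      exact mul_le_mul_of_nonneg_left (Real.exp_le_exp.2 (by linarith)) hδ.le
    have h2 : 0 ≤ (2 * x1 + 1) ^ 2 / (M - 1) ^ 2 * (δ / ρ ^ 2) := by positivity
    rw [mul_div_assoc δ (Real.exp (2 * M))] at h1
    linarith
  · have hk1 : 0 < k - 1 := by linarith
    have hM1 : 0 < M - 1 := by linarith
    have e1 : Real.exp (-k) * (k + 1) ≤ 1 := by
      rw [Real.exp_neg, inv_mul_le_iff₀ (Real.exp_pos _), mul_one]
      exact Real.add_one_le_exp k
    have e2 : ρ * Real.exp k * (k - 1) ≤ 2 * x1 + 1 := by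
      unfold G at hG; linarith
    have e3 : ρ * Real.exp k * (M - 1) ≤ 2 * x1 + 1 := by
      refine le_trans (mul_le_mul_of_nonneg_left (by linarith) (by positivity)) e2
    have e4 : Real.exp k ≤ (2 * x1 + 1) / (ρ * (M - 1)) := by
      rw [le_div_iff₀ (by positivity)]; linarith
    have e5 : Real.exp (2 * k) ≤ ((2 * x1 + 1) / (ρ * (M - 1))) ^ 2 := by
      have : Real.exp (2 * k) = Real.exp k ^ 2 := by
        rw [← Real.exp_nat_mul]; norm_num
      rw [this]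
      exact pow_le_pow_left₀ (Real.exp_pos _).le e4 2
    have e6 : δ * Real.exp (2 * k) / (2 * k) ≤ δ * Real.exp (2 * k) := by
      apply div_le_self (by positivity) (by linarith)
    have e7 : δ * Real.exp (2 * k) ≤ δ * ((2 * x1 + 1) / (ρ * (M - 1))) ^ 2 :=
      mul_le_mul_of_nonneg_left e5 hδ.le
    have e8 : δ * ((2 * x1 + 1) / (ρ * (M - 1))) ^ 2 =
        (2 * x1 + 1) ^ 2 / (M - 1) ^ 2 * (δ / ρ ^ 2) := by
      field_simp
    have e9 : 0 ≤ δ * (Real.exp (2 * M) / (2 * min 1 (Real.sqrt (1 + 2 * x0)))) := by positivity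
    linarith

/-- The error term: `∫ φ δ e^{2k}/(2k) → 0` as `δ = 1/(n+1) → 0`. -/
theorem err_tendsto {φ : (Fin 2 → ℂ) → ℝ} (hφ : Continuous φ) (hc : HasCompactSupport φ)
    (hs : tsupport φ ⊆ VV) :
    Tendsto (fun n : ℕ => ∫ p, |φ p| * ((1 / ((n : ℝ) + 1)) *
      Real.exp (2 * kk (1 / ((n : ℝ) + 1)) p) / (2 * kk (1 / ((n : ℝ) + 1)) p))) atTop (𝓝 0) := by
  have hK : IsCompact (tsupport φ) := hc
  -- constants
  have hlogc : ContinuousOn (fun p : Fin 2 → ℂ => Real.log ‖p 1‖) (tsupport φ) := by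
    apply ContinuousOn.log (by fun_prop)
    intro p hp
    exact norm_ne_zero_iff.2 (log_of_mem_VV (hs hp)).2
  obtain ⟨x0, hx0, hx0K⟩ := hK.exists_forall_le' hlogc (a := -1 / 2)
    fun p hp => (log_of_mem_VV (hs hp)).1
  obtain ⟨R, hR⟩ := hK.isBounded.exists_norm_le
  obtain ⟨Cφ, hCφ⟩ := hK.exists_bound_of_continuousOn hφ.continuousOn
  have hCφ0 : ∀ p, |φ p| ≤ |Cφ| * (tsupport φ).indicator (fun _ => (1 : ℝ)) p := by
    intro p
    by_cases hp : p ∈ tsupport φ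
    · rw [Set.indicator_of_mem hp, mul_one]
      exact (hCφ p hp).trans (le_abs_self _)
    · rw [image_eq_zero_of_notMem_tsupport hp]; simp [Set.indicator_of_notMem hp]
  have hlogR : ∀ p ∈ tsupport φ, Real.log ‖p 1‖ ≤ R := by
    intro p hp
    have h1 : 0 < ‖p 1‖ := norm_pos_iff.2 (log_of_mem_VV (hs hp)).2
    have h2 := Real.log_le_sub_one_of_pos h1
    have h3 := (norm_le_pi_norm p 1).trans (hR p hp)
    linarith
  set k0 : ℝ := min 1 (Real.sqrt (1 + 2 * x0)) with hk0def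
  have hk0 : 0 < k0 := lt_min one_pos (Real.sqrt_pos.2 (by linarith))
  set I1 : ℝ := ∫ z : ℂ, 1 / (‖z‖ ^ 2 + 1) ^ 2 with hI1
  have hI1nn : 0 ≤ I1 := integral_nonneg fun z => by positivity
  set a : ℝ := Real.exp (-1 / 2) ^ 2 with ha
  have ha0 : 0 < a := by positivity
  have ha1 : a ≤ 1 := by
    have h1 : Real.exp (-1 / 2) ≤ 1 := by
      rw [Real.exp_le_one_iff]; norm_num
    exact pow_le_one₀ (Real.exp_pos _).le h1
  set VB : ℝ := volume.real (Metric.closedBall (0 : ℂ) R) with hVB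
  -- the bound for fixed M
  have hbound : ∀ M : ℝ, 2 ≤ M → ∀ δ : ℝ, 0 < δ →
      ∫ p, |φ p| * (δ * Real.exp (2 * kk δ p) / (2 * kk δ p)) ≤
        |Cφ| * (δ * (Real.exp (2 * M) / (2 * k0))) * volume.real (tsupport φ) +
          |Cφ| * ((2 * R + 1) ^ 2 / (M - 1) ^ 2 * (a ^ 2)⁻¹) * (I1 * VB) := by
    intro M hM δ hδ
    obtain ⟨hint, hval⟩ := uerr_prod R hδ
    have hKind : Integrable ((tsupport φ).indicator (fun _ => (1 : ℝ))) := by
      rw [integrable_indicator_iff (isClosed_tsupport φ).measurableSet]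
      exact integrableOn_const hK.measure_lt_top.ne
    have hg : Integrable (fun p : Fin 2 → ℂ =>
        |Cφ| * (δ * (Real.exp (2 * M) / (2 * k0))) * (tsupport φ).indicator (fun _ => (1 : ℝ)) p +
          |Cφ| * ((2 * R + 1) ^ 2 / (M - 1) ^ 2 * (a ^ 2)⁻¹) * (δ / (‖p 0‖ ^ 2 + δ) ^ 2 *
      (Metric.closedBall (0 : ℂ) R).indicator (fun _ => (1 : ℝ)) (p 1))) :=
      (hKind.const_mul _).add (hint.const_mul _)
    have hle : ∀ p : Fin 2 → ℂ, |φ p| * (δ * Real.exp (2 * kk δ p) / (2 * kk δ p)) ≤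
        |Cφ| * (δ * (Real.exp (2 * M) / (2 * k0))) * (tsupport φ).indicator (fun _ => (1 : ℝ)) p +
          |Cφ| * ((2 * R + 1) ^ 2 / (M - 1) ^ 2 * (a ^ 2)⁻¹) * (δ / (‖p 0‖ ^ 2 + δ) ^ 2 *
      (Metric.closedBall (0 : ℂ) R).indicator (fun _ => (1 : ℝ)) (p 1)) := by
      intro p
      by_cases hp : p ∈ tsupport φ
      · have hV := log_of_mem_VV (hs hp)
        have hρ : 0 < ‖p 0 * p 1‖ ^ 2 + δ := by positivity
        have hpt := uerr_pointwise hρ hδ hx0 (hx0K p hp) (hlogR p hp) hM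
        have hkpos : 0 < kk δ p := kap_pos hρ hV.1
        have hball : p 1 ∈ Metric.closedBall (0 : ℂ) R := by
          rw [mem_closedBall_zero_iff]
          exact (norm_le_pi_norm p 1).trans (hR p hp)
        rw [Set.indicator_of_mem hp, Set.indicator_of_mem hball, mul_one, mul_one]
        have hw : a ≤ ‖p 1‖ ^ 2 := by
          have : Real.exp (-1 / 2) < ‖p 1‖ := hs hp
          exact pow_le_pow_left₀ (Real.exp_pos _).le this.le 2
        have hρ2 : a * (‖p 0‖ ^ 2 + δ) ≤ ‖p 0 * p 1‖ ^ 2 + δ := by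
          rw [norm_mul, mul_pow]
          have h1 : a * ‖p 0‖ ^ 2 ≤ ‖p 1‖ ^ 2 * ‖p 0‖ ^ 2 :=
            mul_le_mul_of_nonneg_right hw (by positivity)
          have h2 : a * δ ≤ δ := by nlinarith
          nlinarith
        have hq : δ / (‖p 0 * p 1‖ ^ 2 + δ) ^ 2 ≤ (a ^ 2)⁻¹ * (δ / (‖p 0‖ ^ 2 + δ) ^ 2) := by
          have h3 : (a ^ 2)⁻¹ * (δ / (‖p 0‖ ^ 2 + δ) ^ 2) = δ / (a * (‖p 0‖ ^ 2 + δ)) ^ 2 := by
            have : 0 < ‖p 0‖ ^ 2 + δ := by positivity
            field_simp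
          rw [h3]
          apply div_le_div_of_nonneg_left hδ.le (by positivity)
          exact pow_le_pow_left₀ (by positivity) hρ2 2
        have hA : 0 ≤ (2 * R + 1) ^ 2 / (M - 1) ^ 2 := by positivity
        have hstep : δ * Real.exp (2 * kk δ p) / (2 * kk δ p) ≤
            δ * (Real.exp (2 * M) / (2 * k0)) +
              (2 * R + 1) ^ 2 / (M - 1) ^ 2 * ((a ^ 2)⁻¹ * (δ / (‖p 0‖ ^ 2 + δ) ^ 2)) :=
          hpt.trans (by gcongr)
        have hnn : 0 ≤ δ * Real.exp (2 * kk δ p) / (2 * kk δ p) := by positivity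
        have hφp : |φ p| ≤ |Cφ| := (hCφ p hp).trans (le_abs_self _)
        calc |φ p| * (δ * Real.exp (2 * kk δ p) / (2 * kk δ p))
            ≤ |Cφ| * (δ * Real.exp (2 * kk δ p) / (2 * kk δ p)) :=
              mul_le_mul_of_nonneg_right hφp hnn
          _ ≤ |Cφ| * (δ * (Real.exp (2 * M) / (2 * k0)) +
              (2 * R + 1) ^ 2 / (M - 1) ^ 2 * ((a ^ 2)⁻¹ * (δ / (‖p 0‖ ^ 2 + δ) ^ 2))) :=
              mul_le_mul_of_nonneg_left hstep (abs_nonneg _)
          _ = _ := by ring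
      · rw [image_eq_zero_of_notMem_tsupport hp, abs_zero, zero_mul]
        have h1 : 0 ≤ (Metric.closedBall (0 : ℂ) R).indicator (fun _ => (1 : ℝ)) (p 1) :=
          Set.indicator_nonneg (fun _ _ => zero_le_one) _
        have h2 : 0 ≤ (tsupport φ).indicator (fun _ => (1 : ℝ)) p :=
          Set.indicator_nonneg (fun _ _ => zero_le_one) _
        positivity
    have hmono := integral_mono_of_nonneg (μ := (volume : Measure (Fin 2 → ℂ)))
      (f := fun p => |φ p| * (δ * Real.exp (2 * kk δ p) / (2 * kk δ p))) ?_ hg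
      (Filter.Eventually.of_forall hle)
    · refine hmono.trans (le_of_eq ?_)
      rw [integral_add (hKind.const_mul _) (hint.const_mul _), integral_const_mul,
        integral_const_mul, hval, integral_indicator_const _ (isClosed_tsupport φ).measurableSet,
        smul_eq_mul, mul_one]
    · apply Filter.Eventually.of_forall
      intro p
      simp only [Pi.zero_apply]
      by_cases hp : p ∈ tsupport φ
      · have hV := log_of_mem_VV (hs hp)
        have hρ : 0 < ‖p 0 * p 1‖ ^ 2 + δ := by positivity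
        have hkpos : 0 < kk δ p := kap_pos hρ hV.1
        positivity
      · rw [image_eq_zero_of_notMem_tsupport hp]; simp
  have hnonneg : ∀ δ : ℝ, 0 < δ → 0 ≤ ∫ p, |φ p| * (δ * Real.exp (2 * kk δ p) / (2 * kk δ p)) := by
    intro δ hδ
    apply integral_nonneg
    intro p
    simp only [Pi.zero_apply]
    by_cases hp : p ∈ tsupport φ
    · have hV := log_of_mem_VV (hs hp)
      have hρ : 0 < ‖p 0 * p 1‖ ^ 2 + δ := by positivity
      have hkpos : 0 < kk δ p := kap_pos hρ hV.1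
      positivity
    · rw [image_eq_zero_of_notMem_tsupport hp]; simp
  -- the limit
  rw [Metric.tendsto_atTop]
  intro ε hε
  have hlimM : Tendsto (fun M : ℝ => |Cφ| * ((2 * R + 1) ^ 2 / (M - 1) ^ 2 * (a ^ 2)⁻¹) *
      (I1 * VB)) atTop (𝓝 (|Cφ| * (0 * (a ^ 2)⁻¹) * (I1 * VB))) := by
    apply Tendsto.mul_const
    apply Tendsto.const_mul
    apply Tendsto.mul_const
    apply Tendsto.const_div_atTop
    apply (tendsto_pow_atTop two_ne_zero).comp
    exact tendsto_atTop_add_const_right _ _ tendsto_id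
  rw [zero_mul, mul_zero, zero_mul] at hlimM
  obtain ⟨M, hM2, hMε⟩ := ((eventually_ge_atTop (2 : ℝ)).and
    (hlimM.eventually (gt_mem_nhds (half_pos hε)))).exists
  have hlimδ : Tendsto (fun n : ℕ => |Cφ| * ((1 / ((n : ℝ) + 1)) *
      (Real.exp (2 * M) / (2 * k0))) * volume.real (tsupport φ)) atTop
      (𝓝 (|Cφ| * (0 * (Real.exp (2 * M) / (2 * k0))) * volume.real (tsupport φ))) := by
    apply Tendsto.mul_const
    apply Tendsto.const_mul
    apply Tendsto.mul_const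
    exact tendsto_one_div_add_atTop_nhds_zero_nat
  rw [zero_mul, mul_zero, zero_mul] at hlimδ
  obtain ⟨N, hN⟩ := Filter.eventually_atTop.1 (hlimδ.eventually (gt_mem_nhds (half_pos hε)))
  refine ⟨N, fun n hn => ?_⟩
  have hδ : (0 : ℝ) < 1 / ((n : ℝ) + 1) := by positivity
  have h1 := hbound M hM2 _ hδ
  have h2 := hnonneg _ hδ
  have h3 := hN n hn
  rw [Real.dist_eq, sub_zero, abs_of_nonneg h2]
  linarith

end LibMA34
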