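import Pool.Agent.LibMA34.KapDer
import Pool.Agent.LibMA34.USmooth

namespace LibMA34

open scoped ComplexConjugate
open Filter Topology

/-- The second directional derivative from the first derivative along a line. -/
lemma ulevi_D2_of_curve {u : (Fin 2 → ℂ) → ℝ} {p b : Fin 2 → ℂ} (hu : ContDiffAt ℝ 2 u p)
    {f' : ℝ → ℝ} {c : ℝ}
    (h1 : ∀ᶠ s in 𝓝 (0:ℝ), HasDerivAt (fun t : ℝ => u (p + t • b)) (f' s) s)
    (h2 : HasDerivAt f' c 0) : D2 u b b p = c := by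
  have hline : ∀ s : ℝ, HasDerivAt (fun t : ℝ => p + t • b) b s := by
    intro s
    simpa using ((hasDerivAt_id s).smul_const b).const_add p
  have hcont : Tendsto (fun t : ℝ => p + t • b) (𝓝 0) (𝓝 p) := by
    have := (hline 0).continuousAt.tendsto
    simpa using this
  have hdiff : ∀ᶠ y in 𝓝 p, DifferentiableAt ℝ u y := by
    have := hu.eventually (by simp)
    filter_upwards [this] with y hy
    exact hy.differentiableAt (by norm_num)
  have hg : DifferentiableAt ℝ (fun y => fderiv ℝ u y b) p := by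
    have h3 : ContDiffAt ℝ 1 (fderiv ℝ u) p := hu.fderiv_right (by norm_num)
    exact (h3.differentiableAt (by norm_num)).clm_apply (differentiableAt_const b)
  have hg' : HasDerivAt (fun s : ℝ => fderiv ℝ u (p + s • b) b) (D2 u b b p) 0 := by
    have h4 : HasFDerivAt (fun y => fderiv ℝ u y b) (fderiv ℝ (fun y => fderiv ℝ u y b) p)
        (p + (0:ℝ) • b) := by
      simpa using hg.hasFDerivAt
    exact h4.comp_hasDerivAt (0:ℝ) (hline 0)
  have heq : f' =ᶠ[𝓝 0] fun s : ℝ => fderiv ℝ u (p + s • b) b := by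
    filter_upwards [h1, hcont.eventually hdiff] with s hs hd
    exact hs.unique (hd.hasFDerivAt.comp_hasDerivAt s (hline s))
  exact (hg'.congr_of_eventuallyEq heq).unique h2

lemma ulevi_alg {N E k : ℝ} (N' X' N'' X'' : ℝ) (hE : 0 < E) (hN : 0 < N) (hk : 0 < k) :
    (N' * E ^ 2 / 2 + N * (E ^ 2 * (2 * ((2 * X' - E * (k - 1) * N') / (k * (N * E + E⁻¹))))) / 2 +
      (2 * X' - E * (k - 1) * N') / (k * (N * E + E⁻¹))) * N' + (N * E ^ 2 / 2 + k) * N'' +
      (2 * (N' * E + N * (E * ((2 * X' - E * (k - 1) * N') / (k * (N * E + E⁻¹)))) +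
        E⁻¹ * ((2 * X' - E * (k - 1) * N') / (k * (N * E + E⁻¹)))) * X' +
      2 * (N * E - E⁻¹) * X'') + X'' / 4 =
    (E ^ 2 * (2 - k) / (2 * k)) * N' ^ 2 + (4 * E / k) * (N' * X') + (4 / k) * X' ^ 2 +
      (N * E ^ 2 / 2 + k) * N'' + (2 * (N * E - E⁻¹) + 1 / 4) * X'' := by
  have h1 : N * E ^ 2 + 1 ≠ 0 := by positivity
  have h2 : k * (N * E + E⁻¹) ≠ 0 := by positivity
  have h3 : N * E + E⁻¹ ≠ 0 := by positivity
  set r := (2 * X' - E * (k - 1) * N') / (k * (N * E + E⁻¹)) with hr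
  have hr1 : (N * E + E⁻¹) * r = (2 * X' - E * (k - 1) * N') / k := by
    rw [hr]
    field_simp
  have hr2 : (N * E ^ 2 + 1) * r = E * ((2 * X' - E * (k - 1) * N') / k) := by
    rw [← hr1]
    field_simp
  have e1 : (N' * E ^ 2 / 2 + N * (E ^ 2 * (2 * r)) / 2 + r) * N' =
      (N' * E ^ 2 / 2 + (N * E ^ 2 + 1) * r) * N' := by ring
  have e2 : 2 * (N' * E + N * (E * r) + E⁻¹ * r) * X' = 2 * (N' * E + (N * E + E⁻¹) * r) * X' := by
    ring
  rw [e1, e2, hr1, hr2]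
  field_simp
  ring

/-- The second derivative along a line. -/
lemma ulevi_curve {δ : ℝ} (hδ : 0 < δ) {p : Fin 2 → ℂ} (hp : p ∈ VV) (b : Fin 2 → ℂ)
    (a c α γ B0 B1 : ℝ) (ha : a = ‖p 0‖ ^ 2) (hc : c = ‖p 1‖ ^ 2) (hB0 : B0 = ‖b 0‖ ^ 2)
    (hB1 : B1 = ‖b 1‖ ^ 2) (hα : α = (conj (p 0) * b 0).re) (hγ : γ = (conj (p 1) * b 1).re) :
    D2 (Ud δ) b b p =
      (Real.exp (kk δ p) ^ 2 * (2 - kk δ p) / (2 * kk δ p)) * (2 * α * c + 2 * γ * a) ^ 2 +
      (4 * Real.exp (kk δ p) / kk δ p) * ((2 * α * c + 2 * γ * a) * (γ / c)) +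
      (4 / kk δ p) * (γ / c) ^ 2 +
      ((a * c + δ) * Real.exp (kk δ p) ^ 2 / 2 + kk δ p) * (2 * B0 * c + 8 * α * γ + 2 * a * B1) +
      (2 * ((a * c + δ) * Real.exp (kk δ p) - (Real.exp (kk δ p))⁻¹) + 1 / 4) *
        (B1 / c - 2 * γ ^ 2 / c ^ 2) := by
  have hVo := VV_isOpen
  have hu : ContDiffAt ℝ 2 (Ud δ) p :=
    (((Ud_contDiffOn hδ).contDiffAt (hVo.mem_nhds hp)).of_le (WithTop.coe_le_coe.mpr (le_top : (2 : ℕ∞) ≤ ⊤)))
  have hcpos : 0 < c := by
    rw [hc]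
    have := norm_pos_iff.mpr (log_of_mem_VV hp).2
    positivity
  have hsq : ∀ (z v : ℂ) (t : ℝ), ‖z + t * v‖ ^ 2 =
      ‖z‖ ^ 2 + 2 * (conj z * v).re * t + ‖v‖ ^ 2 * t ^ 2 := by
    intro z v t
    rw [← Complex.normSq_eq_norm_sq, ← Complex.normSq_eq_norm_sq, ← Complex.normSq_eq_norm_sq,
      Complex.normSq_apply, Complex.normSq_apply, Complex.normSq_apply]
    simp
    ring
  set n0 : ℝ → ℝ := fun t => a + 2 * α * t + B0 * t ^ 2 with hn0
  set n1 : ℝ → ℝ := fun t => c + 2 * γ * t + B1 * t ^ 2 with hn1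
  have hn0' : ∀ t, HasDerivAt n0 (2 * α + 2 * B0 * t) t := by
    intro t
    have h := (((hasDerivAt_id t).const_mul (2 * α)).const_add a).add
      (((hasDerivAt_id t).pow 2).const_mul B0)
    refine h.congr_deriv ?_
    simp
    ring
  have hn1' : ∀ t, HasDerivAt n1 (2 * γ + 2 * B1 * t) t := by
    intro t
    have h := (((hasDerivAt_id t).const_mul (2 * γ)).const_add c).add
      (((hasDerivAt_id t).pow 2).const_mul B1)
    refine h.congr_deriv ?_
    simp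
    ring
  have e0 : ∀ t : ℝ, ‖(p + t • b) 0‖ ^ 2 = n0 t := by
    intro t
    have : (p + t • b) 0 = p 0 + t * b 0 := by simp
    rw [this, hsq]
    simp only [hn0, ha, hα, hB0]
  have e1 : ∀ t : ℝ, ‖(p + t • b) 1‖ ^ 2 = n1 t := by
    intro t
    have : (p + t • b) 1 = p 1 + t * b 1 := by simp
    rw [this, hsq]
    simp only [hn1, hc, hγ, hB1]
  set N : ℝ → ℝ := fun t => n0 t * n1 t + δ with hN
  set X : ℝ → ℝ := fun t => Real.log (n1 t) / 2 with hX
  have hNe : ∀ t : ℝ, ‖(p + t • b) 0 * (p + t • b) 1‖ ^ 2 + δ = N t := by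
    intro t
    rw [norm_mul, mul_pow, e0, e1]
  have hXe : ∀ t : ℝ, Real.log ‖(p + t • b) 1‖ = X t := by
    intro t
    simp only [hX]
    rw [← e1, Real.log_pow]
    push_cast
    ring
  have hUe : ∀ t : ℝ, Ud δ (p + t • b) = Phi (N t) (X t) + X t / 4 := by
    intro t
    unfold Ud
    rw [hNe, hXe]
  have hcont : Tendsto (fun t : ℝ => p + t • b) (𝓝 0) (𝓝 p) := by
    have h : Continuous fun t : ℝ => p + t • b := by fun_prop
    have := h.tendsto 0
    simpa using this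
  have hev : ∀ᶠ t in 𝓝 (0:ℝ), p + t • b ∈ VV := hcont.eventually (hVo.mem_nhds hp)
  have hn0nn : ∀ t, 0 ≤ n0 t := fun t => by rw [← e0]; positivity
  have hn1nn : ∀ t, 0 ≤ n1 t := fun t => by rw [← e1]; positivity
  have hNpos : ∀ t, 0 < N t := fun t => by
    have := mul_nonneg (hn0nn t) (hn1nn t)
    simp only [hN]
    linarith
  have hN' : ∀ t, HasDerivAt N ((2 * α + 2 * B0 * t) * n1 t + n0 t * (2 * γ + 2 * B1 * t)) t :=
    fun t => ((hn0' t).mul (hn1' t)).add_const δ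
  have hX' : ∀ t, n1 t ≠ 0 → HasDerivAt X ((2 * γ + 2 * B1 * t) / n1 t / 2) t :=
    fun t ht => ((hn1' t).log ht).div_const 2
  have hgood : ∀ᶠ t in 𝓝 (0:ℝ), n1 t ≠ 0 ∧ -1 / 2 < X t := by
    filter_upwards [hev] with t ht
    have h := log_of_mem_VV ht
    refine ⟨?_, ?_⟩
    · rw [← e1]
      have := norm_pos_iff.mpr h.2
      positivity
    · rw [← hXe]
      exact h.1
  have hg0 : n1 0 ≠ 0 ∧ -1 / 2 < X 0 := hgood.self_of_nhds
  have hN0 : N 0 = a * c + δ := by simp [hN, hn0, hn1]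
  have hn10 : n1 0 = c := by simp [hn1]
  have hn00 : n0 0 = a := by simp [hn0]
  have hk0 : kap (N 0) (X 0) = kk δ p := by
    unfold kk
    have h1 := hNe 0
    have h2 := hXe 0
    simp only [zero_smul, add_zero] at h1 h2
    rw [h1, h2]
  have hkpos : 0 < kk δ p := by
    rw [← hk0]
    exact kap_pos (hNpos 0) hg0.2
  set k := kk δ p with hk
  set E := Real.exp k with hE
  have hEpos : 0 < E := Real.exp_pos k
  have hE2 : Real.exp (2 * k) = E ^ 2 := by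
    rw [hE, ← Real.exp_nat_mul]
    norm_num
  have hEn : Real.exp (-k) = E⁻¹ := by
    rw [hE, Real.exp_neg]
  set N1 : ℝ → ℝ := fun t => (2 * α + 2 * B0 * t) * n1 t + n0 t * (2 * γ + 2 * B1 * t) with hN1
  set X1 : ℝ → ℝ := fun t => (2 * γ + 2 * B1 * t) / n1 t / 2 with hX1
  set Kf : ℝ → ℝ := fun t => kap (N t) (X t) with hKf
  have hlin : ∀ (u v : ℝ), HasDerivAt (fun t : ℝ => 2 * u + 2 * v * t) (2 * v) 0 := by
    intro u v
    have := ((hasDerivAt_id (0:ℝ)).const_mul (2 * v)).const_add (2 * u)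
    refine this.congr_deriv ?_
    ring
  have hN1d : HasDerivAt N1 (2 * B0 * c + 8 * α * γ + 2 * a * B1) 0 := by
    have h := ((hlin α B0).mul (hn1' 0)).add ((hn0' 0).mul (hlin γ B1))
    refine h.congr_deriv ?_
    rw [hn10, hn00]
    ring
  have hX1d : HasDerivAt X1 (B1 / c - 2 * γ ^ 2 / c ^ 2) 0 := by
    have h := ((hlin γ B1).div (hn1' 0) hg0.1).div_const 2
    refine h.congr_deriv ?_
    rw [hn10]
    field_simp
    ring
  have hKd : HasDerivAt Kf ((2 * (γ / c) - E * (k - 1) * (2 * α * c + 2 * γ * a)) /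
      (k * ((a * c + δ) * E + E⁻¹))) 0 := by
    have h := hasDerivAt_kap (hN' 0) (hX' 0 hg0.1) (hNpos 0) hg0.2
    rw [hk0, hN0, hn10, hn00] at h
    refine h.congr_deriv ?_
    rw [hEn, ← hE]
    congr 1
    field_simp
    ring
  have hKf0 : Kf 0 = k := hk0
  set r := (2 * (γ / c) - E * (k - 1) * (2 * α * c + 2 * γ * a)) /
      (k * ((a * c + δ) * E + E⁻¹)) with hr
  have hf' : ∀ᶠ s in 𝓝 (0:ℝ), HasDerivAt (fun t : ℝ => Ud δ (p + t • b))
      ((N s * Real.exp (2 * Kf s) / 2 + Kf s) * N1 s +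
        2 * (N s * Real.exp (Kf s) - Real.exp (-(Kf s))) * X1 s + X1 s / 4) s := by
    filter_upwards [hgood] with s hs
    have h := (hasDerivAt_Phi (hN' s) (hX' s hs.1) (hNpos s) hs.2).add
      ((hX' s hs.1).div_const 4)
    refine h.congr_of_eventuallyEq (Eventually.of_forall fun t => ?_)
    exact hUe t
  have hN0d : HasDerivAt N (2 * α * c + 2 * γ * a) 0 := by
    refine (hN' 0).congr_deriv ?_
    rw [hn10, hn00]
    ring
  have hfd : HasDerivAt (fun s => (N s * Real.exp (2 * Kf s) / 2 + Kf s) * N1 s +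
        2 * (N s * Real.exp (Kf s) - Real.exp (-(Kf s))) * X1 s + X1 s / 4)
      (((2 * α * c + 2 * γ * a) * E ^ 2 / 2 + (a * c + δ) * (E ^ 2 * (2 * r)) / 2 + r) *
          (2 * α * c + 2 * γ * a) +
        ((a * c + δ) * E ^ 2 / 2 + k) * (2 * B0 * c + 8 * α * γ + 2 * a * B1) +
        (2 * ((2 * α * c + 2 * γ * a) * E + (a * c + δ) * (E * r) + E⁻¹ * r) * (γ / c) +
          2 * ((a * c + δ) * E - E⁻¹) * (B1 / c - 2 * γ ^ 2 / c ^ 2)) +
        (B1 / c - 2 * γ ^ 2 / c ^ 2) / 4) 0 := by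
    have hA := ((hN0d.mul ((hKd.const_mul 2).exp)).div_const 2).add hKd
    have hB := ((hN0d.mul hKd.exp).sub (hKd.neg.exp)).const_mul 2
    have h := ((hA.mul hN1d).add (hB.mul hX1d)).add (hX1d.div_const 4)
    refine h.congr_deriv ?_
    have hN10 : N1 0 = 2 * α * c + 2 * γ * a := by
      simp only [hN1]
      rw [hn10, hn00]
      ring
    have hX10 : X1 0 = γ / c := by
      simp only [hX1]
      rw [hn10]
      field_simp
      ring
    simp only [Pi.mul_apply, Pi.add_apply, Pi.sub_apply, Pi.neg_apply]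
    rw [hKf0, hN0, hN10, hX10, hE2, hEn, ← hE]
    ring
  rw [ulevi_D2_of_curve hu hf' hfd, hr]
  have hNp : 0 < a * c + δ := by
    rw [← hN0]
    exact hNpos 0
  exact ulevi_alg _ _ _ _ hEpos hNp hkpos

/-- The Levi form of `U^δ`. -/
theorem Ud_levi {δ : ℝ} (hδ : 0 < δ) {p : Fin 2 → ℂ} (hp : p ∈ VV) (b : Fin 2 → ℂ) :
    D2 (Ud δ) b b p + D2 (Ud δ) (Complex.I • b) (Complex.I • b) p =
      4 * ((kk δ p + δ * Real.exp (2 * kk δ p) / 2) * ‖p 1 * b 0 + p 0 * b 1‖ ^ 2 +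
        (1 / kk δ p) * ‖b 1 / p 1 +
          (Real.exp (kk δ p) : ℂ) * conj (p 0 * p 1) * (p 1 * b 0 + p 0 * b 1)‖ ^ 2) := by
  have h1 := ulevi_curve hδ hp b _ _ _ _ _ _ rfl rfl rfl rfl rfl rfl
  have h2 := ulevi_curve hδ hp (Complex.I • b) _ _ _ _ _ _ rfl rfl rfl rfl rfl rfl
  rw [h1, h2]
  have hkpos : 0 < kk δ p := kap_pos (by positivity) (log_of_mem_VV hp).1
  have hw : p 1 ≠ 0 := (log_of_mem_VV hp).2
  set k := kk δ p with hk
  set E := Real.exp k with hE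
  have hE2 : Real.exp (2 * k) = E ^ 2 := by
    rw [hE, ← Real.exp_nat_mul]
    norm_num
  rw [hE2]
  set z := p 0
  set w := p 1
  set b0 := b 0
  set b1 := b 1
  have hI0 : (Complex.I • b) 0 = Complex.I * b0 := rfl
  have hI1 : (Complex.I • b) 1 = Complex.I * b1 := rfl
  rw [hI0, hI1]
  have hnI : ∀ v : ℂ, ‖Complex.I * v‖ = ‖v‖ := fun v => by simp
  rw [hnI, hnI]
  set a := ‖z‖ ^ 2 with ha
  set c := ‖w‖ ^ 2 with hc
  set B0 := ‖b0‖ ^ 2 with hB0
  set B1 := ‖b1‖ ^ 2 with hB1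
  set α := (conj z * b0).re with hα
  set γ := (conj w * b1).re with hγ
  set α' := (conj z * (Complex.I * b0)).re with hα'
  set γ' := (conj w * (Complex.I * b1)).re with hγ'
  have hcpos : 0 < c := by
    have := norm_pos_iff.mpr hw
    positivity
  have r1 : γ ^ 2 + γ' ^ 2 = c * B1 := by
    rw [hγ, hγ', hc, hB1, ← Complex.normSq_eq_norm_sq, ← Complex.normSq_eq_norm_sq,
      Complex.normSq_apply, Complex.normSq_apply]
    simp
    ring
  have r2 : α ^ 2 + α' ^ 2 = a * B0 := by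
    rw [hα, hα', ha, hB0, ← Complex.normSq_eq_norm_sq, ← Complex.normSq_eq_norm_sq,
      Complex.normSq_apply, Complex.normSq_apply]
    simp
    ring
  set σ := α * γ + α' * γ' with hσ
  have r3 : ‖w * b0 + z * b1‖ ^ 2 = c * B0 + a * B1 + 2 * σ := by
    rw [hσ, hα, hα', hγ, hγ', ha, hc, hB0, hB1, ← Complex.normSq_eq_norm_sq,
      ← Complex.normSq_eq_norm_sq, ← Complex.normSq_eq_norm_sq, ← Complex.normSq_eq_norm_sq,
      ← Complex.normSq_eq_norm_sq,
      Complex.normSq_apply, Complex.normSq_apply, Complex.normSq_apply, Complex.normSq_apply,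
      Complex.normSq_apply]
    simp
    ring
  have r4 : ‖b1 / w + (E : ℂ) * conj (z * w) * (w * b0 + z * b1)‖ ^ 2 =
      B1 / c + 2 * E * (σ + a * B1) + E ^ 2 * (a * c) * ‖w * b0 + z * b1‖ ^ 2 := by
    have hexp : ∀ x y : ℂ, ‖x + y‖ ^ 2 = ‖x‖ ^ 2 + 2 * (conj x * y).re + ‖y‖ ^ 2 := by
      intro x y
      rw [← Complex.normSq_eq_norm_sq, ← Complex.normSq_eq_norm_sq, ← Complex.normSq_eq_norm_sq,
        Complex.normSq_apply, Complex.normSq_apply, Complex.normSq_apply]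
      simp
      ring
    rw [hexp]
    have hwc : conj w ≠ 0 := by simpa using hw
    have e1 : ‖b1 / w‖ ^ 2 = B1 / c := by
      rw [norm_div, div_pow]
    have e2 : ‖(E : ℂ) * conj (z * w) * (w * b0 + z * b1)‖ ^ 2 =
        E ^ 2 * (a * c) * ‖w * b0 + z * b1‖ ^ 2 := by
      rw [norm_mul, norm_mul, RCLike.norm_conj, norm_mul, Complex.norm_real, Real.norm_eq_abs,
        mul_pow, mul_pow, mul_pow, sq_abs]
    have e3 : conj (b1 / w) * ((E : ℂ) * conj (z * w) * (w * b0 + z * b1)) =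
        (E : ℂ) * (conj b1 * conj z * (w * b0 + z * b1)) := by
      rw [map_div₀, map_mul]
      field_simp
    have e4 : ((E : ℂ) * (conj b1 * conj z * (w * b0 + z * b1))).re = E * (σ + a * B1) := by
      rw [Complex.re_ofReal_mul]
      congr 1
      rw [hσ, hα, hα', hγ, hγ', ha, hB1, ← Complex.normSq_eq_norm_sq,
        ← Complex.normSq_eq_norm_sq, Complex.normSq_apply, Complex.normSq_apply]
      simp
      ring
    rw [e1, e2, e3, e4]
    ring
  rw [r4, r3]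
  have hB0e : B0 * a = α ^ 2 + α' ^ 2 := by rw [r2]; ring
  -- sums
  have s1 : (2 * α * c + 2 * γ * a) ^ 2 + (2 * α' * c + 2 * γ' * a) ^ 2 =
      4 * (a * c) * (c * B0 + a * B1 + 2 * σ) := by
    have : (2 * α * c + 2 * γ * a) ^ 2 + (2 * α' * c + 2 * γ' * a) ^ 2 =
        4 * (c ^ 2 * (α ^ 2 + α' ^ 2) + a ^ 2 * (γ ^ 2 + γ' ^ 2) + 2 * a * c * σ) := by
      rw [hσ]; ring
    rw [this, r1, r2]
    ring
  have s2 : (2 * α * c + 2 * γ * a) * (γ / c) + (2 * α' * c + 2 * γ' * a) * (γ' / c) =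
      2 * (σ + a * B1) := by
    have : (2 * α * c + 2 * γ * a) * (γ / c) + (2 * α' * c + 2 * γ' * a) * (γ' / c) =
        2 * σ + 2 * a * (γ ^ 2 + γ' ^ 2) / c := by
      rw [hσ]; field_simp; ring
    rw [this, r1]
    field_simp
  have s3 : (γ / c) ^ 2 + (γ' / c) ^ 2 = B1 / c := by
    have : (γ / c) ^ 2 + (γ' / c) ^ 2 = (γ ^ 2 + γ' ^ 2) / c ^ 2 := by field_simp
    rw [this, r1]
    field_simp
  have s4 : (2 * B0 * c + 8 * α * γ + 2 * a * B1) + (2 * B0 * c + 8 * α' * γ' + 2 * a * B1) =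
      4 * (c * B0 + a * B1 + 2 * σ) := by
    rw [hσ]; ring
  have s5 : (B1 / c - 2 * γ ^ 2 / c ^ 2) + (B1 / c - 2 * γ' ^ 2 / c ^ 2) = 0 := by
    have : (B1 / c - 2 * γ ^ 2 / c ^ 2) + (B1 / c - 2 * γ' ^ 2 / c ^ 2) =
        2 * B1 / c - 2 * (γ ^ 2 + γ' ^ 2) / c ^ 2 := by field_simp; ring
    rw [this, r1]
    field_simp
    ring
  have hfin : (E ^ 2 * (2 - k) / (2 * k)) * (4 * (a * c) * (c * B0 + a * B1 + 2 * σ)) +
      (4 * E / k) * (2 * (σ + a * B1)) + (4 / k) * (B1 / c) +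
      ((a * c + δ) * E ^ 2 / 2 + k) * (4 * (c * B0 + a * B1 + 2 * σ)) =
      4 * ((k + δ * E ^ 2 / 2) * (c * B0 + a * B1 + 2 * σ) +
        1 / k * (B1 / c + 2 * E * (σ + a * B1) + E ^ 2 * (a * c) * (c * B0 + a * B1 + 2 * σ))) := by
    field_simp
    ring
  rw [← hfin]
  linear_combination (E ^ 2 * (2 - k) / (2 * k)) * s1 + (4 * E / k) * s2 + (4 / k) * s3 +
    ((a * c + δ) * E ^ 2 / 2 + k) * s4 + (2 * ((a * c + δ) * E - E⁻¹) + 1 / 4) * s5

end LibMA34
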