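import Pool.Agent.LibMA34.UDet
import Pool.Agent.LibMA34.UErr

namespace LibMA34

open Filter Topology MeasureTheory
open scoped ContDiff

private lemma D2_contOn' {n : ℕ} {u : (Fin n → ℂ) → ℝ} {W : Set (Fin n → ℂ)} (hW : IsOpen W) (hu : ContDiffOn ℝ ∞ u W)
    (a b : Fin n → ℂ) : ContinuousOn (fun z => D2 u a b z) W := by
  have h1 : ContDiffOn ℝ 1 (fderiv ℝ u) W := hu.fderiv_of_isOpen hW (by norm_cast)
  have h2 : ContDiffOn ℝ 1 (fun y => fderiv ℝ u y b) W := h1.clm_apply contDiffOn_const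
  have h3 : ContDiffOn ℝ 0 (fderiv ℝ (fun y => fderiv ℝ u y b)) W := h2.fderiv_of_isOpen hW (by norm_num)
  exact (h3.continuousOn.clm_apply continuousOn_const)

private lemma ma_contOn' {u : (Fin 2 → ℂ) → ℝ} {W : Set (Fin 2 → ℂ)} (hW : IsOpen W) (hu : ContDiffOn ℝ ∞ u W) :
    ContinuousOn (maDensity u) W := by
  have h : ContinuousOn (fun z => (hA u z * hB u z - hC u z ^ 2 - hE u z ^ 2) / 16) W := by
    unfold hA hB hC hE
    have := fun a b => D2_contOn' hW hu a b
    have h1 := (this (ev 0) (ev 0)).add (this (iev 0) (iev 0))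
    have h2 := (this (ev 1) (ev 1)).add (this (iev 1) (iev 1))
    have h3 := (this (ev 0) (ev 1)).add (this (iev 0) (iev 1))
    have h4 := (this (ev 0) (iev 1)).sub (this (iev 0) (ev 1))
    exact (((h1.mul h2).sub (h3.pow 2)).sub (h4.pow 2)).div_const 16
  refine h.congr fun z hz => ?_
  exact maDensity_eq ((hu.contDiffAt (hW.mem_nhds hz)).of_le (by norm_cast))

private lemma mul_int' {f φ : (Fin 2 → ℂ) → ℝ} {W : Set (Fin 2 → ℂ)} (hW : IsOpen W) (hf : ContinuousOn f W)
    (hφ : Continuous φ) (hφc : HasCompactSupport φ) (hφs : tsupport φ ⊆ W) : Integrable (fun z => φ z * f z) := by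
  have hc : Continuous (fun z => φ z * f z) := by
    rw [continuous_iff_continuousAt]
    intro z
    by_cases hz : z ∈ tsupport φ
    · exact hφ.continuousAt.mul (hf.continuousAt (hW.mem_nhds (hφs hz)))
    · have h1 : (fun z => φ z * f z) =ᶠ[nhds z] fun _ => 0 := by
        filter_upwards [(isClosed_tsupport φ).isOpen_compl.mem_nhds hz] with y hy
        rw [image_eq_zero_of_notMem_tsupport hy, zero_mul]
      exact (continuousAt_const).congr h1.symm
  exact hc.integrable_of_hasCompactSupport (hφc.mul_right)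

/-- The Monge-Ampere measures of `U^{1/(n+1)}` converge weakly to Lebesgue measure. -/
theorem ma_tendsto {φ : (Fin 2 → ℂ) → ℝ} (hφ : Continuous φ) (hc : HasCompactSupport φ)
    (hs : tsupport φ ⊆ VV) :
    Tendsto (fun n : ℕ => ∫ p, φ p * maDensity (Ud (1 / ((n : ℝ) + 1))) p) atTop
      (𝓝 (∫ p, φ p * 1)) := by
  rw [tendsto_iff_norm_sub_tendsto_zero]
  refine squeeze_zero (fun n => norm_nonneg _) (fun n => ?_) (err_tendsto hφ hc hs)
  have hδ : (0 : ℝ) < 1 / ((n : ℝ) + 1) := by positivity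
  have hi1 := mul_int' VV_isOpen (ma_contOn' VV_isOpen (Ud_contDiffOn hδ)) hφ hc hs
  have hi2 : Integrable (fun p => φ p * (1 : ℝ)) := mul_int' VV_isOpen continuousOn_const hφ hc hs
  rw [← integral_sub hi1 hi2]
  refine (norm_integral_le_integral_norm _).trans (le_of_eq ?_)
  refine integral_congr_ae (Eventually.of_forall fun p => ?_)
  simp only
  by_cases hp : p ∈ tsupport φ
  · have hk : 0 < kk (1 / ((n : ℝ) + 1)) p := by
      unfold kk
      exact kap_pos (by positivity) (log_of_mem_VV (hs hp)).1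
    have hnn : 0 ≤ 1 / ((n : ℝ) + 1) * Real.exp (2 * kk (1 / ((n : ℝ) + 1)) p) / (2 * kk (1 / ((n : ℝ) + 1)) p) := by positivity
    rw [Ud_ma hδ (hs hp), Real.norm_eq_abs, ← mul_sub, abs_mul, add_sub_cancel_left, abs_of_nonneg hnn]
  · rw [image_eq_zero_of_notMem_tsupport hp]; simp

end LibMA34
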