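import Pool.Agent.LibMA34.UPsh
import Pool.Agent.LibMA34.UMAa
import Pool.Agent.LibMA34.Stab

namespace LibMA34

open Filter Topology MeasureTheory
open scoped ContDiff

theorem D2_sub_const {n : ℕ} (u : (Fin n → ℂ) → ℝ) (c : ℝ) (a b z : Fin n → ℂ) :
    D2 (fun p => u p - c) a b z = D2 u a b z := by
  unfold D2
  have : (fun y => fderiv ℝ (fun p => u p - c) y b) = fun y => fderiv ℝ u y b := by
    funext y
    rw [fderiv_sub_const]
  rw [this]

theorem maDensity_sub_const {n : ℕ} (u : (Fin n → ℂ) → ℝ) (c : ℝ) (z : Fin n → ℂ) :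
    maDensity (fun p => u p - c) z = maDensity u z := by
  unfold maDensity complexHessian
  simp only [D2_sub_const]

/-- `(dd^c U)² = dV` on every subset of `VV`, also after subtracting a constant. -/
theorem U_hasMongeAmpere {Ω : Set (Fin 2 → ℂ)} (hΩ : Ω ⊆ VV) (c : ℝ) :
    HasMongeAmpere Ω (fun p => Ud 0 p - c) (fun _ => 1) := by
  intro W hW hWc hWΩ
  have hWV : W ⊆ VV := (subset_closure.trans hWΩ).trans hΩ
  set v : ℕ → (Fin 2 → ℂ) → ℝ := fun n p => Ud (1 / ((n : ℝ) + 1)) p - c with hv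
  have happ : SmoothPshApprox W v (fun p => Ud 0 p - c) := by
    refine ⟨fun j => ⟨((U_approx.1 j).1.mono hWV).sub contDiffOn_const,
      psh_sub_const (psh_mono hWV (U_approx.1 j).2) c⟩, ?_⟩
    have h := U_approx.2.mono hWV
    rw [Metric.tendstoLocallyUniformlyOn_iff] at h ⊢
    intro ε hε x hx
    obtain ⟨t, ht, h'⟩ := h ε hε x hx
    refine ⟨t, ht, ?_⟩
    filter_upwards [h'] with n hn y hy
    have := hn y hy
    simpa [hv, Real.dist_eq] using this
  refine ⟨⟨v, happ⟩, ?_⟩
  intro v' hv' φ hφ hφc hφs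
  have h1 := stability hW hv' happ hφ hφc hφs
  have h2 := ma_tendsto hφ.continuous hφc (hφs.trans hWV)
  have h3 : ∀ n, (∫ z, φ z * maDensity (v n) z) =
      ∫ z, φ z * maDensity (Ud (1 / ((n : ℝ) + 1))) z := by
    intro n
    simp only [hv, maDensity_sub_const]
  have h4 := h1.add h2
  rw [zero_add] at h4
  refine h4.congr fun n => ?_
  rw [h3]
  ring

end LibMA34
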