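import Pool.Agent.LibMA34.ULevi
import Pool.Agent.LibMA34.UDini
import Pool.Agent.LibMA34.SubPsh
import Pool.Agent.LibMA34.PshLim

namespace LibMA34

open Filter Topology
open scoped ContDiff

theorem Ud_psh {δ : ℝ} (hδ : 0 < δ) : PshOn VV (Ud δ) := by
  refine psh_of_levi VV_isOpen ((Ud_contDiffOn hδ).of_le (WithTop.coe_le_coe.mpr le_top)) ?_
  intro p hp b
  rw [Ud_levi hδ hp b]
  have hk : 0 < kk δ p := kap_pos (by positivity) (log_of_mem_VV hp).1
  positivity

theorem U0_psh : PshOn VV (Ud 0) :=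
  psh_of_tendsto (fun n => Ud_psh (by positivity)) Ud_tendsto

theorem U_approx : SmoothPshApprox VV (fun n : ℕ => Ud (1 / ((n : ℝ) + 1))) (Ud 0) :=
  ⟨fun n => ⟨Ud_contDiffOn (by positivity), Ud_psh (by positivity)⟩, Ud_tendsto⟩

end LibMA34
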